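import Pool.Agent.H32.BSDE.Star

open MeasureTheory ProbabilityTheory Filter Set
open scoped ENNReal NNReal Topology

namespace BSDE

variable {Ω : Type*} {m : MeasurableSpace Ω} {d : ℕ}

section
variable {F : Filtration ℝ m} {μ : Measure Ω} {T : ℝ} {B : ℝ → Ω → E d}

/-- optional stopping for a Brownian component -/
theorem stop_W [IsProbabilityMeasure μ] (hB : FBM F B μ) (hT : 0 ≤ T) {e : E d} (he : ‖e‖ = 1)
    {s : ℝ} (hs : s ∈ Icc 0 T) {ψ : Ω → ℝ} (hψ : Measurable[F s] ψ)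
    (hψb : ∃ C : ℝ, ∀ ω, |ψ ω| ≤ C) {ρ : Ω → ℝ} (hρ : IsStop F T ρ) (hsρ : ∀ ω, s ≤ ρ ω) :
    Integrable (fun ω => ψ ω * inner ℝ e (B (ρ ω) ω - B s ω)) μ ∧
    ∫ ω, ψ ω * inner ℝ e (B (ρ ω) ω - B s ω) ∂μ = 0 ∧
    ∫⁻ ω, ‖ψ ω * inner ℝ e (B (ρ ω) ω - B s ω)‖ₑ ^ 2 ∂μ =
      ∫⁻ ω, ‖ψ ω‖ₑ ^ 2 * ENNReal.ofReal (ρ ω - s) ∂μ := by
  obtain ⟨C, hC⟩ := hψb
  have hmem : ((fun r ω => (Ioc s T).indicator (fun _ => ψ ω • e) r,
      fun r ω => inner ℝ (ψ ω • e) (B (min T r) ω - B (min s r) ω)) :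
        (ℝ → Ω → E d) × (ℝ → Ω → ℝ)) ∈ Span F B (T + 1) := by
    refine Submodule.subset_span ⟨s, T, fun ω => ψ ω • e, hs.1, hs.2, by linarith,
      hψ.smul_const e, ⟨C, fun ω => ?_⟩, rfl⟩
    rw [norm_smul, he, mul_one]; exact hC ω
  have h := stop_elem hB hT hρ hmem
  simp only at h
  have e1 : ∀ ω, inner ℝ (ψ ω • e) (B (min T (ρ ω)) ω - B (min s (ρ ω)) ω) =
      ψ ω * inner ℝ e (B (ρ ω) ω - B s ω) := by
    intro ω
    rw [min_eq_right (hρ.1 ω).2, min_eq_left (hsρ ω), real_inner_smul_left]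
  simp_rw [e1] at h
  refine ⟨h.1.integrable (by norm_num), h.2.1, ?_⟩
  rw [h.2.2]
  refine lintegral_congr fun ω => ?_
  have e2 : ∀ r, ‖(Ioc s T).indicator (fun _ => ψ ω • e) r‖ₑ ^ 2 =
      (Ioc s T).indicator (fun _ => ‖ψ ω‖ₑ ^ 2) r := by
    intro r
    by_cases hr : r ∈ Ioc s T
    · rw [indicator_of_mem hr, indicator_of_mem hr, enorm_smul, ← ofReal_norm e, he]
      simp
    · rw [indicator_of_notMem hr, indicator_of_notMem hr]; simp
  simp_rw [e2]
  rw [lintegral_indicator measurableSet_Ioc, Measure.restrict_restrict measurableSet_Ioc]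
  have e3 : Ioc s T ∩ Ioc 0 (ρ ω) = Ioc s (ρ ω) := by
    ext r
    simp only [mem_inter_iff, mem_Ioc]
    constructor
    · rintro ⟨⟨h1, _⟩, _, h4⟩; exact ⟨h1, h4⟩
    · rintro ⟨h1, h2⟩
      exact ⟨⟨h1, h2.trans (hρ.1 ω).2⟩, hs.1.trans_lt h1, h2⟩
  rw [e3, setLIntegral_const, Real.volume_Ioc]

lemma IsStop.mono {t : ℝ} {τ : Ω → ℝ} (hτ : IsStop F t τ) (htT : t ≤ T) : IsStop F T τ :=
  ⟨fun ω => ⟨(hτ.1 ω).1, (hτ.1 ω).2.trans htT⟩, hτ.2⟩

lemma IsStop.max_const {r : ℝ} {τ : Ω → ℝ} (hτ : IsStop F T τ) (hr : r ∈ Icc 0 T) :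
    IsStop F T (fun ω => max (τ ω) r) := by
  refine ⟨fun ω => ⟨le_max_of_le_right hr.1, max_le (hτ.1 ω).2 hr.2⟩, fun t => ?_⟩
  by_cases h : r ≤ t
  · have : {ω | max (τ ω) r ≤ t} = {ω | τ ω ≤ t} := by ext ω; simp [h]
    rw [this]; exact hτ.2 t
  · have : {ω | max (τ ω) r ≤ t} = ∅ := by ext ω; simp [h]
    rw [this]; exact @MeasurableSet.empty _ (F t)

/-- values of a continuous adapted process at a stopping time -/
lemma stopped_measurable (hnull : ∀ s, μ s = 0 → MeasurableSet[F 0] s) {X : ℝ → Ω → ℝ} {t : ℝ}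
    (ht0 : 0 ≤ t) (hX : ∀ r ∈ Icc 0 t, Measurable[F r] (X r))
    (hc : ∀ᵐ ω ∂μ, ContinuousOn (fun r => X r ω) (Icc 0 t)) {τ : Ω → ℝ} (hτ : IsStop F t τ) :
    ∃ f : Ω → ℝ, Measurable[F t] f ∧ ∀ᵐ ω ∂μ, f ω = X (τ ω) ω := by
  classical
  set A : Set Ω := {ω | ContinuousOn (fun r => X r ω) (Icc 0 t)} with hA
  have hAt : MeasurableSet[F t] A := by
    refine F.mono ht0 _ ?_
    rw [← compl_compl A]
    exact (hnull _ (ae_iff.1 hc)).compl
  have hτm : Measurable[F t] τ := by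
    refine measurable_of_Iic fun x => ?_
    by_cases hx : x ≤ t
    · exact F.mono hx _ (hτ.2 x)
    · have : τ ⁻¹' Iic x = univ := by
        ext ω; simp [(hτ.1 ω).2.trans (not_le.1 hx).le]
      rw [this]; exact @MeasurableSet.univ _ (F t)
  refine ⟨A.indicator (fun ω => X (τ ω) ω), ?_, ?_⟩
  · set f : ℕ → Ω → ℝ := fun n => A.indicator fun ω => X (min (gr (n + 1) τ ω) t) ω with hf
    have hfm : ∀ n, Measurable[F t] (f n) := by
      intro n
      refine Measurable.indicator ?_ hAt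
      have h1 : Measurable[F t] fun ω => ⌊((n + 1 : ℕ) : ℝ) * τ ω⌋₊ :=
        Nat.measurable_floor.comp (hτm.const_mul _)
      have h2 : @Measurable (ℕ × Ω) ℝ (@Prod.instMeasurableSpace _ _ _ (F t)) _
          (fun q => X (min (((q.1 + 1 : ℕ) : ℝ) / ((n + 1 : ℕ) : ℝ)) t) q.2) := by
        refine measurable_from_prod_countable_right fun k => ?_
        have hmem : min (((k + 1 : ℕ) : ℝ) / ((n + 1 : ℕ) : ℝ)) t ∈ Icc 0 t :=
          ⟨le_min (by positivity) ht0, min_le_right _ _⟩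
        exact (hX _ hmem).mono (F.mono hmem.2) le_rfl
      have h3 : @Measurable Ω (ℕ × Ω) (F t) (@Prod.instMeasurableSpace _ _ _ (F t))
          (fun ω => (⌊((n + 1 : ℕ) : ℝ) * τ ω⌋₊, ω)) :=
        h1.prodMk measurable_id
      exact h2.comp h3
    refine @measurable_of_tendsto_metrizable _ _ (F t) _ _ _ _ f _ hfm ?_
    rw [tendsto_pi_nhds]
    intro ω
    by_cases hω : ω ∈ A
    · simp only [hf, indicator_of_mem hω]
      have h1 : Tendsto (fun n : ℕ => gr (n + 1) τ ω) atTop (𝓝 (τ ω)) := by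
        have hK : ∀ n : ℕ, 0 < n + 1 := fun n => n.succ_pos
        refine tendsto_of_tendsto_of_tendsto_of_le_of_le tendsto_const_nhds
          (h := fun n : ℕ => τ ω + 1 / (n + 1 : ℝ)) ?_
          (fun n => (gr_gt (hK n) τ ω).le) (fun n => ?_)
        · have := tendsto_one_div_add_atTop_nhds_zero_nat (𝕜 := ℝ)
          simpa using tendsto_const_nhds.add this
        · have := gr_le (hK n) (σ := τ) (ω := ω) (hτ.1 ω).1
          push_cast at this; exact this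
      have h2 : Tendsto (fun n : ℕ => min (gr (n + 1) τ ω) t) atTop (𝓝 (τ ω)) := by
        have := h1.min (tendsto_const_nhds (x := t))
        rwa [min_eq_left (hτ.1 ω).2] at this
      have h3 : Tendsto (fun n : ℕ => min (gr (n + 1) τ ω) t) atTop (𝓝[Icc 0 t] (τ ω)) := by
        refine tendsto_nhdsWithin_iff.2 ⟨h2, Eventually.of_forall fun n => ?_⟩
        exact ⟨le_min ((hτ.1 ω).1.trans (gr_gt n.succ_pos τ ω).le) ht0, min_le_right _ _⟩
      exact ((hω : ContinuousOn _ _) (τ ω) (hτ.1 ω)).tendsto.comp h3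
    · simp only [hf, indicator_of_notMem hω]
      exact tendsto_const_nhds
  · filter_upwards [hc] with ω hω
    rw [indicator_of_mem (show ω ∈ A from hω)]

/-- The data of one block `[s, s + δ]`: `τ` is the exit time of the Brownian component from
`(-√δ, √δ)`, cut at `s + δ`, and `R = 1 + W_τ / √δ`. -/
structure Block (F : Filtration ℝ m) (μ : Measure Ω) (B : ℝ → Ω → E d) (e : E d) (T s δ : ℝ)
    (τ : Ω → ℝ) (R : Ω → ℝ) : Prop where
  stop : IsStop F T τ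
  ge : ∀ ω, s ≤ τ ω
  le : ∀ ω, τ ω ≤ s + δ
  measR : Measurable[F (s + δ)] R
  R0 : ∀ ω, 0 ≤ R ω
  R2 : ∀ ω, R ω ≤ 2
  val : ∀ᵐ ω ∂μ, R ω = 1 + inner ℝ e (B (τ ω) ω - B s ω) / √δ
  bdd : ∀ᵐ ω ∂μ, ∀ r ∈ Icc s (τ ω), |inner ℝ e (B r ω - B s ω)| ≤ √δ
  exit : ∀ᵐ ω ∂μ, τ ω < s + δ → √δ ≤ |inner ℝ e (B (τ ω) ω - B s ω)|

lemma FBM.meas_W (hB : FBM F B μ) (e : E d) {s r : ℝ} (hs : 0 ≤ s) (hsr : s ≤ r) :
    Measurable[F r] fun ω => inner ℝ e (B r ω - B s ω) := by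
  have h1 : Measurable[F r] (B r) := hB.adapted r (hs.trans hsr)
  have h2 : Measurable[F r] (B s) := (hB.adapted s hs).mono (F.mono hsr) le_rfl
  exact Measurable.inner measurable_const (h1.sub h2)

lemma FBM.cont_W (hB : FBM F B μ) (e : E d) (s : ℝ) :
    ∀ᵐ ω ∂μ, ContinuousOn (fun r => inner ℝ e (B r ω - B s ω)) (Ici 0) := by
  filter_upwards [hB.cont] with ω hω
  exact continuousOn_const.inner (hω.sub continuousOn_const)

theorem exists_block (hB : FBM F B μ) {e : E d} {s δ : ℝ} (hs : 0 ≤ s)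
    (hδ : 0 < δ) (hsT : s + δ ≤ T) : ∃ τ R, Block F μ B e T s δ τ R := by
  have hst : s ≤ s + δ := by linarith
  obtain ⟨τ, hτ, hsτ, hae⟩ := exists_hit (μ := μ) hB.null
    (X := fun r ω => |inner ℝ e (B r ω - B s ω)|) hs hst (√δ) (by
      intro r hr
      exact @Measurable.comp _ _ _ (F r) _ _ _ _ measurable_abs (hB.meas_W e hs hr.1)) (by
      filter_upwards [hB.cont_W e s] with ω hω
      exact (hω.mono fun x hx => hs.trans hx.1).abs)
  obtain ⟨f, hfm, hfae⟩ := stopped_measurable (μ := μ) hB.null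
    (X := fun r ω => inner ℝ e (B (max s r) ω - B s ω)) (hs.trans hst) (by
      intro r hr
      rcases le_total s r with h | h
      · simp only [max_eq_right h]; exact hB.meas_W e hs h
      · simp only [max_eq_left h, sub_self, inner_zero_right]
        exact measurable_const) (by
      filter_upwards [hB.cont_W e s] with ω hω
      exact hω.comp (by fun_prop) (fun r _ => hs.trans (le_max_left _ _))) hτ
  refine ⟨τ, fun ω => max 0 (min 2 (1 + f ω / √δ)), hτ.mono hsT, hsτ, fun ω => (hτ.1 ω).2, ?_,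
    fun ω => le_max_left _ _, fun ω => max_le (by norm_num) (min_le_left _ _), ?_, ?_, ?_⟩
  · exact measurable_const.max (measurable_const.min (measurable_const.add (hfm.div_const _)))
  · filter_upwards [hfae, hae] with ω h1 h2
    rw [max_eq_right (hsτ ω)] at h1
    have h3 := h2.2.2 (by simp) (τ ω) ⟨hsτ ω, le_rfl⟩
    have hpos : 0 < √δ := Real.sqrt_pos.2 hδ
    rw [h1]
    rw [abs_le] at h3
    have h4 : -1 ≤ inner ℝ e (B (τ ω) ω - B s ω) / √δ := by
      rw [le_div_iff₀ hpos]; linarith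
    have h5 : inner ℝ e (B (τ ω) ω - B s ω) / √δ ≤ 1 := by
      rw [div_le_iff₀ hpos]; linarith
    rw [min_eq_right (by linarith), max_eq_right (by linarith)]
  · filter_upwards [hae] with ω h2
    exact h2.2.2 (by simp)
  · filter_upwards [hae] with ω h2
    exact h2.2.1

end

end BSDE
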