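import Pool.Agent.H32.BSDE.Elem

open MeasureTheory ProbabilityTheory Filter Set
open scoped ENNReal NNReal Topology

namespace BSDE

variable {Ω : Type*} {m : MeasurableSpace Ω} {d : ℕ}

lemma std_memLp : MemLp (id : E d → E d) 2 (stdGaussian (E d)) := IsGaussian.memLp_two_id

lemma std_mean (j : Fin d) : ∫ x, x j ∂(stdGaussian (E d)) = 0 := by
  have := integral_strongDual_stdGaussian (E := E d) (EuclideanSpace.proj j : E d →L[ℝ] ℝ)
  simpa using this

lemma std_cov (j k : Fin d) :
    ∫ x, x j * x k ∂(stdGaussian (E d)) = if j = k then 1 else 0 := by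
  have h1 := covarianceBilin_apply (μ := stdGaussian (E d)) std_memLp
    (EuclideanSpace.single j (1 : ℝ)) (EuclideanSpace.single k (1 : ℝ))
  rw [covarianceBilin_stdGaussian] at h1
  have h2 : (stdGaussian (E d))[id] = 0 := integral_id_stdGaussian
  rw [h2] at h1
  simp only [sub_zero, EuclideanSpace.inner_single_left, map_one, one_mul] at h1
  rw [← h1]
  rw [innerSL_apply_apply]
  simp [EuclideanSpace.inner_single_left]

theorem IsBrownian.fbm {B : ℝ → Ω → E d} {μ : Measure Ω} [IsProbabilityMeasure μ] [μ.IsComplete]
    (hB : IsBrownian B μ) : FBM (augmented B μ hB.measurable) B μ := by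
  have hΔm : ∀ s t, Measurable fun ω => B t ω - B s ω := fun s t =>
    (hB.measurable t).sub (hB.measurable s)
  have hsm : ∀ c : ℝ, Measurable fun x : E d => c • x := fun c => measurable_const_smul c
  refine ⟨?_, hB.continuous, ?_, ?_, ?_, ?_, ?_⟩
  · intro t ht
    refine Measurable.of_comap_le ?_
    refine le_trans ?_ (le_sup_left : _ ≤ (augmented B μ hB.measurable).seq t)
    exact le_iSup₂_of_le (f := fun r (_ : r ∈ Icc (0 : ℝ) t) =>
      MeasurableSpace.comap (B r) inferInstance) t ⟨ht, le_rfl⟩ le_rfl
  · intro s t hs hst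
    have hle : (augmented B μ hB.measurable).seq s ≤ @eventuallyMeasurableSpace Ω
        (⨆ r ∈ Icc (0 : ℝ) s, MeasurableSpace.comap (B r) inferInstance) (ae μ) _ := by
      refine sup_le ?_ ?_
      · intro A hA
        exact ⟨A, hA, EventuallyEq.refl _ _⟩
      · refine MeasurableSpace.generateFrom_le ?_
        intro A hA
        refine ⟨∅, @MeasurableSet.empty _ (_), ?_⟩
        exact ae_eq_empty.2 hA
    rw [Indep_iff]
    intro A C hA hC
    obtain ⟨A', hA', hAA⟩ := hle A hA
    have h1 := (Indep_iff _ _ _).1 (hB.indep s t hs hst) A' C hA' hC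
    rw [measure_congr hAA, ← h1]
    exact measure_congr (hAA.inter (EventuallyEq.refl _ _))
  · intro s t hs hst
    have h1 : MemLp id 2 (μ.map fun ω => B t ω - B s ω) := by
      rw [hB.law s t hs hst, memLp_map_measure_iff aestronglyMeasurable_id
        (hsm _).aemeasurable]
      exact (std_memLp (d := d)).const_smul (√(t - s))
    exact (memLp_map_measure_iff aestronglyMeasurable_id (hΔm s t).aemeasurable).1 h1
  · intro s t hs hst j
    have h1 : ∫ ω, (B t ω - B s ω) j ∂μ = ∫ x, x j ∂(μ.map fun ω => B t ω - B s ω) := by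
      rw [integral_map (hΔm s t).aemeasurable (coord_measurable j).aestronglyMeasurable]
    rw [h1, hB.law s t hs hst, integral_map (hsm _).aemeasurable
      (coord_measurable j).aestronglyMeasurable]
    simp only [PiLp.smul_apply, smul_eq_mul]
    rw [integral_const_mul, std_mean, mul_zero]
  · intro s t hs hst j k
    have hm : Measurable fun x : E d => x j * x k := (coord_measurable j).mul (coord_measurable k)
    have h1 : ∫ ω, (B t ω - B s ω) j * (B t ω - B s ω) k ∂μ =
        ∫ x, x j * x k ∂(μ.map fun ω => B t ω - B s ω) := by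
      rw [integral_map (hΔm s t).aemeasurable hm.aestronglyMeasurable]
    rw [h1, hB.law s t hs hst, integral_map (hsm _).aemeasurable hm.aestronglyMeasurable]
    have h2 : ∀ x : E d, (√(t - s) • x) j * (√(t - s) • x) k = (t - s) * (x j * x k) := by
      intro x
      simp only [PiLp.smul_apply, smul_eq_mul]
      calc √(t - s) * x j * (√(t - s) * x k) = (√(t - s) * √(t - s)) * (x j * x k) := by ring
        _ = _ := by rw [Real.mul_self_sqrt (by linarith)]
    simp_rw [h2]
    rw [integral_const_mul, std_cov]
    split_ifs <;> ring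
  · intro A hA
    exact (le_sup_right : _ ≤ (augmented B μ hB.measurable).seq 0) _
      (MeasurableSpace.measurableSet_generateFrom hA)

end BSDE
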