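import Mathlib

/-!
# Definitions for the backward SDE with generator `|z| / √(ln (e + |z|))`

All processes are indexed by real times; only the times in `[0, T]` (for the Brownian motion:
the times `≥ 0`) matter.
-/

open MeasureTheory ProbabilityTheory Filter Set
open scoped ENNReal NNReal Topology

namespace BSDE

variable {Ω : Type*} {m : MeasurableSpace Ω} {d : ℕ}

/-- The space `ℝ^d` with the Euclidean norm. -/
abbrev E (d : ℕ) : Type := EuclideanSpace ℝ (Fin d)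

/-- `B` is a `d`-dimensional standard Brownian motion under `μ` (time set `[0, ∞)`): it starts at
`0`, has continuous paths almost surely, and for `0 ≤ s ≤ t` the increment `B_t - B_s` is
independent of `σ(B_r : 0 ≤ r ≤ s)` and has the law of `√(t - s) • G`, `G` standard Gaussian. -/
structure IsBrownian (B : ℝ → Ω → E d) (μ : Measure Ω) : Prop where
  measurable : ∀ t, Measurable (B t)
  zero : ∀ᵐ ω ∂μ, B 0 ω = 0
  continuous : ∀ᵐ ω ∂μ, ContinuousOn (fun t => B t ω) (Ici 0)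
  indep : ∀ s t : ℝ, 0 ≤ s → s ≤ t →
    Indep (⨆ r ∈ Icc (0 : ℝ) s, MeasurableSpace.comap (B r) inferInstance)
      (MeasurableSpace.comap (fun ω => B t ω - B s ω) inferInstance) μ
  law : ∀ s t : ℝ, 0 ≤ s → s ≤ t →
    μ.map (fun ω => B t ω - B s ω) = (stdGaussian (E d)).map (fun x => √(t - s) • x)

/-- The augmented natural filtration of `B`: `F_t` is generated by `B_r`, `0 ≤ r ≤ t`, and by all
`μ`-null sets. -/
def augmented (B : ℝ → Ω → E d) (μ : Measure Ω) [μ.IsComplete] (hB : ∀ t, Measurable (B t)) :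
    Filtration ℝ m where
  seq t := (⨆ r ∈ Icc (0 : ℝ) t, MeasurableSpace.comap (B r) inferInstance) ⊔
    MeasurableSpace.generateFrom {s : Set Ω | μ s = 0}
  mono' s t hst := sup_le_sup_right
    (biSup_mono fun _ hr => ⟨hr.1, hr.2.trans hst⟩) _
  le' t := sup_le (iSup₂_le fun r _ => (hB r).comap_le)
    (MeasurableSpace.generateFrom_le fun _ hs => Measure.IsComplete.out' _ hs)

/-- An elementary integrand on `[0, T]`:
`H_t = ∑_{i < n} h_i 1_{(a_i, b_i]}(t)` with `0 ≤ a_i ≤ b_i ≤ T` and `h_i` bounded and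
`F_{a_i}`-measurable. -/
structure Elementary (F : Filtration ℝ m) (T : ℝ) (d : ℕ) where
  /-- number of terms -/
  n : ℕ
  /-- left end points -/
  a : ℕ → ℝ
  /-- right end points -/
  b : ℕ → ℝ
  /-- coefficients -/
  h : ℕ → Ω → E d
  nonneg : ∀ i, 0 ≤ a i
  le : ∀ i, a i ≤ b i
  le_T : ∀ i, b i ≤ T
  meas : ∀ i, Measurable[F (a i)] (h i)
  bdd : ∃ C : ℝ, ∀ i ω, ‖h i ω‖ ≤ C

/-- The value `H_t(ω)` of an elementary integrand. -/
noncomputable def Elementary.val {F : Filtration ℝ m} {T : ℝ} (H : Elementary F T d)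
    (t : ℝ) (ω : Ω) : E d :=
  ∑ i ∈ Finset.range H.n, (Ioc (H.a i) (H.b i)).indicator (fun _ => H.h i ω) t

/-- The stochastic integral `∫_0^t H · dB = ∑_{i < n} h_i · (B_{b_i ∧ t} - B_{a_i ∧ t})` of an
elementary integrand. -/
noncomputable def Elementary.integral {F : Filtration ℝ m} {T : ℝ} (H : Elementary F T d)
    (B : ℝ → Ω → E d) (t : ℝ) (ω : Ω) : ℝ :=
  ∑ i ∈ Finset.range H.n, inner ℝ (H.h i ω) (B (min (H.b i) t) ω - B (min (H.a i) t) ω)

/-- Convergence to `0` in probability of a sequence of `[0, ∞]`-valued functions. -/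
def TendstoZero (μ : Measure Ω) (f : ℕ → Ω → ℝ≥0∞) : Prop :=
  ∀ ε : ℝ≥0∞, 0 < ε → Tendsto (fun n => μ {ω | ε ≤ f n ω}) atTop (𝓝 0)

/-- `I` is (a continuous adapted version of) the Itô integral process `I_t = ∫_0^t Z · dB`,
`0 ≤ t ≤ T`: there are elementary integrands `H^n` with `∫_0^T |H^n - Z|² dt → 0` and
`sup_{t ≤ T} |∫_0^t H^n · dB - I_t| → 0`, both in probability. -/
structure IsIto (F : Filtration ℝ m) (μ : Measure Ω) (B : ℝ → Ω → E d) (T : ℝ)
    (Z : ℝ → Ω → E d) (I : ℝ → Ω → ℝ) : Prop where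
  adapted : ∀ t ∈ Icc 0 T, Measurable[F t] (I t)
  continuous : ∀ᵐ ω ∂μ, ContinuousOn (fun t => I t ω) (Icc 0 T)
  approx : ∃ H : ℕ → Elementary F T d,
    TendstoZero μ (fun n ω => ∫⁻ r in Icc 0 T, ‖(H n).val r ω - Z r ω‖ₑ ^ 2) ∧
    TendstoZero μ (fun n ω => ⨆ t ∈ Icc 0 T, ‖(H n).integral B t ω - I t ω‖ₑ)

/-- `X` is progressively measurable on `[0, T]`: for every `t ∈ [0, T]` the map
`(r, ω) ↦ X_r(ω)` on `[0, t] × Ω` is measurable for the product of the Borel σ-algebra of `[0, t]`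
and `F_t`. -/
def Progressive {V : Type*} [MeasurableSpace V] (F : Filtration ℝ m) (T : ℝ) (X : ℝ → Ω → V) :
    Prop :=
  ∀ t ∈ Icc 0 T, @Measurable (Icc (0 : ℝ) t × Ω) V (@Prod.instMeasurableSpace _ _ _ (F t)) _
    (fun p => X p.1 p.2)

/-- The stopping times with values in `[0, T]`. -/
def IsStop (F : Filtration ℝ m) (T : ℝ) (σ : Ω → ℝ) : Prop :=
  (∀ ω, σ ω ∈ Icc 0 T) ∧ ∀ t, MeasurableSet[F t] {ω | σ ω ≤ t}

/-- `Y` is of class (D): the family `Y_σ`, `σ` a stopping time with values in `[0, T]`, is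
uniformly integrable. -/
def ClassD (F : Filtration ℝ m) (μ : Measure Ω) (T : ℝ) (Y : ℝ → Ω → ℝ) : Prop :=
  UniformIntegrable (fun (σ : {σ : Ω → ℝ // IsStop F T σ}) (ω : Ω) => Y (σ.1 ω) ω) 1 μ

/-- The generator `f(z) = |z| / √(ln (e + |z|))`. -/
noncomputable def gen (z : E d) : ℝ := ‖z‖ / √(Real.log (Real.exp 1 + ‖z‖))

/-- `(Y, Z)` is a solution of the backward SDE
`Y_t = ξ + ∫_t^T f(Z_s) ds - ∫_t^T Z_s · dB_s`, `0 ≤ t ≤ T`. -/
structure IsSolution (F : Filtration ℝ m) (μ : Measure Ω) (B : ℝ → Ω → E d) (T : ℝ) (ξ : Ω → ℝ)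
    (Y : ℝ → Ω → ℝ) (Z : ℝ → Ω → E d) : Prop where
  progY : Progressive F T Y
  progZ : Progressive F T Z
  continuousY : ∀ᵐ ω ∂μ, ContinuousOn (fun t => Y t ω) (Icc 0 T)
  sqint : ∀ᵐ ω ∂μ, ∫⁻ r in Icc 0 T, ‖Z r ω‖ₑ ^ 2 < ⊤
  eqn : ∃ I : ℝ → Ω → ℝ, IsIto F μ B T Z I ∧
    ∀ᵐ ω ∂μ, ∀ t ∈ Icc 0 T, Y t ω = ξ ω + (∫ r in t..T, gen (Z r ω)) - (I T ω - I t ω)

end BSDE
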