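import Pool.Agent.H32.BSDE.Defs

open MeasureTheory ProbabilityTheory Filter Set
open scoped ENNReal NNReal Topology

namespace BSDE

variable {Ω : Type*} {m : MeasurableSpace Ω} {d : ℕ}

/-- second order structure of a Brownian motion with respect to a (complete) filtration -/
structure FBM (F : Filtration ℝ m) (B : ℝ → Ω → E d) (μ : Measure Ω) : Prop where
  adapted : ∀ t, 0 ≤ t → Measurable[F t] (B t)
  cont : ∀ᵐ ω ∂μ, ContinuousOn (fun t => B t ω) (Ici 0)
  indep : ∀ s t, 0 ≤ s → s ≤ t →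
    Indep (F s) (MeasurableSpace.comap (fun ω => B t ω - B s ω) inferInstance) μ
  memLp : ∀ s t, 0 ≤ s → s ≤ t → MemLp (fun ω => B t ω - B s ω) 2 μ
  mean : ∀ s t, 0 ≤ s → s ≤ t → ∀ j, ∫ ω, (B t ω - B s ω) j ∂μ = 0
  cov : ∀ s t, 0 ≤ s → s ≤ t → ∀ j k,
    ∫ ω, (B t ω - B s ω) j * (B t ω - B s ω) k ∂μ = if j = k then t - s else 0
  null : ∀ s, μ s = 0 → MeasurableSet[F 0] s

section
variable {F : Filtration ℝ m} {B : ℝ → Ω → E d} {μ : Measure Ω} [IsProbabilityMeasure μ]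

lemma FBM.indepFun (hB : FBM F B μ) {s t : ℝ} (hs : 0 ≤ s) (hst : s ≤ t)
    {V W : Type*} [mV : MeasurableSpace V] [mW : MeasurableSpace W] {g : Ω → V} {φ : E d → W}
    (hg : Measurable[F s] g) (hφ : Measurable φ) :
    IndepFun g (fun ω => φ (B t ω - B s ω)) μ := by
  rw [IndepFun_iff_Indep]
  refine indep_of_indep_of_le_left (indep_of_indep_of_le_right (hB.indep s t hs hst) ?_) ?_
  · rintro _ ⟨A, hA, rfl⟩
    exact ⟨φ ⁻¹' A, hφ hA, rfl⟩
  · exact hg.comap_le

lemma FBM.memLp_coord (hB : FBM F B μ) {s t : ℝ} (hs : 0 ≤ s) (hst : s ≤ t) (j : Fin d) :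
    MemLp (fun ω => (B t ω - B s ω) j) 2 μ := by
  have h := hB.memLp s t hs hst
  refine h.mono ?_ ?_
  · have : Measurable fun x : E d => x j := by fun_prop
    exact (this.comp_aemeasurable h.1.aemeasurable).aestronglyMeasurable
  · filter_upwards with ω
    exact PiLp.norm_apply_le _ _

lemma coord_measurable (j : Fin d) : Measurable fun x : E d => x j := by fun_prop

lemma FBM.integrable_mul (hB : FBM F B μ) {s t : ℝ} (hs : 0 ≤ s) (hst : s ≤ t) {u : Ω → ℝ}
    (hu : Measurable[F s] u) (hui : Integrable u μ) {φ : E d → ℝ} (hφ : Measurable φ)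
    (hφi : Integrable (fun ω => φ (B t ω - B s ω)) μ) :
    Integrable (fun ω => u ω * φ (B t ω - B s ω)) μ :=
  (hB.indepFun hs hst hu hφ).integrable_mul hui hφi

lemma FBM.integral_mul (hB : FBM F B μ) {s t : ℝ} (hs : 0 ≤ s) (hst : s ≤ t) {u : Ω → ℝ}
    (hu : Measurable[F s] u) {φ : E d → ℝ} (hφ : Measurable φ)
    (hφi : Integrable (fun ω => φ (B t ω - B s ω)) μ) :
    ∫ ω, u ω * φ (B t ω - B s ω) ∂μ = (∫ ω, u ω ∂μ) * ∫ ω, φ (B t ω - B s ω) ∂μ :=
  (hB.indepFun hs hst hu hφ).integral_fun_mul_eq_mul_integral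
    (hu.mono (F.le s) le_rfl).aestronglyMeasurable hφi.1

/-- first moment: `E ⟨g, B_t - B_s⟩ = 0` for integrable `F_s`-measurable `g`. -/
lemma FBM.integral_inner (hB : FBM F B μ) {s t : ℝ} (hs : 0 ≤ s) (hst : s ≤ t) {g : Ω → E d}
    (hg : Measurable[F s] g) (hgi : Integrable g μ) :
    Integrable (fun ω => inner ℝ (g ω) (B t ω - B s ω)) μ ∧
    ∫ ω, inner ℝ (g ω) (B t ω - B s ω) ∂μ = 0 := by
  have hgj : ∀ j, Measurable[F s] fun ω => g ω j := fun j => (coord_measurable j).comp hg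
  have hgij : ∀ j, Integrable (fun ω => g ω j) μ := fun j => by
    refine hgi.mono ((hgj j).mono (F.le s) le_rfl).aestronglyMeasurable ?_
    filter_upwards with ω using PiLp.norm_apply_le _ _
  have hBi : ∀ j, Integrable (fun ω => (B t ω - B s ω) j) μ := fun j =>
    (hB.memLp_coord hs hst j).integrable (by norm_num)
  have hprod : ∀ j, Integrable (fun ω => g ω j * (B t ω - B s ω) j) μ := fun j =>
    hB.integrable_mul hs hst (hgj j) (hgij j) (coord_measurable j) (hBi j)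
  have heq : (fun ω => inner ℝ (g ω) (B t ω - B s ω)) =
      fun ω => ∑ j, g ω j * (B t ω - B s ω) j := by
    ext ω
    simp [PiLp.inner_apply, mul_comm]
  rw [heq]
  refine ⟨integrable_finsetSum _ fun j _ => hprod j, ?_⟩
  rw [integral_finsetSum _ fun j _ => hprod j]
  refine Finset.sum_eq_zero fun j _ => ?_
  rw [hB.integral_mul hs hst (hgj j) (coord_measurable j) (hBi j), hB.mean s t hs hst j, mul_zero]

/-- second moment: `E ⟨g, B_t - B_s⟩ ⟨g', B_t - B_s⟩ = (t - s) E ⟨g, g'⟩`. -/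
lemma FBM.integral_inner_mul_inner (hB : FBM F B μ) {s t : ℝ} (hs : 0 ≤ s) (hst : s ≤ t)
    {g g' : Ω → E d} (hg : Measurable[F s] g) (hg' : Measurable[F s] g')
    (hgL : MemLp g 2 μ) (hgL' : MemLp g' 2 μ) :
    Integrable (fun ω => inner ℝ (g ω) (B t ω - B s ω) * inner ℝ (g' ω) (B t ω - B s ω)) μ ∧
    ∫ ω, inner ℝ (g ω) (B t ω - B s ω) * inner ℝ (g' ω) (B t ω - B s ω) ∂μ =
      (t - s) * ∫ ω, inner ℝ (g ω) (g' ω) ∂μ := by
  have hgj : ∀ j, Measurable[F s] fun ω => g ω j := fun j => (coord_measurable j).comp hg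
  have hgj' : ∀ j, Measurable[F s] fun ω => g' ω j := fun j => (coord_measurable j).comp hg'
  have hL : ∀ {f : Ω → E d}, MemLp f 2 μ → (∀ j, Measurable[F s] fun ω => f ω j) →
      ∀ j, MemLp (fun ω => f ω j) 2 μ := by
    intro f hf hm j
    refine hf.mono ((hm j).mono (F.le s) le_rfl).aestronglyMeasurable ?_
    filter_upwards with ω using PiLp.norm_apply_le _ _
  have hgg : ∀ j k, Integrable (fun ω => g ω j * g' ω k) μ := fun j k =>
    (hL hgL hgj j).integrable_mul (hL hgL' hgj' k)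
  have hggm : ∀ j k, Measurable[F s] fun ω => g ω j * g' ω k := fun j k =>
    (hgj j).mul (hgj' k)
  have hBB : ∀ j k, Integrable (fun ω => (B t ω - B s ω) j * (B t ω - B s ω) k) μ := fun j k =>
    (hB.memLp_coord hs hst j).integrable_mul (hB.memLp_coord hs hst k)
  have hφm : ∀ j k, Measurable fun x : E d => x j * x k := fun j k =>
    (coord_measurable j).mul (coord_measurable k)
  have hprod : ∀ j k, Integrable (fun ω => (g ω j * g' ω k) *
      ((B t ω - B s ω) j * (B t ω - B s ω) k)) μ := fun j k =>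
    hB.integrable_mul hs hst (hggm j k) (hgg j k) (hφm j k) (hBB j k)
  have heq : (fun ω => inner ℝ (g ω) (B t ω - B s ω) * inner ℝ (g' ω) (B t ω - B s ω)) =
      fun ω => ∑ j, ∑ k, (g ω j * g' ω k) * ((B t ω - B s ω) j * (B t ω - B s ω) k) := by
    ext ω
    simp only [PiLp.inner_apply, RCLike.inner_apply, conj_trivial]
    rw [Finset.sum_mul_sum]
    refine Finset.sum_congr rfl fun j _ => Finset.sum_congr rfl fun k _ => ?_
    ring
  have heq2 : (fun ω => inner ℝ (g ω) (g' ω)) = fun ω => ∑ j, g ω j * g' ω j := by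
    ext ω
    simp [PiLp.inner_apply, mul_comm]
  rw [heq, heq2]
  refine ⟨integrable_finsetSum _ fun j _ => integrable_finsetSum _ fun k _ => hprod j k, ?_⟩
  rw [integral_finsetSum _ fun j _ => integrable_finsetSum _ fun k _ => hprod j k,
    integral_finsetSum _ fun j _ => hgg j j, Finset.mul_sum]
  refine Finset.sum_congr rfl fun j _ => ?_
  rw [integral_finsetSum _ fun k _ => hprod j k]
  rw [Finset.sum_eq_single j]
  · rw [hB.integral_mul hs hst (hggm j j) (hφm j j) (hBB j j), hB.cov s t hs hst, if_pos rfl]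
    ring
  · intro k _ hk
    rw [hB.integral_mul hs hst (hggm j k) (hφm j k) (hBB j k), hB.cov s t hs hst,
      if_neg (Ne.symm hk)]
    ring
  · simp

lemma FBM.inner_measurable (hB : FBM F B μ) {p q r : ℝ} (hp : 0 ≤ p) (hpq : p ≤ q) (hqr : q ≤ r)
    {g : Ω → E d} (hg : Measurable[F p] g) :
    Measurable[F r] fun ω => inner ℝ (g ω) (B q ω - B p ω) := by
  have h1 : Measurable[F r] g := hg.mono (F.mono (hpq.trans hqr)) le_rfl
  have h2 : Measurable[F r] (B q) :=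
    (hB.adapted q (hp.trans hpq)).mono (F.mono hqr) le_rfl
  have h3 : Measurable[F r] (B p) :=
    (hB.adapted p hp).mono (F.mono (hpq.trans hqr)) le_rfl
  exact Measurable.inner h1 (h2.sub h3)

lemma FBM.inner_memLp (hB : FBM F B μ) {p q : ℝ} (hp : 0 ≤ p) (hpq : p ≤ q)
    {g : Ω → E d} (hg : Measurable[F p] g) (hgb : ∃ C : ℝ, ∀ ω, ‖g ω‖ ≤ C) :
    MemLp (fun ω => inner ℝ (g ω) (B q ω - B p ω)) 2 μ := by
  obtain ⟨C, hC⟩ := hgb
  refine MemLp.of_le_mul (c := C) (hB.memLp p q hp hpq)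
    ((hB.inner_measurable hp hpq le_rfl hg).mono (F.le q) le_rfl).aestronglyMeasurable ?_
  filter_upwards with ω
  refine (norm_inner_le_norm _ _).trans ?_
  exact mul_le_mul_of_nonneg_right (hC ω) (norm_nonneg _)

lemma bdd_memLp {G : MeasurableSpace Ω} (hG : G ≤ m) {g : Ω → E d} (hg : Measurable[G] g)
    (hgb : ∃ C : ℝ, ∀ ω, ‖g ω‖ ≤ C) : MemLp g 2 μ := by
  obtain ⟨C, hC⟩ := hgb
  exact MemLp.of_bound (hg.mono hG le_rfl).aestronglyMeasurable C (by filter_upwards with ω using hC ω)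

/-- orthogonality of increments over disjoint intervals -/
lemma FBM.typeA (hB : FBM F B μ) {p q r s : ℝ} (hp : 0 ≤ p) (hpq : p ≤ q) (hqr : q ≤ r)
    (hrs : r ≤ s) {g g' : Ω → E d} (hg : Measurable[F p] g) (hg' : Measurable[F r] g')
    (hgb : ∃ C : ℝ, ∀ ω, ‖g ω‖ ≤ C) (hgb' : ∃ C : ℝ, ∀ ω, ‖g' ω‖ ≤ C) :
    Integrable (fun ω => inner ℝ (g ω) (B q ω - B p ω) * inner ℝ (g' ω) (B s ω - B r ω)) μ ∧
    ∫ ω, inner ℝ (g ω) (B q ω - B p ω) * inner ℝ (g' ω) (B s ω - B r ω) ∂μ = 0 := by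
  have hr : 0 ≤ r := hp.trans (hpq.trans hqr)
  have hu : Measurable[F r] fun ω => inner ℝ (g ω) (B q ω - B p ω) :=
    hB.inner_measurable hp hpq hqr hg
  have hv : Measurable[F r] fun ω => inner ℝ (g ω) (B q ω - B p ω) • g' ω := hu.smul hg'
  have hvi : Integrable (fun ω => inner ℝ (g ω) (B q ω - B p ω) • g' ω) μ :=
    memLp_one_iff_integrable.1 (MemLp.smul (bdd_memLp (μ := μ) (F.le r) hg' hgb')
      (hB.inner_memLp hp hpq hg hgb) (r := 1) (p := 2) (q := 2))
  have := hB.integral_inner hr hrs hv hvi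
  simpa only [real_inner_smul_left] using this

omit [IsProbabilityMeasure μ] in
lemma integral_add4 {f1 f2 f3 f4 : Ω → ℝ} (h1 : Integrable f1 μ) (h2 : Integrable f2 μ)
    (h3 : Integrable f3 μ) (h4 : Integrable f4 μ) :
    Integrable (fun ω => f1 ω + (f2 ω + (f3 ω + f4 ω))) μ ∧
    ∫ ω, (f1 ω + (f2 ω + (f3 ω + f4 ω))) ∂μ =
      ∫ ω, f1 ω ∂μ + (∫ ω, f2 ω ∂μ + (∫ ω, f3 ω ∂μ + ∫ ω, f4 ω ∂μ)) := by
  have h34 : Integrable (fun ω => f3 ω + f4 ω) μ := h3.add h4
  have h234 : Integrable (fun ω => f2 ω + (f3 ω + f4 ω)) μ := h2.add h34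
  refine ⟨h1.add h234, ?_⟩
  rw [integral_add h1 h234, integral_add h2 h34, integral_add h3 h4]

lemma FBM.pair_aux (hB : FBM F B μ) {a b a' b' : ℝ} (ha : 0 ≤ a) (hab : a ≤ b) (hab' : a' ≤ b')
    (haa' : a ≤ a') {h h' : Ω → E d} (hh : Measurable[F a] h) (hh' : Measurable[F a'] h')
    (hhb : ∃ C : ℝ, ∀ ω, ‖h ω‖ ≤ C) (hhb' : ∃ C : ℝ, ∀ ω, ‖h' ω‖ ≤ C) :
    Integrable (fun ω => inner ℝ (h ω) (B b ω - B a ω) * inner ℝ (h' ω) (B b' ω - B a' ω)) μ ∧
    ∫ ω, inner ℝ (h ω) (B b ω - B a ω) * inner ℝ (h' ω) (B b' ω - B a' ω) ∂μ =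
      max 0 (min b b' - max a a') * ∫ ω, inner ℝ (h ω) (h' ω) ∂μ := by
  have ha' : 0 ≤ a' := ha.trans haa'
  rcases le_or_gt b a' with hba | hba
  · have h1 := hB.typeA ha hab hba hab' hh hh' hhb hhb'
    refine ⟨h1.1, h1.2.trans ?_⟩
    have : max 0 (min b b' - max a a') = 0 := by
      apply max_eq_left
      have := min_le_left b b'
      have := le_max_right a a'
      linarith
    rw [this, zero_mul]
  · set c := min b b' with hc
    have hac : a' ≤ c := le_min hba.le hab'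
    have hcb : c ≤ b := min_le_left _ _
    have hcb' : c ≤ b' := min_le_right _ _
    have hc0 : 0 ≤ c := ha'.trans hac
    have hha' : Measurable[F a'] h := hh.mono (F.mono haa') le_rfl
    have hhc : Measurable[F c] h := hh.mono (F.mono (haa'.trans hac)) le_rfl
    have hhc' : Measurable[F c] h' := hh'.mono (F.mono hac) le_rfl
    have t1 := hB.typeA ha haa' le_rfl hab' hh hh' hhb hhb'
    have t2 := hB.integral_inner_mul_inner ha' hac hha' hh' (bdd_memLp (F.le _) hha' hhb)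
      (bdd_memLp (F.le _) hh' hhb')
    have t3 := hB.typeA ha' hac le_rfl hcb' hha' hhc' hhb hhb'
    have t4 := hB.typeA ha' hac le_rfl hcb hh' hhc hhb' hhb
    have key : (fun ω => inner ℝ (h ω) (B b ω - B a ω) * inner ℝ (h' ω) (B b' ω - B a' ω)) =
        fun ω => inner ℝ (h ω) (B a' ω - B a ω) * inner ℝ (h' ω) (B b' ω - B a' ω) +
          (inner ℝ (h ω) (B c ω - B a' ω) * inner ℝ (h' ω) (B c ω - B a' ω) +
          (inner ℝ (h ω) (B c ω - B a' ω) * inner ℝ (h' ω) (B b' ω - B c ω) +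
          inner ℝ (h' ω) (B c ω - B a' ω) * inner ℝ (h ω) (B b ω - B c ω))) := by
      ext ω
      have e0 : inner ℝ (h ω) (B b ω - B c ω) * inner ℝ (h' ω) (B b' ω - B c ω) = 0 := by
        rcases min_choice b b' with hcc | hcc
        · rw [hc, hcc]; simp
        · rw [hc, hcc]; simp
      have e1 : inner ℝ (h ω) (B b ω - B a ω) = inner ℝ (h ω) (B a' ω - B a ω) +
          inner ℝ (h ω) (B c ω - B a' ω) + inner ℝ (h ω) (B b ω - B c ω) := by
        rw [← inner_add_right, ← inner_add_right]; congr 1; abel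
      have e2 : inner ℝ (h' ω) (B b' ω - B a' ω) =
          inner ℝ (h' ω) (B c ω - B a' ω) + inner ℝ (h' ω) (B b' ω - B c ω) := by
        rw [← inner_add_right]; congr 1; abel
      have e3 : inner ℝ (h ω) (B b ω - B a ω) * inner ℝ (h' ω) (B b' ω - B a' ω) =
          inner ℝ (h ω) (B a' ω - B a ω) * inner ℝ (h' ω) (B b' ω - B a' ω) +
          (inner ℝ (h ω) (B c ω - B a' ω) + inner ℝ (h ω) (B b ω - B c ω)) *
          (inner ℝ (h' ω) (B c ω - B a' ω) + inner ℝ (h' ω) (B b' ω - B c ω)) := by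
        rw [e1]
        conv_lhs => rw [add_assoc, add_mul]
        rw [← e2]
      rw [e3]
      linear_combination e0
    rw [key]
    have h4 := integral_add4 t1.1 t2.1 t3.1 t4.1
    refine ⟨h4.1, ?_⟩
    rw [h4.2, t1.2, t2.2, t3.2, t4.2]
    have : max 0 (c - max a a') = c - a' := by
      rw [max_eq_right haa', max_eq_right (by linarith)]
    rw [this]; ring

/-- the pair formula (Itô isometry for two terms) -/
lemma FBM.pair (hB : FBM F B μ) {a b a' b' : ℝ} (ha : 0 ≤ a) (ha' : 0 ≤ a') (hab : a ≤ b)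
    (hab' : a' ≤ b')
    {h h' : Ω → E d} (hh : Measurable[F a] h) (hh' : Measurable[F a'] h')
    (hhb : ∃ C : ℝ, ∀ ω, ‖h ω‖ ≤ C) (hhb' : ∃ C : ℝ, ∀ ω, ‖h' ω‖ ≤ C) :
    Integrable (fun ω => inner ℝ (h ω) (B b ω - B a ω) * inner ℝ (h' ω) (B b' ω - B a' ω)) μ ∧
    ∫ ω, inner ℝ (h ω) (B b ω - B a ω) * inner ℝ (h' ω) (B b' ω - B a' ω) ∂μ =
      max 0 (min b b' - max a a') * ∫ ω, inner ℝ (h ω) (h' ω) ∂μ := by
  rcases le_total a a' with haa | haa
  · exact hB.pair_aux ha hab hab' haa hh hh' hhb hhb'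
  · have := hB.pair_aux ha' hab' hab haa hh' hh hhb' hhb
    rw [min_comm b' b, max_comm a' a] at this
    simp_rw [real_inner_comm (h _) (h' _)] at this
    simp_rw [mul_comm (inner ℝ (h' _) _) (inner ℝ (h _) _)] at this
    exact this

end

end BSDE
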