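import Pool.Agent.H32.BSDE.Iterate
import Pool.Agent.H32.BSDE.Brown

open MeasureTheory ProbabilityTheory Filter Set
open scoped ENNReal NNReal Topology

namespace BSDE

variable {Ω : Type*} {m : MeasurableSpace Ω} {d : ℕ}

theorem no_solution {F : Filtration ℝ m} {μ : Measure Ω} {T : ℝ} {B : ℝ → Ω → E d}
    [IsProbabilityMeasure μ] (hB : FBM F B μ) (hT : 0 < T) (hd : 0 < d) :
    ∃ ξ : Ω → ℝ, Measurable[F T] ξ ∧ Integrable ξ μ ∧
      ∀ (Y : ℝ → Ω → ℝ) (Z : ℝ → Ω → E d), IsSolution F μ B T ξ Y Z → ¬ ClassD F μ T Y := by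
  obtain ⟨e, he⟩ : ∃ e : E d, ‖e‖ = 1 := ⟨EuclideanSpace.single ⟨0, hd⟩ 1, by simp⟩
  obtain ⟨a, ha⟩ : ∃ a : ℕ → ℝ, a = fun k => (1 / 2) ^ k := ⟨_, rfl⟩
  have ha0 : ∀ k, 0 < a k := fun k => by rw [ha]; positivity
  choose Q hQm hQ0 hQi hQE hQ using fun k : ℕ =>
    exists_payoff hB hT he (ha0 k) (L := (k : ℝ) + 1) (by positivity)
  obtain ⟨S, hS⟩ : ∃ S : Ω → ℝ≥0∞, S = fun ω => ∑' k, ENNReal.ofReal (a k * Q k ω) := ⟨_, rfl⟩
  have hSm : Measurable[F T] S := by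
    rw [hS]
    exact Measurable.ennreal_tsum fun k => ((hQm k).const_mul (a k)).ennreal_ofReal
  have hSm' : Measurable S := hSm.mono (F.le T) le_rfl
  have hSI : ∫⁻ ω, S ω ∂μ ≠ ⊤ := by
    have h1 : ∫⁻ ω, S ω ∂μ = ∑' k, ENNReal.ofReal (a k) := by
      rw [hS, lintegral_tsum fun k =>
        ((((hQm k).mono (F.le T) le_rfl).const_mul (a k)).ennreal_ofReal).aemeasurable]
      refine tsum_congr fun k => ?_
      rw [← ofReal_integral_eq_lintegral_ofReal ((hQi k).const_mul (a k))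
        (by filter_upwards with ω using mul_nonneg (ha0 k).le (hQ0 k ω)), integral_const_mul,
        hQE k, mul_one]
    rw [h1, ha]
    exact (summable_geometric_two).tsum_ofReal_ne_top
  have hSfin : ∀ᵐ ω ∂μ, S ω < ⊤ := ae_lt_top hSm' hSI
  refine ⟨fun ω => (S ω).toReal, hSm.ennreal_toReal,
    integrable_toReal_of_lintegral_ne_top hSm'.aemeasurable hSI, ?_⟩
  intro Y Z hsol hD
  obtain ⟨I, hI, heq⟩ := hsol.eqn
  have hSet : Setup F μ B T (fun ω => (S ω).toReal) Y Z I :=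
    ⟨hB, hT.le, hsol.progY, hsol.progZ, hsol.sqint, hsol.continuousY, hI, heq, hD⟩
  have hle : ∀ k, ∀ᵐ ω ∂μ, a k * Q k ω ≤ (S ω).toReal := by
    intro k
    filter_upwards [hSfin] with ω hω
    have h1 : ENNReal.ofReal (a k * Q k ω) ≤ S ω := by
      rw [hS]; exact ENNReal.le_tsum (f := fun k => ENNReal.ofReal (a k * Q k ω)) k
    exact (ENNReal.ofReal_le_iff_le_toReal hω.ne).1 h1
  have hall : ∀ᵐ ω ∂μ, ∀ k : ℕ, (k : ℝ) + 1 ≤ Y 0 ω :=
    ae_all_iff.2 fun k => hQ k _ Y Z I hSet (hle k)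
  obtain ⟨ω, hω⟩ := hall.exists
  obtain ⟨k, hk⟩ := exists_nat_gt (Y 0 ω)
  have := hω k
  linarith

end BSDE
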