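import Pool.Agent.H32.BSDE.Stop

open MeasureTheory ProbabilityTheory Filter Set
open scoped ENNReal NNReal Topology

namespace BSDE

variable {Ω : Type*} {m : MeasurableSpace Ω} {d : ℕ}

lemma exists_dense_test {a b : ℝ} (hab : a ≤ b) : ∃ D : ℕ → ℝ, (∀ k, D k ∈ Icc a b) ∧
    ∀ (f : ℝ → ℝ) (c : ℝ), ContinuousOn f (Icc a b) →
      ((∃ r ∈ Icc a b, c ≤ f r) ↔ ∀ n : ℕ, ∃ k : ℕ, c - 1 / (n + 1 : ℝ) < f (D k)) := by
  haveI : Nonempty (Icc a b) := ⟨⟨a, left_mem_Icc.2 hab⟩⟩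
  refine ⟨fun k => (TopologicalSpace.denseSeq (Icc a b) k : ℝ), fun k => Subtype.coe_prop _, ?_⟩
  intro f c hf
  constructor
  · rintro ⟨r, hr, hcr⟩ n
    have hg : Continuous fun x : Icc a b => f x := continuousOn_iff_continuous_restrict.1 hf
    have hopen : IsOpen {x : Icc a b | c - 1 / (n + 1 : ℝ) < f x} := isOpen_lt continuous_const hg
    have hne : ({x : Icc a b | c - 1 / (n + 1 : ℝ) < f x}).Nonempty := by
      refine ⟨⟨r, hr⟩, ?_⟩
      have : (0 : ℝ) < 1 / (n + 1 : ℝ) := by positivity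
      show c - 1 / (n + 1 : ℝ) < f r
      linarith
    obtain ⟨k, hx⟩ :=
      (TopologicalSpace.denseRange_denseSeq (Icc a b)).exists_mem_open hopen hne
    exact ⟨k, hx⟩
  · intro h
    obtain ⟨r, hr, hmax⟩ := isCompact_Icc.exists_isMaxOn ⟨a, left_mem_Icc.2 hab⟩ hf
    refine ⟨r, hr, ?_⟩
    by_contra hlt
    rw [not_le] at hlt
    obtain ⟨n, hn⟩ := exists_nat_one_div_lt (sub_pos.2 hlt)
    obtain ⟨k, hk⟩ := h n
    have := hmax (Subtype.coe_prop (TopologicalSpace.denseSeq (Icc a b) k))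
    simp only [mem_ofPred_eq] at this
    linarith

section
variable {F : Filtration ℝ m} {μ : Measure Ω} {T : ℝ}

/-- hitting times of a level by a continuous adapted process -/
theorem exists_hit (hnull : ∀ s, μ s = 0 → MeasurableSet[F 0] s) {X : ℝ → Ω → ℝ} {s : ℝ}
    (hs : 0 ≤ s) (hsT : s ≤ T) (c : ℝ) (hX : ∀ r ∈ Icc s T, Measurable[F r] (X r))
    (hc : ∀ᵐ ω ∂μ, ContinuousOn (fun r => X r ω) (Icc s T)) :
    ∃ ρ : Ω → ℝ, IsStop F T ρ ∧ (∀ ω, s ≤ ρ ω) ∧
      ∀ᵐ ω ∂μ, (∀ r ∈ Ico s (ρ ω), X r ω < c) ∧ (ρ ω < T → c ≤ X (ρ ω) ω) ∧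
        (X s ω ≤ c → ∀ r ∈ Icc s (ρ ω), X r ω ≤ c) := by
  classical
  set A : Set Ω := {ω | ContinuousOn (fun r => X r ω) (Icc s T)} with hA
  have hA0 : MeasurableSet[F 0] A := by
    rw [← compl_compl A]
    exact (hnull _ (ae_iff.1 hc)).compl
  have hAt : ∀ t, 0 ≤ t → MeasurableSet[F t] A := fun t ht => F.mono ht _ hA0
  set Dset : Ω → Set ℝ := fun ω => {r | r ∈ Icc s T ∧ c ≤ X r ω} with hD
  set ρ : Ω → ℝ := fun ω => if ω ∈ A ∧ (Dset ω).Nonempty then sInf (Dset ω) else T with hρ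
  have hcl : ∀ ω ∈ A, IsClosed (Dset ω) := by
    intro ω hω
    exact (hω.preimage_isClosed_of_isClosed isClosed_Icc isClosed_Ici : IsClosed _)
  have hbb : ∀ ω, BddBelow (Dset ω) := fun ω => ⟨s, fun r hr => hr.1.1⟩
  have hmem : ∀ ω ∈ A, (Dset ω).Nonempty → sInf (Dset ω) ∈ Dset ω := fun ω hω hne =>
    (hcl ω hω).csInf_mem hne (hbb ω)
  have hρr : ∀ ω, ρ ω ∈ Icc s T := by
    intro ω
    by_cases h : ω ∈ A ∧ (Dset ω).Nonempty
    · simp only [hρ, if_pos h]
      exact (hmem ω h.1 h.2).1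
    · simp only [hρ, if_neg h]
      exact right_mem_Icc.2 hsT
  refine ⟨ρ, ⟨fun ω => ⟨hs.trans (hρr ω).1, (hρr ω).2⟩, ?_⟩, fun ω => (hρr ω).1, ?_⟩
  · intro t
    rcases le_or_gt T t with hTt | htT
    · have : {ω | ρ ω ≤ t} = univ := by
        ext ω; simp [(hρr ω).2.trans hTt]
      rw [this]; exact MeasurableSet.univ
    rcases lt_or_ge t s with hts | hst
    · have : {ω | ρ ω ≤ t} = ∅ := by
        ext ω
        simp only [mem_ofPred_eq, mem_empty_iff_false, iff_false, not_le]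
        exact hts.trans_le (hρr ω).1
      rw [this]; exact @MeasurableSet.empty _ (F t)
    obtain ⟨D, hDmem, hDtest⟩ := exists_dense_test hst
    have hsub : Icc s t ⊆ Icc s T := Icc_subset_Icc_right htT.le
    have key : {ω | ρ ω ≤ t} = A ∩ ⋂ n : ℕ, ⋃ k : ℕ, {ω | c - 1 / (n + 1 : ℝ) < X (D k) ω} := by
      ext ω
      simp only [mem_ofPred_eq, mem_inter_iff, mem_iInter, mem_iUnion]
      constructor
      · intro h
        by_cases h' : ω ∈ A ∧ (Dset ω).Nonempty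
        · refine ⟨h'.1, ?_⟩
          simp only [hρ, if_pos h'] at h
          have hm := hmem ω h'.1 h'.2
          exact (hDtest (fun r => X r ω) c ((h'.1 : ContinuousOn _ _).mono hsub)).1
            ⟨_, ⟨hm.1.1, h⟩, hm.2⟩
        · simp only [hρ, if_neg h'] at h
          exact absurd h (not_le.2 htT)
      · rintro ⟨hωA, h⟩
        obtain ⟨r, hr, hcr⟩ := (hDtest (fun r => X r ω) c ((hωA : ContinuousOn _ _).mono hsub)).2 h
        have hrD : r ∈ Dset ω := ⟨hsub hr, hcr⟩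
        have h' : ω ∈ A ∧ (Dset ω).Nonempty := ⟨hωA, r, hrD⟩
        simp only [hρ, if_pos h']
        exact (csInf_le (hbb ω) hrD).trans hr.2
    rw [key]
    refine (hAt t (hs.trans hst)).inter (MeasurableSet.iInter fun n => MeasurableSet.iUnion fun k => ?_)
    have h1 : Measurable[F t] (X (D k)) :=
      (hX _ (hsub (hDmem k))).mono (F.mono (hDmem k).2) le_rfl
    exact h1 measurableSet_Ioi
  · filter_upwards [hc] with ω hω
    have hωA : ω ∈ A := hω
    have first : ∀ r ∈ Ico s (ρ ω), X r ω < c := by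
      intro r hr
      by_contra hcon
      rw [not_lt] at hcon
      have hrD : r ∈ Dset ω := ⟨⟨hr.1, hr.2.le.trans (hρr ω).2⟩, hcon⟩
      have h' : ω ∈ A ∧ (Dset ω).Nonempty := ⟨hωA, r, hrD⟩
      have h2 : ρ ω = sInf (Dset ω) := by simp only [hρ, if_pos h']
      have := csInf_le (hbb ω) hrD
      rw [← h2] at this
      exact absurd hr.2 (not_lt.2 this)
    refine ⟨first, ?_, ?_⟩
    · intro hlt
      by_cases h' : ω ∈ A ∧ (Dset ω).Nonempty
      · have h2 : ρ ω = sInf (Dset ω) := by simp only [hρ, if_pos h']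
        rw [h2]
        exact (hmem ω h'.1 h'.2).2
      · simp only [hρ, if_neg h'] at hlt
        exact absurd hlt (lt_irrefl _)
    · intro hsc r hr
      rcases hr.2.lt_or_eq with hlt | heq
      · exact (first r ⟨hr.1, hlt⟩).le
      · rcases hr.1.lt_or_eq with hsr | hsr
        · have hcw : ContinuousWithinAt (fun r => X r ω) (Ico s r) r :=
            (hω r ⟨hr.1, hr.2.trans (hρr ω).2⟩).mono fun x hx =>
              ⟨hx.1, hx.2.le.trans (hr.2.trans (hρr ω).2)⟩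
          have hcl : r ∈ closure (Ico s r) := by
            rw [closure_Ico hsr.ne]; exact right_mem_Icc.2 hsr.le
          refine hcw.closure_le hcl continuousWithinAt_const fun x hx => ?_
          exact (first x ⟨hx.1, hx.2.trans_le hr.2⟩).le
        · rw [← hsr]; exact hsc

lemma IsStop.min {σ ρ : Ω → ℝ} (hσ : IsStop F T σ) (hρ : IsStop F T ρ) :
    IsStop F T (fun ω => min (σ ω) (ρ ω)) := by
  refine ⟨fun ω => ⟨le_min (hσ.1 ω).1 (hρ.1 ω).1, (min_le_left _ _).trans (hσ.1 ω).2⟩, fun t => ?_⟩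
  have : {ω | Min.min (σ ω) (ρ ω) ≤ t} = {ω | σ ω ≤ t} ∪ {ω | ρ ω ≤ t} := by
    ext ω; simp
  rw [this]
  exact (hσ.2 t).union (hρ.2 t)

lemma isStop_const {s : ℝ} (hs : s ∈ Icc 0 T) : IsStop F T (fun _ : Ω => s) := by
  refine ⟨fun _ => hs, fun t => ?_⟩
  exact MeasurableSet.const _

end

end BSDE
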