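import Mathlib

open Filter Set Finset
open scoped Topology

namespace BSDE

lemma two_pow_ge (n : ℕ) : (n : ℝ) ≤ 2 ^ n := by
  have := Nat.lt_two_pow_self (n := n)
  exact_mod_cast this.le

lemma log_bound {L x : ℝ} {A i : ℕ} (hL0 : 0 < L) (hx : 0 < x) (hA : 1 ≤ A)
    (hL : L ≤ 2 ^ A) (hx2 : 1 / √x ≤ 2 ^ A) :
    Real.log (Real.exp 1 + L * 2 ^ i * (1 / √(x / (i + A)))) ≤ 4 * (i + A) := by
  have hAr : (1 : ℝ) ≤ A := by exact_mod_cast hA
  have hiA : (0 : ℝ) < (i : ℝ) + A := by positivity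
  have h1 : 1 / √(x / (i + A)) = (1 / √x) * √(i + A) := by
    rw [Real.sqrt_div hx.le]; field_simp
  have h2 : √((i : ℝ) + A) ≤ 2 ^ (i + A) := by
    have h3 : (i : ℝ) + A ≤ 2 ^ (i + A) := by
      have := two_pow_ge (i + A); push_cast at this; exact this
    have h4 : √((i : ℝ) + A) ≤ (i : ℝ) + A := by
      rw [Real.sqrt_le_left hiA.le]
      nlinarith [show (0 : ℝ) ≤ i by positivity]
    exact h4.trans h3
  have h5 : L * 2 ^ i * (1 / √(x / (i + A))) ≤ 2 ^ (3 * (i + A)) := by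
    rw [h1]
    calc L * 2 ^ i * (1 / √x * √(i + A)) ≤ 2 ^ A * 2 ^ i * (2 ^ A * 2 ^ (i + A)) := by
          gcongr
      _ = 2 ^ (2 * i + 3 * A) := by ring
      _ ≤ 2 ^ (3 * (i + A)) := pow_le_pow_right₀ (by norm_num) (by omega)
  have h6 : Real.exp 1 ≤ 2 ^ (3 * (i + A)) := by
    have h7 : (2 : ℝ) ^ 3 ≤ 2 ^ (3 * (i + A)) := pow_le_pow_right₀ (by norm_num) (by omega)
    have := Real.exp_one_lt_d9
    linarith
  have h8 : Real.exp 1 + L * 2 ^ i * (1 / √(x / (i + A))) ≤ Real.exp (4 * (i + A)) := by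
    calc Real.exp 1 + L * 2 ^ i * (1 / √(x / (i + A))) ≤ 2 ^ (3 * (i + A)) + 2 ^ (3 * (i + A)) :=
          add_le_add h6 h5
      _ = 2 ^ (3 * (i + A) + 1) := by ring
      _ ≤ 2 ^ (4 * (i + A)) := pow_le_pow_right₀ (by norm_num) (by omega)
      _ ≤ (Real.exp 1) ^ (4 * (i + A)) := by
          refine pow_le_pow_left₀ (by norm_num) ?_ _
          have := Real.add_one_le_exp 1
          linarith
      _ = Real.exp (4 * (i + A)) := by
          rw [← Real.exp_nat_mul]; push_cast; ring_nf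
  have hpos : 0 < Real.exp 1 + L * 2 ^ i * (1 / √(x / (i + A))) := by positivity
  calc Real.log (Real.exp 1 + L * 2 ^ i * (1 / √(x / (i + A))))
      ≤ Real.log (Real.exp (4 * (i + A))) := Real.log_le_log hpos h8
    _ = _ := Real.log_exp _

lemma sum_unbounded (A : ℕ) (hA : 1 ≤ A) (h : ℝ) :
    ∃ n : ℕ, h ≤ ∑ i ∈ range n, 1 / ((i : ℝ) + A) := by
  obtain ⟨A', rfl⟩ : ∃ A', A = A' + 1 := ⟨A - 1, by omega⟩
  have h1 := Real.tendsto_sum_range_one_div_nat_succ_atTop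
  have h2 := (h1.eventually_ge_atTop (h + ∑ i ∈ range A', 1 / ((i : ℝ) + 1))).and
    (eventually_ge_atTop A')
  obtain ⟨N, hN, hNA⟩ := h2.exists
  obtain ⟨n, rfl⟩ : ∃ n, N = A' + n := ⟨N - A', by omega⟩
  refine ⟨n, ?_⟩
  rw [sum_range_add] at hN
  have h3 : ∑ i ∈ range n, 1 / ((i : ℝ) + ((A' + 1 : ℕ) : ℝ)) =
      ∑ x ∈ range n, 1 / (((A' + x : ℕ) : ℝ) + 1) := by
    refine sum_congr rfl fun i _ => ?_
    push_cast; ring_nf
  rw [h3]
  linarith

lemma exists_sum_window (A : ℕ) (hA : 1 ≤ A) {h : ℝ} (hh : 0 < h) :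
    ∃ n : ℕ, h ≤ ∑ i ∈ range n, 1 / ((i : ℝ) + A) ∧
      ∑ i ∈ range n, 1 / ((i : ℝ) + A) ≤ h + 1 := by
  classical
  have hex := sum_unbounded A hA h
  refine ⟨Nat.find hex, Nat.find_spec hex, ?_⟩
  obtain ⟨k, hk⟩ : ∃ k, Nat.find hex = k + 1 := by
    rcases Nat.eq_zero_or_pos (Nat.find hex) with h0 | h0
    · exfalso
      have := Nat.find_spec hex
      rw [h0] at this
      simp at this
      linarith
    · exact ⟨Nat.find hex - 1, by omega⟩
  rw [hk, sum_range_succ]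
  have h1 := Nat.find_min hex (show k < Nat.find hex by omega)
  rw [not_le] at h1
  have h2 : 1 / ((k : ℝ) + A) ≤ 1 := by
    have hAr : (1 : ℝ) ≤ A := by exact_mod_cast hA
    rw [div_le_one (by positivity)]
    have : (0 : ℝ) ≤ k := by positivity
    linarith
  linarith

lemma one_add_sum_le (f : ℕ → ℝ) (hf : ∀ i, 0 ≤ f i) (n : ℕ) :
    1 + ∑ i ∈ range n, f i ≤ ∏ i ∈ range n, (1 + f i) := by
  induction n with
  | zero => simp
  | succ n ih =>
    rw [sum_range_succ, prod_range_succ]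
    have h1 : 0 ≤ ∑ i ∈ range n, f i := sum_nonneg fun i _ => hf i
    nlinarith [hf n]

/-- choice of the block lengths -/
theorem exists_lengths {T a L : ℝ} (hT : 0 < T) (ha : 0 < a) (hL : 0 < L) :
    ∃ (n : ℕ) (δ : ℕ → ℝ), (∀ i, 0 < δ i) ∧ (∀ i, δ i ≤ 1) ∧ ∑ i ∈ range n, δ i ≤ T ∧
      L ≤ a * ∏ i ∈ range n, (1 + 1 / 400 *
        √(δ i / Real.log (Real.exp 1 + L * 2 ^ i * (1 / √(δ i))))) := by
  obtain ⟨M, hM⟩ : ∃ M, M = 400 * L / a := ⟨_, rfl⟩
  have hM0 : 0 < M := by rw [hM]; positivity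
  obtain ⟨T', hT'⟩ : ∃ T', T' = min 1 T := ⟨_, rfl⟩
  have hT'0 : 0 < T' := by rw [hT']; exact lt_min one_pos hT
  have hT'1 : T' ≤ 1 := by rw [hT']; exact min_le_left _ _
  have hT'T : T' ≤ T := by rw [hT']; exact min_le_right _ _
  obtain ⟨h0, hh0⟩ : ∃ h0, h0 = max 1 (8 * M ^ 2 / T') := ⟨_, rfl⟩
  have hh1 : 1 ≤ h0 := by rw [hh0]; exact le_max_left _ _
  have hh2 : 8 * M ^ 2 / T' ≤ h0 := by rw [hh0]; exact le_max_right _ _
  have hh00 : 0 < h0 := by linarith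
  obtain ⟨x, hx⟩ : ∃ x, x = T' / (h0 + 1) := ⟨_, rfl⟩
  have hx0 : 0 < x := by rw [hx]; positivity
  have hx1 : x ≤ 1 := by
    rw [hx, div_le_one (by linarith)]; linarith
  obtain ⟨A, hA1, hAL, hAx⟩ : ∃ A : ℕ, 1 ≤ A ∧ L ≤ 2 ^ A ∧ 1 / √x ≤ 2 ^ A := by
    obtain ⟨A1, h1⟩ := pow_unbounded_of_one_lt L (show (1 : ℝ) < 2 by norm_num)
    obtain ⟨A2, h2⟩ := pow_unbounded_of_one_lt (1 / √x) (show (1 : ℝ) < 2 by norm_num)
    refine ⟨A1 + A2 + 1, by omega, ?_, ?_⟩
    · exact h1.le.trans (pow_le_pow_right₀ (by norm_num) (by omega))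
    · exact h2.le.trans (pow_le_pow_right₀ (by norm_num) (by omega))
  obtain ⟨n, hn1, hn2⟩ := exists_sum_window A hA1 hh00
  have hAr : (1 : ℝ) ≤ A := by exact_mod_cast hA1
  refine ⟨n, fun i => x / (i + A), fun i => by positivity, fun i => ?_, ?_, ?_⟩
  · rw [div_le_one (by positivity)]
    have : (0 : ℝ) ≤ i := by positivity
    linarith
  · have h1 : ∑ i ∈ range n, x / ((i : ℝ) + A) = x * ∑ i ∈ range n, 1 / ((i : ℝ) + A) := by
      rw [mul_sum]; exact sum_congr rfl fun i _ => by ring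
    rw [h1]
    calc x * ∑ i ∈ range n, 1 / ((i : ℝ) + A) ≤ x * (h0 + 1) :=
          mul_le_mul_of_nonneg_left hn2 hx0.le
      _ = T' := by rw [hx]; field_simp
      _ ≤ T := hT'T
  · have h1 : ∀ i : ℕ, √x / (2 * (i + A)) ≤ √((x / (i + A)) /
        Real.log (Real.exp 1 + L * 2 ^ i * (1 / √(x / (i + A))))) := by
      intro i
      have hlb := log_bound (i := i) hL hx0 hA1 hAL hAx
      have hlog1 : 1 ≤ Real.log (Real.exp 1 + L * 2 ^ i * (1 / √(x / (i + A)))) := by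
        rw [Real.le_log_iff_exp_le (by positivity)]
        have : 0 ≤ L * 2 ^ i * (1 / √(x / (i + A))) := by positivity
        linarith
      have hiA : (0 : ℝ) < (i : ℝ) + A := by positivity
      have h2 : √x / (2 * (i + A)) = √(x / (4 * (i + A) ^ 2)) := by
        rw [Real.sqrt_div hx0.le]
        congr 1
        rw [show (4 : ℝ) * (i + A) ^ 2 = (2 * (i + A)) ^ 2 by ring, Real.sqrt_sq (by positivity)]
      rw [h2]
      apply Real.sqrt_le_sqrt
      rw [div_div]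
      apply div_le_div_of_nonneg_left hx0.le (by positivity)
      calc (i + A) * Real.log (Real.exp 1 + L * 2 ^ i * (1 / √(x / (i + A))))
          ≤ (i + A) * (4 * (i + A)) := mul_le_mul_of_nonneg_left hlb hiA.le
        _ = 4 * (i + A) ^ 2 := by ring
    have h2 : 1 + ∑ i ∈ range n, 1 / 400 * √((x / (i + A)) /
        Real.log (Real.exp 1 + L * 2 ^ i * (1 / √(x / (i + A))))) ≤
        ∏ i ∈ range n, (1 + 1 / 400 * √((x / (i + A)) /
        Real.log (Real.exp 1 + L * 2 ^ i * (1 / √(x / (i + A)))))) := by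
      exact one_add_sum_le (fun i : ℕ =>
        1 / 400 * √((x / (i + A)) / Real.log (Real.exp 1 + L * 2 ^ i * (1 / √(x / (i + A))))))
        (fun i => by positivity) n
    have h3 : M ≤ ∑ i ∈ range n, √((x / (i + A)) /
        Real.log (Real.exp 1 + L * 2 ^ i * (1 / √(x / (i + A))))) := by
      have h4 : √x / 2 * h0 ≤ ∑ i ∈ range n, √x / (2 * (i + A)) := by
        calc √x / 2 * h0 ≤ √x / 2 * ∑ i ∈ range n, 1 / ((i : ℝ) + A) :=
              mul_le_mul_of_nonneg_left hn1 (by positivity)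
          _ = ∑ i ∈ range n, √x / (2 * (i + A)) := by
              rw [mul_sum]; exact sum_congr rfl fun i _ => by field_simp
      have h5 : M ≤ √x / 2 * h0 := by
        have h6 : M ^ 2 ≤ (√x / 2 * h0) ^ 2 := by
          rw [mul_pow, div_pow, Real.sq_sqrt hx0.le, hx]
          have h7 : 8 * M ^ 2 ≤ h0 * T' := by
            rwa [div_le_iff₀ hT'0] at hh2
          rw [div_div, div_mul_eq_mul_div, le_div_iff₀ (by positivity)]
          nlinarith
        exact (pow_le_pow_iff_left₀ hM0.le (by positivity) (by norm_num)).1 h6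
      exact h5.trans (h4.trans (sum_le_sum fun i _ => h1 i))
    have h4 : M / 400 ≤ ∏ i ∈ range n, (1 + 1 / 400 * √((x / (i + A)) /
        Real.log (Real.exp 1 + L * 2 ^ i * (1 / √(x / (i + A)))))) := by
      refine le_trans ?_ h2
      rw [← mul_sum]
      linarith
    calc L = a * (M / 400) := by rw [hM]; field_simp
      _ ≤ _ := mul_le_mul_of_nonneg_left h4 ha.le

end BSDE
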