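import Pool.Agent.H32.BSDE.Key2
import Pool.Agent.H32.BSDE.Numbers

open MeasureTheory ProbabilityTheory Filter Set
open scoped ENNReal NNReal Topology

namespace BSDE

variable {Ω : Type*} {m : MeasurableSpace Ω} {d : ℕ}

section
variable {F : Filtration ℝ m} {μ : Measure Ω} {T : ℝ} {B : ℝ → Ω → E d}
  {ξ : Ω → ℝ} {Y : ℝ → Ω → ℝ} {Z : ℝ → Ω → E d} {I : ℝ → Ω → ℝ}

lemma lower_meas [IsProbabilityMeasure μ] (hS : Setup F μ B T ξ Y Z I) {s t : ℝ} (hs : 0 ≤ s)
    (hst : s ≤ t) (htT : t ≤ T) {Q : Ω → ℝ} (hQ : Measurable[F s] Q) (hQi : Integrable Q μ)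
    (h : ∀ᵐ ω ∂μ, Q ω ≤ Y t ω) : ∀ᵐ ω ∂μ, Q ω ≤ Y s ω := by
  classical
  have hsI : s ∈ Icc 0 T := ⟨hs, hst.trans htT⟩
  have hYs : Measurable[F s] (Y s) := hS.progY.adapted hsI
  obtain ⟨A, hA⟩ : ∃ A : Set Ω, A = {ω | Y s ω < Q ω} := ⟨_, rfl⟩
  have hAm : MeasurableSet[F s] A := by rw [hA]; exact measurableSet_lt hYs hQ
  obtain ⟨ϑ, hϑ⟩ : ∃ ϑ : Ω → ℝ, ϑ = A.indicator (fun _ => 1) := ⟨_, rfl⟩
  have hϑA : ∀ ω ∈ A, ϑ ω = 1 := fun ω h => by rw [hϑ, indicator_of_mem h]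
  have hϑN : ∀ ω, ω ∉ A → ϑ ω = 0 := fun ω h => by rw [hϑ, indicator_of_notMem h]
  have hϑm : Measurable[F s] ϑ := by rw [hϑ]; exact measurable_const.indicator hAm
  have hϑ0 : ∀ ω, 0 ≤ ϑ ω := fun ω => by
    by_cases h : ω ∈ A
    · rw [hϑA ω h]; norm_num
    · rw [hϑN ω h]
  have hϑ1 : ∀ ω, |ϑ ω| ≤ 1 := fun ω => by
    by_cases h : ω ∈ A
    · rw [hϑA ω h]; norm_num
    · rw [hϑN ω h]; norm_num
  obtain ⟨i1, i2, _, _, i5, _⟩ := star hS.fbm hS.T0 hS.progZ hS.sq hS.cont hS.ito hS.eqn hS.classD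
    hsI hϑm hϑ0 ⟨1, hϑ1⟩ (isStop_const (show t ∈ Icc 0 T from ⟨hs.trans hst, htT⟩))
    (fun _ => hst)
  have iQ : Integrable (fun ω => ϑ ω * Q ω) μ :=
    Integrable.bdd_mul (c := 1) hQi (hϑm.mono (F.le s) le_rfl).aestronglyMeasurable
      (by filter_upwards with ω using hϑ1 ω)
  have h3 : ∫ ω, ϑ ω * Q ω ∂μ ≤ ∫ ω, ϑ ω * Y t ω ∂μ := by
    refine integral_mono_ae iQ i2 ?_
    filter_upwards [h] with ω hω
    exact mul_le_mul_of_nonneg_left hω (hϑ0 ω)
  have hnn : ∀ ω, 0 ≤ ϑ ω * Q ω - ϑ ω * Y s ω := by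
    intro ω
    by_cases h : ω ∈ A
    · rw [hϑA ω h]
      rw [hA] at h
      have : Y s ω < Q ω := h
      linarith
    · rw [hϑN ω h]; simp
  have h4 : ∫ ω, (ϑ ω * Q ω - ϑ ω * Y s ω) ∂μ = 0 := by
    refine le_antisymm ?_ (integral_nonneg hnn)
    rw [integral_sub iQ i1]
    linarith
  have h5 := (integral_eq_zero_iff_of_nonneg hnn (iQ.sub i1)).1 h4
  filter_upwards [h5] with ω h6
  by_contra hcon
  rw [not_le] at hcon
  have hωA : ω ∈ A := by rw [hA]; exact hcon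
  simp only [Pi.zero_apply, hϑA ω hωA, one_mul] at h6
  linarith

theorem exists_payoff [IsProbabilityMeasure μ] (hB : FBM F B μ) (hT : 0 < T) {e : E d}
    (he : ‖e‖ = 1) {a L : ℝ} (ha : 0 < a) (hL : 0 < L) :
    ∃ Q : Ω → ℝ, Measurable[F T] Q ∧ (∀ ω, 0 ≤ Q ω) ∧ Integrable Q μ ∧ ∫ ω, Q ω ∂μ = 1 ∧
      ∀ (ξ : Ω → ℝ) (Y : ℝ → Ω → ℝ) (Z : ℝ → Ω → E d) (I : ℝ → Ω → ℝ),
        Setup F μ B T ξ Y Z I → (∀ᵐ ω ∂μ, a * Q ω ≤ ξ ω) → ∀ᵐ ω ∂μ, L ≤ Y 0 ω := by
  obtain ⟨n, δ, hδ0, hδ1, hsum, hprod⟩ := exists_lengths hT ha hL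
  obtain ⟨s, hs⟩ : ∃ s : ℕ → ℝ, s = fun i => ∑ j ∈ Finset.range i, δ j := ⟨_, rfl⟩
  have hs0 : s 0 = 0 := by rw [hs]; simp
  have hsucc : ∀ i, s (i + 1) = s i + δ i := fun i => by
    rw [hs]; exact Finset.sum_range_succ _ _
  have hsmono : Monotone s := monotone_nat_of_le_succ fun i => by
    rw [hsucc]; linarith [hδ0 i]
  have hsnn : ∀ i, 0 ≤ s i := fun i => by rw [← hs0]; exact hsmono (Nat.zero_le i)
  have hsnT : s n ≤ T := by rw [hs]; exact hsum
  have hsT : ∀ i ≤ n, s i ≤ T := fun i hi => (hsmono hi).trans hsnT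
  have hblocks : ∀ i, i < n → ∃ τ R, Block F μ B e T (s i) (δ i) τ R := fun i hi =>
    exists_block hB (hsnn i) (hδ0 i) (by rw [← hsucc]; exact hsT _ hi)
  choose! τ R hR using hblocks
  obtain ⟨P, hP⟩ : ∃ P : ℕ → Ω → ℝ, P = fun i ω => ∏ j ∈ Finset.range i, R j ω := ⟨_, rfl⟩
  have hP0 : ∀ ω, P 0 ω = 1 := fun ω => by rw [hP]; simp
  have hPs : ∀ i ω, P (i + 1) ω = P i ω * R i ω := fun i ω => by
    rw [hP]; exact Finset.prod_range_succ _ _
  have hPm : ∀ i ≤ n, Measurable[F (s i)] (P i) := by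
    intro i hi
    induction i with
    | zero =>
      have : P 0 = fun _ => 1 := funext hP0
      rw [this]; exact measurable_const
    | succ i ih =>
      have : P (i + 1) = fun ω => P i ω * R i ω := funext (hPs i)
      rw [this]
      have h1 : Measurable[F (s (i + 1))] (P i) :=
        (ih (by omega)).mono (F.mono (hsmono (Nat.le_succ i))) le_rfl
      have h2 : Measurable[F (s (i + 1))] (R i) := by
        rw [hsucc]; exact (hR i (by omega)).measR
      exact h1.mul h2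
  have hPnn : ∀ i ≤ n, ∀ ω, 0 ≤ P i ω := by
    intro i hi ω
    induction i with
    | zero => rw [hP0]; norm_num
    | succ i ih =>
      rw [hPs]; exact mul_nonneg (ih (by omega)) ((hR i (by omega)).R0 ω)
  have hPle : ∀ i ≤ n, ∀ ω, P i ω ≤ 2 ^ i := by
    intro i hi ω
    induction i with
    | zero => rw [hP0]; norm_num
    | succ i ih =>
      rw [hPs, pow_succ]
      exact mul_le_mul (ih (by omega)) ((hR i (by omega)).R2 ω) ((hR i (by omega)).R0 ω)
        (by positivity)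
  have hPint : ∀ i ≤ n, Integrable (P i) μ := fun i hi => by
    refine Integrable.of_bound ((hPm i hi).mono (F.le _) le_rfl).aestronglyMeasurable (2 ^ i) ?_
    filter_upwards with ω
    rw [Real.norm_of_nonneg (hPnn i hi ω)]
    exact hPle i hi ω
  have hPE : ∀ i ≤ n, ∫ ω, P i ω ∂μ = 1 := by
    intro i hi
    induction i with
    | zero => simp_rw [hP0]; simp
    | succ i ih =>
      have hin : i < n := by omega
      have hb := hR i hin
      have hψm : Measurable[F (s i)] fun ω => P i ω / √(δ i) := (hPm i hin.le).div_const _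
      obtain ⟨w1, w2, _⟩ := stop_W hB hT.le he (⟨hsnn i, hsT i hin.le⟩ : s i ∈ Icc 0 T) hψm
        ⟨2 ^ i / √(δ i), fun ω => by
          rw [abs_div, abs_of_nonneg (hPnn i hin.le ω), abs_of_nonneg (Real.sqrt_nonneg _)]
          exact div_le_div_of_nonneg_right (hPle i hin.le ω) (Real.sqrt_nonneg _)⟩
        hb.stop hb.ge
      have h1 : ∀ᵐ ω ∂μ, P (i + 1) ω = P i ω +
          P i ω / √(δ i) * inner ℝ e (B (τ i ω) ω - B (s i) ω) := by
        filter_upwards [hb.val] with ω hω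
        rw [hPs, hω]; ring
      rw [integral_congr_ae h1, integral_add (hPint i hin.le) w1, w2, add_zero]
      exact ih hin.le
  refine ⟨P n, (hPm n le_rfl).mono (F.mono hsnT) le_rfl, hPnn n le_rfl, hPint n le_rfl,
    hPE n le_rfl, ?_⟩
  intro ξ Y Z I hS hξ
  -- the gain factors
  obtain ⟨η, hη⟩ : ∃ η : ℕ → ℝ, η = fun i => 1 / 400 *
    √(δ i / Real.log (Real.exp 1 + L * 2 ^ i * (1 / √(δ i)))) := ⟨_, rfl⟩
  have hη0 : ∀ i, 0 ≤ η i := fun i => by rw [hη]; positivity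
  have hprod' : L ≤ a * ∏ i ∈ Finset.range n, (1 + η i) := by rw [hη]; exact hprod
  -- backward induction
  have hmain : ∀ k ≤ n, ∀ᵐ ω ∂μ,
      min L (a * ∏ i ∈ Finset.Ico (n - k) n, (1 + η i)) * P (n - k) ω ≤ Y (s (n - k)) ω := by
    intro k
    induction k with
    | zero =>
      intro _
      simp only [tsub_zero, Finset.Ico_self, Finset.prod_empty, mul_one]
      have h1 : ∀ᵐ ω ∂μ, a * P n ω ≤ Y (s n) ω := by
        refine lower_meas hS (hsnn n) hsnT le_rfl ((hPm n le_rfl).const_mul a)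
          ((hPint n le_rfl).const_mul a) ?_
        filter_upwards [hξ, hS.eqn] with ω h1 h2
        have h3 := h2 T ⟨hT.le, le_rfl⟩
        simp only [intervalIntegral.integral_same, sub_self, add_zero, sub_zero] at h3
        rw [h3]; exact h1
      filter_upwards [h1] with ω hω
      exact (mul_le_mul_of_nonneg_right (min_le_right _ _) (hPnn n le_rfl ω)).trans hω
    | succ k ih =>
      intro hk
      obtain ⟨i, hi⟩ : ∃ i, n - (k + 1) = i := ⟨_, rfl⟩
      have hi1 : n - k = i + 1 := by omega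
      have hin : i < n := by omega
      have h1 := ih (by omega)
      rw [hi1] at h1
      rw [hi]
      obtain ⟨b, hb⟩ : ∃ b, b = min L (a * ∏ j ∈ Finset.Ico (i + 1) n, (1 + η j)) := ⟨_, rfl⟩
      rw [← hb] at h1
      have hprodpos : 0 < ∏ j ∈ Finset.Ico (i + 1) n, (1 + η j) :=
        Finset.prod_pos fun j _ => by linarith [hη0 j]
      have hb0 : 0 < b := by rw [hb]; exact lt_min hL (by positivity)
      have hbL : b ≤ L := by rw [hb]; exact min_le_left _ _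
      have h2 := key hS he (hsnn i) (hδ0 i) (hδ1 i) (by rw [← hsucc]; exact hsT _ hin)
        (hR i hin) (hPm i hin.le) (hPnn i hin.le) (hPle i hin.le) hb0
        (β := L * 2 ^ i) (mul_le_mul_of_nonneg_right hbL (by positivity)) (by
          filter_upwards [h1] with ω hω
          rw [hPs, hsucc] at hω
          linarith)
      filter_upwards [h2] with ω hω
      have h3 : min L (a * ∏ j ∈ Finset.Ico i n, (1 + η j)) ≤ b * (1 + η i) := by
        rw [Finset.prod_eq_prod_Ico_succ_bot hin, hb, min_mul_of_nonneg _ _ (by linarith [hη0 i])]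
        refine min_le_min ?_ (le_of_eq (by ring))
        exact le_mul_of_one_le_right hL.le (by linarith [hη0 i])
      calc min L (a * ∏ j ∈ Finset.Ico i n, (1 + η j)) * P i ω
          ≤ b * (1 + η i) * P i ω := mul_le_mul_of_nonneg_right h3 (hPnn i hin.le ω)
        _ = b * P i ω * (1 + η i) := by ring
        _ ≤ _ := by rw [hη]; exact hω
  have hfin := hmain n le_rfl
  simp only [tsub_self, hs0, hP0, mul_one] at hfin
  rw [← Finset.range_eq_Ico, min_eq_left hprod'] at hfin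
  exact hfin

end

end BSDE
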