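import Pool.Agent.H32.BSDE.Hit

open MeasureTheory ProbabilityTheory Filter Set
open scoped ENNReal NNReal Topology

namespace BSDE

variable {Ω : Type*} {m : MeasurableSpace Ω} {d : ℕ}

lemma fatou_aux {ν : Measure ℝ} {u : ℝ → E d} {v : ℕ → ℝ → E d} (hu : AEStronglyMeasurable u ν)
    (hv : ∀ n, AEStronglyMeasurable (v n) ν)
    (h : Tendsto (fun n => ∫⁻ r, ‖v n r - u r‖ₑ ^ 2 ∂ν) atTop (𝓝 0)) :
    ∫⁻ r, ‖u r‖ₑ ^ 2 ∂ν ≤ liminf (fun n => ∫⁻ r, ‖v n r‖ₑ ^ 2 ∂ν) atTop := by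
  have h1 : ∀ n, eLpNorm u 2 ν - eLpNorm (v n - u) 2 ν ≤ eLpNorm (v n) 2 ν := by
    intro n
    rw [tsub_le_iff_right]
    have : u = v n - (v n - u) := by simp
    calc eLpNorm u 2 ν = eLpNorm (v n - (v n - u)) 2 ν := by rw [← this]
      _ ≤ eLpNorm (v n) 2 ν + eLpNorm (v n - u) 2 ν :=
        eLpNorm_sub_le (hv n) ((hv n).sub hu) (by norm_num)
  have h2 : Tendsto (fun n => eLpNorm (v n - u) 2 ν) atTop (𝓝 0) := by
    have h3 : Tendsto (fun n => eLpNorm (v n - u) 2 ν ^ 2) atTop (𝓝 0) := by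
      simp_rw [eLpNorm_two_sq]; exact h
    have h4 : Tendsto (fun n => (eLpNorm (v n - u) 2 ν ^ 2) ^ (1 / 2 : ℝ)) atTop
        (𝓝 (0 ^ (1 / 2 : ℝ))) := (ENNReal.continuous_rpow_const.tendsto _).comp h3
    rw [ENNReal.zero_rpow_of_pos (by norm_num)] at h4
    refine h4.congr fun n => ?_
    rw [← ENNReal.rpow_natCast, ← ENNReal.rpow_mul]
    norm_num
  have h5 : Tendsto (fun n => (eLpNorm u 2 ν - eLpNorm (v n - u) 2 ν) ^ 2) atTop
      (𝓝 (eLpNorm u 2 ν ^ 2)) := by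
    have := ENNReal.Tendsto.sub (tendsto_const_nhds (x := eLpNorm u 2 ν)) h2
      (Or.inr ENNReal.zero_ne_top)
    rw [tsub_zero] at this
    exact ((ENNReal.continuous_pow 2).tendsto _).comp this
  rw [← eLpNorm_two_sq, ← h5.liminf_eq]
  refine liminf_le_liminf (Eventually.of_forall fun n => ?_)
  rw [← eLpNorm_two_sq]
  exact pow_le_pow_left₀ bot_le (h1 n) 2

section
variable {F : Filtration ℝ m} {μ : Measure Ω} {T : ℝ} {B : ℝ → Ω → E d}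

lemma TendstoZero.exists_seq {f : ℕ → Ω → ℝ≥0∞} (hf : TendstoZero μ f) :
    ∃ ns : ℕ → ℕ, StrictMono ns ∧ ∀ᵐ ω ∂μ, Tendsto (fun n => f (ns n) ω) atTop (𝓝 0) := by
  set g : ℕ → Ω → ℝ := fun n ω => (min (f n ω) 1).toReal with hg
  have hgt : TendstoInMeasure μ g atTop (fun _ => (0 : ℝ)) := by
    intro ε hε
    refine tendsto_of_tendsto_of_tendsto_of_le_of_le tendsto_const_nhds (hf ε hε)
      (fun _ => bot_le) (fun n => measure_mono ?_)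
    intro ω hω
    simp only [mem_ofPred_eq] at hω ⊢
    rw [edist_zero_right, hg] at hω
    simp only at hω
    rw [Real.enorm_of_nonneg ENNReal.toReal_nonneg, ENNReal.ofReal_toReal (by simp)] at hω
    exact hω.trans (min_le_left _ _)
  obtain ⟨ns, hns, hae⟩ := hgt.exists_seq_tendsto_ae
  refine ⟨ns, hns, ?_⟩
  filter_upwards [hae] with ω hω
  have h1 : Tendsto (fun n => min (f (ns n) ω) 1) atTop (𝓝 0) := by
    have := ENNReal.tendsto_ofReal hω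
    simpa [hg, ENNReal.ofReal_toReal] using this
  have h2 : ∀ᶠ n in atTop, min (f (ns n) ω) 1 < 1 := h1.eventually_lt_const (by norm_num)
  refine h1.congr' ?_
  filter_upwards [h2] with n hn
  rcases min_lt_iff.1 hn with h | h
  · exact min_eq_left h.le
  · exact absurd h (lt_irrefl _)

lemma TendstoZero.comp {f : ℕ → Ω → ℝ≥0∞} (hf : TendstoZero μ f) {ns : ℕ → ℕ}
    (hns : StrictMono ns) : TendstoZero μ (fun n => f (ns n)) :=
  fun ε hε => (hf ε hε).comp hns.tendsto_atTop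

lemma Progressive.section_aesm {V : Type*} [MeasurableSpace V] {X : ℝ → Ω → V}
    (hX : Progressive F T X) (hT : 0 ≤ T) (ω : Ω) :
    AEMeasurable (fun r => X r ω) (volume.restrict (Icc 0 T)) := by
  have h1 := hX T (right_mem_Icc.2 hT)
  have h2 : Measurable fun r : Icc (0 : ℝ) T => X r ω := by
    have h3 : @Measurable (Icc (0 : ℝ) T) (Icc (0 : ℝ) T × Ω) _ (@Prod.instMeasurableSpace _ _ _ (F T))
        (fun r => (r, ω)) := @measurable_prodMk_right _ _ _ (F T) ω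
    exact h1.comp h3
  exact aemeasurable_restrict_of_measurable_subtype measurableSet_Icc h2

lemma Progressive.adapted {V : Type*} [MeasurableSpace V] {X : ℝ → Ω → V}
    (hX : Progressive F T X) {t : ℝ} (ht : t ∈ Icc 0 T) : Measurable[F t] (X t) := by
  have h1 := hX t ht
  have h3 : @Measurable Ω (Icc (0 : ℝ) t × Ω) (F t) (@Prod.instMeasurableSpace _ _ _ (F t))
      (fun ω => (⟨t, right_mem_Icc.2 ht.1⟩, ω)) := @measurable_prodMk_left _ _ _ (F t) _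
  exact h1.comp h3

lemma approx_pair (hT : 0 ≤ T) (H : Elementary F T d) {s : ℝ} (hs : s ∈ Icc 0 T)
    {ϑ : Ω → ℝ} (hϑ : Measurable[F s] ϑ) (hϑb : ∃ C : ℝ, ∀ ω, |ϑ ω| ≤ C)
    {θ : Ω → E d} (hθ : Measurable[F s] θ) (hθb : ∃ C : ℝ, ∀ ω, ‖θ ω‖ ≤ C) :
    ∃ p ∈ Span F B (T + 1),
      (∀ r ∈ Ioc s T, ∀ ω, p.1 r ω = ϑ ω • H.val r ω - θ ω) ∧
      (∀ r ∈ Icc s T, ∀ ω, p.2 r ω =
        ϑ ω * (H.integral B r ω - H.integral B s ω) - inner ℝ (θ ω) (B r ω - B s ω)) := by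
  have hTmem : Term F B (T + 1) ((fun r ω => (Ioc s T).indicator (fun _ => θ ω) r,
      fun r ω => inner ℝ (θ ω) (B (min T r) ω - B (min s r) ω)) :
        (ℝ → Ω → E d) × (ℝ → Ω → ℝ)) :=
    ⟨s, T, θ, hs.1, hs.2, by linarith, hθ, hθb, rfl⟩
  refine ⟨restr s ϑ (H.val, H.integral B) -
      (fun r ω => (Ioc s T).indicator (fun _ => θ ω) r,
      fun r ω => inner ℝ (θ ω) (B (min T r) ω - B (min s r) ω)),
    Submodule.sub_mem _ (restr_mem hs.1 (by linarith [hs.2]) hϑ hϑb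
      (H.mem_span (by linarith))) (Submodule.subset_span hTmem), ?_, ?_⟩
  · intro r hr ω
    simp only [restr, LinearMap.coe_mk, AddHom.coe_mk, Prod.fst_sub, Pi.sub_apply]
    rw [indicator_of_mem (show r ∈ Ioi s from hr.1), indicator_of_mem hr]
  · intro r hr ω
    simp only [restr, LinearMap.coe_mk, AddHom.coe_mk, Prod.snd_sub, Pi.sub_apply]
    rw [min_eq_left hr.1, min_eq_right hr.2]

lemma hit_pair [IsProbabilityMeasure μ] (hB : FBM F B μ) (hT : 0 ≤ T)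
    {p : (ℝ → Ω → E d) × (ℝ → Ω → ℝ)} (hp : p ∈ Span F B (T + 1)) {s : ℝ} (hs : s ∈ Icc 0 T)
    (c : ℝ) : ∃ ρ : Ω → ℝ, IsStop F T ρ ∧ (∀ ω, s ≤ ρ ω) ∧
      ∀ᵐ ω ∂μ, (∀ r ∈ Ico s (ρ ω), |p.2 r ω| < c) ∧
        (ρ ω < T → c ≤ |p.2 (ρ ω) ω|) ∧
        (|p.2 s ω| ≤ c → ∀ r ∈ Icc s (ρ ω), |p.2 r ω| ≤ c) := by
  have hpN := span_nice hB (by linarith) hp
  refine exists_hit (μ := μ) hB.null (X := fun r ω => |p.2 r ω|) hs.1 hs.2 c ?_ ?_
  · intro r hr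
    have h1 : Measurable[F r] (p.2 r) := hpN.adapted r (hs.1.trans hr.1)
    exact @Measurable.comp _ _ _ (F r) _ _ _ _ measurable_abs h1
  · filter_upwards [hpN.cont] with ω hω
    exact (hω.mono fun x hx => hs.1.trans hx.1).abs

/-- the pathwise part of the approximation argument -/
lemma path_aux {s T σ ρ ϑ C Cϑ : ℝ} {J : ℝ → ℝ} {Iω : ℝ → ℝ} {β : ℝ → ℝ} {P : ℝ → ℝ}
    {D : ℝ≥0∞} (hs : s ∈ Icc 0 T) (hσ : σ ≤ T) (hρs : s ≤ ρ) (hsσ : s ≤ σ)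
    (hϑ : |ϑ| ≤ Cϑ) (hD : ∀ t ∈ Icc 0 T, ‖J t - Iω t‖ₑ ≤ D)
    (hP : ∀ r ∈ Icc s T, P r = ϑ * (J r - J s) - β r) (hDfin : D ≠ ⊤)
    (hsmall : 2 * Cϑ * D.toReal < 1)
    (hX : ∀ r ∈ Icc s σ, |ϑ * (Iω r - Iω s) - β r| ≤ C)
    (hρ : ρ < T → C + 1 ≤ |P ρ|) :
    min σ ρ = σ ∧ |P σ - (ϑ * (Iω σ - Iω s) - β σ)| ≤ 2 * Cϑ * D.toReal := by
  have hDreal : ∀ r ∈ Icc s T, |P r - (ϑ * (Iω r - Iω s) - β r)| ≤ 2 * Cϑ * D.toReal := by
    intro r hr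
    have hb : ∀ t ∈ Icc 0 T, |J t - Iω t| ≤ D.toReal := by
      intro t ht
      have := ENNReal.toReal_mono hDfin (hD t ht)
      simpa using this
    have h1 := hb r ⟨hs.1.trans hr.1, hr.2⟩
    have h2 := hb s hs
    have h3 : P r - (ϑ * (Iω r - Iω s) - β r) = ϑ * ((J r - Iω r) - (J s - Iω s)) := by
      rw [hP r hr]; ring
    rw [h3, abs_mul]
    have h4 : |(J r - Iω r) - (J s - Iω s)| ≤ 2 * D.toReal := by
      refine (abs_sub _ _).trans ?_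
      linarith
    have h5 : 0 ≤ D.toReal := ENNReal.toReal_nonneg
    have h6 : 0 ≤ Cϑ := (abs_nonneg _).trans hϑ
    calc |ϑ| * _ ≤ Cϑ * (2 * D.toReal) := mul_le_mul hϑ h4 (abs_nonneg _) h6
      _ = _ := by ring
  refine ⟨?_, hDreal σ ⟨hsσ, hσ⟩⟩
  by_contra hne
  have hlt : ρ < σ := by
    by_contra hcon
    exact hne (min_eq_left (not_lt.1 hcon))
  have h3 := hρ (hlt.trans_le hσ)
  have h4 := hDreal ρ ⟨hρs, hlt.le.trans hσ⟩
  have h5 := hX ρ ⟨hρs, hlt.le⟩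
  have h6 : |P ρ| ≤ |ϑ * (Iω ρ - Iω s) - β ρ| + |P ρ - (ϑ * (Iω ρ - Iω s) - β ρ)| := by
    have := abs_add_le (ϑ * (Iω ρ - Iω s) - β ρ) (P ρ - (ϑ * (Iω ρ - Iω s) - β ρ))
    simpa using this
  linarith

lemma fatou_section (hT : 0 ≤ T) {Z : ℝ → Ω → E d} (hZ : Progressive F T Z) {s : ℝ}
    (hs : s ∈ Icc 0 T) {H : ℕ → Elementary F T d} {p : ℕ → ℝ → Ω → E d}
    (hp : ∀ n, Measurable (Function.uncurry (p n))) {σ x : ℝ} (hσT : σ ≤ T) (ω : Ω) {y : E d}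
    (hp1 : ∀ n, ∀ r ∈ Ioc s T, p n r ω = x • (H n).val r ω - y)
    (hlim : Tendsto (fun n => ∫⁻ r in Icc 0 T, ‖(H n).val r ω - Z r ω‖ₑ ^ 2) atTop (𝓝 0)) :
    ∫⁻ r in Ioc s σ, ‖x • Z r ω - y‖ₑ ^ 2 ≤
      liminf (fun n => ∫⁻ r in Ioc s σ, ‖p n r ω‖ₑ ^ 2) atTop := by
  have hsub : Ioc s σ ⊆ Icc 0 T := fun r hr => ⟨hs.1.trans hr.1.le, hr.2.trans hσT⟩
  have hsub2 : Ioc s σ ⊆ Ioc s T := fun r hr => ⟨hr.1, hr.2.trans hσT⟩
  have hZm : AEStronglyMeasurable (fun r => Z r ω) (volume.restrict (Ioc s σ)) :=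
    (AEMeasurable.mono_measure (hZ.section_aesm hT ω)
      (Measure.restrict_mono hsub le_rfl)).aestronglyMeasurable
  have hZm' : AEStronglyMeasurable (fun r => x • Z r ω - y) (volume.restrict (Ioc s σ)) :=
    (hZm.const_smul x).sub aestronglyMeasurable_const
  have hpm : ∀ n, AEStronglyMeasurable (fun r => p n r ω)
      (volume.restrict (Ioc s σ)) := fun n =>
    ((hp n).comp measurable_prodMk_right).aestronglyMeasurable
  refine fatou_aux (ν := volume.restrict (Ioc s σ))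
    (u := fun r => x • Z r ω - y) (v := fun n r => p n r ω) hZm' hpm ?_
  refine tendsto_of_tendsto_of_tendsto_of_le_of_le tendsto_const_nhds
    (h := fun n => ‖x‖ₑ ^ 2 * ∫⁻ r in Icc 0 T, ‖(H n).val r ω - Z r ω‖ₑ ^ 2) ?_
    (fun _ => bot_le) ?_
  · have := ENNReal.Tendsto.const_mul (a := ‖x‖ₑ ^ 2) hlim (Or.inr (by simp))
    simpa using this
  · intro n
    simp only
    rw [← lintegral_const_mul' _ _ (by simp)]
    calc ∫⁻ r in Ioc s σ, ‖p n r ω - (x • Z r ω - y)‖ₑ ^ 2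
        = ∫⁻ r in Ioc s σ, ‖x‖ₑ ^ 2 * ‖(H n).val r ω - Z r ω‖ₑ ^ 2 := by
          refine setLIntegral_congr_fun measurableSet_Ioc fun r hr => ?_
          rw [hp1 n r (hsub2 hr), ← mul_pow, ← enorm_smul]
          congr 2
          rw [smul_sub]; abel
      _ ≤ _ := lintegral_mono_set hsub

lemma aemeasurable_inner_lintegral {p : ℝ → Ω → E d} (hp : Measurable (Function.uncurry p))
    {τ : Ω → ℝ} (hτ : Measurable τ) :
    AEMeasurable (fun ω => ∫⁻ r in Ioc 0 (τ ω), ‖p r ω‖ₑ ^ 2) μ := by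
  have hmeas : Measurable fun q : Ω × ℝ =>
      {q : Ω × ℝ | q.2 ∈ Ioc 0 (τ q.1)}.indicator (fun q => ‖p q.2 q.1‖ₑ ^ 2) q := by
    refine Measurable.indicator ?_ ?_
    · exact ((hp.comp measurable_swap).enorm).pow_const 2
    · have h1 : Measurable fun q : Ω × ℝ => τ q.1 := hτ.comp measurable_fst
      exact (measurableSet_lt measurable_const measurable_snd).inter
        (measurableSet_le measurable_snd h1)
  have h2 := hmeas.lintegral_prod_right' (ν := volume)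
  have h3 : (fun ω => ∫⁻ r in Ioc 0 (τ ω), ‖p r ω‖ₑ ^ 2) = fun ω => ∫⁻ r,
      {q : Ω × ℝ | q.2 ∈ Ioc 0 (τ q.1)}.indicator (fun q => ‖p q.2 q.1‖ₑ ^ 2) (ω, r) := by
    funext ω
    rw [← lintegral_indicator measurableSet_Ioc]
    rfl
  rw [h3]
  exact h2.aemeasurable

/-- optional stopping for Itô integrals, up to a time where the (shifted) integral is bounded -/
theorem IsIto.stop [IsProbabilityMeasure μ] (hB : FBM F B μ) (hT : 0 ≤ T) {Z : ℝ → Ω → E d}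
    {I : ℝ → Ω → ℝ} (hI : IsIto F μ B T Z I) (hZ : Progressive F T Z) {s : ℝ} (hs : s ∈ Icc 0 T)
    {ϑ : Ω → ℝ} (hϑ : Measurable[F s] ϑ) (hϑb : ∃ C : ℝ, ∀ ω, |ϑ ω| ≤ C)
    {θ : Ω → E d} (hθ : Measurable[F s] θ) (hθb : ∃ C : ℝ, ∀ ω, ‖θ ω‖ ≤ C)
    {σ : Ω → ℝ} (hσ : IsStop F T σ) (hsσ : ∀ ω, s ≤ σ ω) {C : ℝ} (hC0 : 0 ≤ C)
    (hX : ∀ᵐ ω ∂μ, ∀ r ∈ Icc s (σ ω),
      |ϑ ω * (I r ω - I s ω) - inner ℝ (θ ω) (B r ω - B s ω)| ≤ C) :
    AEStronglyMeasurable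
      (fun ω => ϑ ω * (I (σ ω) ω - I s ω) - inner ℝ (θ ω) (B (σ ω) ω - B s ω)) μ ∧
    ∫ ω, (ϑ ω * (I (σ ω) ω - I s ω) - inner ℝ (θ ω) (B (σ ω) ω - B s ω)) ∂μ = 0 ∧
    ∫⁻ ω, (∫⁻ r in Ioc s (σ ω), ‖ϑ ω • Z r ω - θ ω‖ₑ ^ 2) ∂μ ≤
      ∫⁻ ω, ‖ϑ ω * (I (σ ω) ω - I s ω) - inner ℝ (θ ω) (B (σ ω) ω - B s ω)‖ₑ ^ 2 ∂μ := by
  obtain ⟨H₀, hH1₀, hH2₀⟩ := hI.approx
  obtain ⟨Cϑ, hCϑ⟩ := hϑb
  -- pass to a subsequence
  obtain ⟨ns, hns, hae1⟩ := hH1₀.exists_seq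
  have hH2' : TendstoZero μ (fun n ω => ⨆ t ∈ Icc 0 T,
      ‖(H₀ (ns n)).integral B t ω - I t ω‖ₑ) := hH2₀.comp hns
  obtain ⟨ms, hms, hae2⟩ := hH2'.exists_seq
  obtain ⟨H, hHdef⟩ : ∃ H : ℕ → Elementary F T d, H = fun n => H₀ (ns (ms n)) := ⟨_, rfl⟩
  have ae1 : ∀ᵐ ω ∂μ, Tendsto (fun n => ∫⁻ r in Icc 0 T, ‖(H n).val r ω - Z r ω‖ₑ ^ 2) atTop
      (𝓝 0) := by
    rw [hHdef]
    filter_upwards [hae1] with ω hω
    exact hω.comp hms.tendsto_atTop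
  have ae2 : ∀ᵐ ω ∂μ, Tendsto (fun n => ⨆ t ∈ Icc 0 T, ‖(H n).integral B t ω - I t ω‖ₑ) atTop
      (𝓝 0) := by
    rw [hHdef]; exact hae2
  clear hHdef hae1 hae2 hH1₀ hH2₀ hH2' hns hms
  -- the elementary approximations
  choose p hpS hp1 hp2 using fun n => approx_pair (B := B) hT (H n) hs hϑ ⟨Cϑ, hCϑ⟩ hθ hθb
  have hpN : ∀ n, Nice F μ (T + 1) (p n) := fun n => span_nice hB (by linarith) (hpS n)
  -- stopping times
  choose ρ hρS hρs hρae using fun n => hit_pair hB hT (hpS n) hs (C + 1)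
  have hτS : ∀ n, IsStop F T (fun ω => min (σ ω) (ρ n ω)) := fun n => hσ.min (hρS n)
  have hτs : ∀ n ω, s ≤ min (σ ω) (ρ n ω) := fun n ω => le_min (hsσ ω) (hρs n ω)
  -- bound
  have hbd : ∀ᵐ ω ∂μ, ∀ n, |(p n).2 (min (σ ω) (ρ n ω)) ω| ≤ C + 1 := by
    rw [ae_all_iff]
    intro n
    filter_upwards [hρae n] with ω hω
    refine hω.2.2 ?_ _ ⟨hτs n ω, min_le_right _ _⟩
    rw [hp2 n s (left_mem_Icc.2 hs.2)]
    simp; linarith
  -- eventually `τ n = σ`, and convergence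
  have hev : ∀ᵐ ω ∂μ, (∀ᶠ n in atTop, min (σ ω) (ρ n ω) = σ ω) ∧
      Tendsto (fun n => (p n).2 (min (σ ω) (ρ n ω)) ω) atTop
        (𝓝 (ϑ ω * (I (σ ω) ω - I s ω) - inner ℝ (θ ω) (B (σ ω) ω - B s ω))) := by
    filter_upwards [ae2, hX, ae_all_iff.2 hρae] with ω hω2 hωX hωρ
    obtain ⟨D, hD⟩ : ∃ D : ℕ → ℝ≥0∞, D = fun n => ⨆ t ∈ Icc 0 T,
      ‖(H n).integral B t ω - I t ω‖ₑ := ⟨_, rfl⟩
    rw [← hD] at hω2
    have hDle : ∀ n, ∀ t ∈ Icc 0 T, ‖(H n).integral B t ω - I t ω‖ₑ ≤ D n := fun n t ht => by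
      rw [hD]
      exact le_iSup₂ (f := fun t (_ : t ∈ Icc 0 T) => ‖(H n).integral B t ω - I t ω‖ₑ) t ht
    have hDfin : ∀ᶠ n in atTop, D n ≠ ⊤ := by
      have : ∀ᶠ n in atTop, D n < 1 := hω2.eventually_lt_const (by norm_num)
      filter_upwards [this] with n hn
      exact (hn.trans ENNReal.one_lt_top).ne
    have hDt : Tendsto (fun n => 2 * Cϑ * (D n).toReal) atTop (𝓝 0) := by
      have := (ENNReal.tendsto_toReal ENNReal.zero_ne_top).comp hω2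
      simpa using this.const_mul (2 * Cϑ)
    have hevn : ∀ᶠ n in atTop, min (σ ω) (ρ n ω) = σ ω ∧
        |(p n).2 (σ ω) ω - (ϑ ω * (I (σ ω) ω - I s ω) - inner ℝ (θ ω) (B (σ ω) ω - B s ω))| ≤
          2 * Cϑ * (D n).toReal := by
      filter_upwards [hDfin, hDt.eventually_lt_const (show (0 : ℝ) < 1 by norm_num)] with n h1 h2
      exact path_aux (J := fun t => (H n).integral B t ω) (Iω := fun t => I t ω)
        (β := fun r => inner ℝ (θ ω) (B r ω - B s ω)) (P := fun r => (p n).2 r ω) hs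
        (hσ.1 ω).2 (hρs n ω) (hsσ ω) (hCϑ ω) (hDle n) (fun r hr => hp2 n r hr ω) h1 h2 hωX
        (hωρ n).2.1
    refine ⟨hevn.mono fun n hn => hn.1, ?_⟩
    rw [tendsto_iff_dist_tendsto_zero]
    refine squeeze_zero' (Eventually.of_forall fun n => dist_nonneg) ?_ hDt
    filter_upwards [hevn] with n hn
    rw [hn.1, Real.dist_eq]
    exact hn.2
  have hst := fun n => stop_elem hB hT (hτS n) (hpS n)
  have hXm : AEStronglyMeasurable (fun ω => ϑ ω * (I (σ ω) ω - I s ω) -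
      inner ℝ (θ ω) (B (σ ω) ω - B s ω)) μ :=
    aestronglyMeasurable_of_tendsto_ae atTop (fun n => (hst n).1.1)
      (hev.mono fun ω hω => hω.2)
  have hint : Tendsto (fun n => ∫ ω, (p n).2 (min (σ ω) (ρ n ω)) ω ∂μ) atTop
      (𝓝 (∫ ω, (ϑ ω * (I (σ ω) ω - I s ω) - inner ℝ (θ ω) (B (σ ω) ω - B s ω)) ∂μ)) := by
    refine tendsto_integral_of_dominated_convergence (fun _ => C + 1) (fun n => (hst n).1.1)
      (integrable_const _) (fun n => ?_) (hev.mono fun ω hω => hω.2)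
    filter_upwards [hbd] with ω hω
    exact hω n
  have hsq : Tendsto (fun n => ∫⁻ ω, ‖(p n).2 (min (σ ω) (ρ n ω)) ω‖ₑ ^ 2 ∂μ) atTop
      (𝓝 (∫⁻ ω, ‖ϑ ω * (I (σ ω) ω - I s ω) -
        inner ℝ (θ ω) (B (σ ω) ω - B s ω)‖ₑ ^ 2 ∂μ)) := by
    refine tendsto_lintegral_of_dominated_convergence' (fun _ => ENNReal.ofReal (C + 1) ^ 2)
      (fun n => ((hst n).1.1.enorm).pow_const 2) (fun n => ?_) ?_ ?_
    · filter_upwards [hbd] with ω hω
      refine pow_le_pow_left₀ bot_le ?_ 2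
      rw [Real.enorm_eq_ofReal_abs]
      exact ENNReal.ofReal_le_ofReal (hω n)
    · simp
    · filter_upwards [hev] with ω hω
      exact ((ENNReal.continuous_pow 2).tendsto _).comp
          ((continuous_enorm.tendsto _).comp hω.2)
  refine ⟨hXm, ?_, ?_⟩
  · refine tendsto_nhds_unique hint ?_
    simp_rw [(hst _).2.1]
    exact tendsto_const_nhds
  · rw [← hsq.liminf_eq]
    simp_rw [(hst _).2.2]
    refine le_trans (lintegral_mono_ae ?_) (lintegral_liminf_le' fun n =>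
      aemeasurable_inner_lintegral (hpN n).meas (hτS n).measurable)
    filter_upwards [ae1, hev] with ω hω1 hωev
    refine (fatou_section hT hZ hs (H := H) (p := fun n => (p n).1) (fun n => (hpN n).meas)
      (hσ.1 ω).2 ω (fun n r hr => hp1 n r hr ω) hω1).trans ?_
    refine liminf_le_liminf ?_
    filter_upwards [hωev.1] with n hn
    rw [hn]
    exact lintegral_mono_set (Ioc_subset_Ioc_left hs.1)

end

end BSDE
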