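import Pool.Agent.H32.BSDE.Lower

open MeasureTheory ProbabilityTheory Filter Set
open scoped ENNReal NNReal Topology

namespace BSDE

variable {Ω : Type*} {m : MeasurableSpace Ω} {d : ℕ}

lemma gen_lower {u K q β : ℝ} (hu : 0 ≤ u) (hK : 0 < K) (hq : 0 ≤ q) (hqβ : q ≤ β) :
    min u K ≤ √(Real.log (Real.exp 1 + β * K)) * (u / √(Real.log (Real.exp 1 + q * u))) := by
  have hβ : 0 ≤ β := hq.trans hqβ
  have hℓ1 : 1 ≤ Real.log (Real.exp 1 + β * K) := one_le_log (by positivity)
  have hm1 : 1 ≤ Real.log (Real.exp 1 + q * u) := one_le_log (by positivity)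
  have hm0 : 0 < √(Real.log (Real.exp 1 + q * u)) := Real.sqrt_pos.2 (by linarith)
  rw [← mul_div_assoc, le_div_iff₀ hm0]
  rcases le_total u K with h | h
  · rw [min_eq_left h, mul_comm]
    refine mul_le_mul_of_nonneg_right (Real.sqrt_le_sqrt ?_) hu
    refine Real.log_le_log (by positivity) ?_
    have : q * u ≤ β * K := mul_le_mul hqβ h hu hβ
    linarith
  · rw [min_eq_right h]
    set v := u / K with hv
    have hv1 : 1 ≤ v := by rw [hv, le_div_iff₀ hK]; linarith
    have huv : u = v * K := by rw [hv]; field_simp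
    have h1 : Real.log (Real.exp 1 + q * u) ≤ v ^ 2 * Real.log (Real.exp 1 + β * K) := by
      have h2 : Real.exp 1 + q * u ≤ v * (Real.exp 1 + β * K) := by
        rw [huv, mul_add]
        have h3 : Real.exp 1 ≤ v * Real.exp 1 := by
          have := Real.exp_pos 1
          nlinarith
        have h4 : q * (v * K) ≤ v * (β * K) := by
          have : q * (v * K) ≤ β * (v * K) := mul_le_mul_of_nonneg_right hqβ (by positivity)
          linarith
        linarith
      calc Real.log (Real.exp 1 + q * u) ≤ Real.log (v * (Real.exp 1 + β * K)) :=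
            Real.log_le_log (by positivity) h2
        _ = Real.log v + Real.log (Real.exp 1 + β * K) :=
            Real.log_mul (by linarith) (by positivity)
        _ ≤ (v - 1) + Real.log (Real.exp 1 + β * K) := by
            have := Real.log_le_sub_one_of_pos (show 0 < v by linarith)
            linarith
        _ ≤ v ^ 2 * Real.log (Real.exp 1 + β * K) := by
            have h5 : (v - 1) * 1 ≤ (v - 1) * Real.log (Real.exp 1 + β * K) :=
              mul_le_mul_of_nonneg_left hℓ1 (by linarith)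
            have h6 : v * Real.log (Real.exp 1 + β * K) ≤
                v ^ 2 * Real.log (Real.exp 1 + β * K) :=
              mul_le_mul_of_nonneg_right (by nlinarith) (by linarith)
            linarith
    calc K * √(Real.log (Real.exp 1 + q * u))
        ≤ K * √(v ^ 2 * Real.log (Real.exp 1 + β * K)) := by
          refine mul_le_mul_of_nonneg_left (Real.sqrt_le_sqrt h1) hK.le
      _ = K * (v * √(Real.log (Real.exp 1 + β * K))) := by
          rw [Real.sqrt_mul (by positivity), Real.sqrt_sq (by linarith)]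
      _ = √(Real.log (Real.exp 1 + β * K)) * u := by rw [huv]; ring

lemma pointwise_gen {z e : E d} (he : ‖e‖ = 1) {K q β lam : ℝ} (hK : 0 < K) (hq : 0 < q)
    (hqβ : q ≤ β) (hlam : 0 < lam) :
    K - 1 / (2 * lam) ≤ √(Real.log (Real.exp 1 + β * K)) * (1 / q * gen z) +
      lam / 2 * ‖(1 / q) • z - K • e‖ ^ 2 := by
  set u := ‖(1 / q) • z‖ with hu
  have hzu : ‖z‖ = q * u := by
    rw [hu, norm_smul, Real.norm_of_nonneg (by positivity)]
    field_simp
  have h1 := gen_lower (norm_nonneg ((1 / q) • z)) hK hq.le hqβ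
  rw [← hu] at h1
  have h2 : 1 / q * gen z = u / √(Real.log (Real.exp 1 + q * u)) := by
    unfold gen
    rw [hzu]
    field_simp
  rw [h2]
  have h3 : K ≤ min u K + ‖(1 / q) • z - K • e‖ := by
    rcases le_total K u with h | h
    · rw [min_eq_right h]
      have := norm_nonneg ((1 / q) • z - K • e)
      linarith
    · rw [min_eq_left h]
      have h4 : K = ‖K • e‖ := by rw [norm_smul, he, Real.norm_of_nonneg hK.le, mul_one]
      have h5 := norm_le_norm_add_norm_sub ((1 / q) • z) (K • e)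
      rw [← h4] at h5
      exact h5
  have h6 : ‖(1 / q) • z - K • e‖ ≤ lam / 2 * ‖(1 / q) • z - K • e‖ ^ 2 + 1 / (2 * lam) := by
    set y := ‖(1 / q) • z - K • e‖
    have h7 : 0 ≤ (lam * y - 1) ^ 2 / (2 * lam) := by positivity
    have h8 : (lam * y - 1) ^ 2 / (2 * lam) = lam / 2 * y ^ 2 + 1 / (2 * lam) - y := by
      field_simp; ring
    linarith
  linarith

/-- final numerical contradiction -/
lemma numeric {γ Λ δ ℓ η : ℝ} (hγ : 0 ≤ γ) (hδ : 0 < δ) (hδ1 : δ ≤ 1) (hℓ : 1 ≤ ℓ)
    (hη : η = 1 / 400 * √(δ / ℓ)) (hΛ : Λ = √η)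
    (h : (1 / √δ - 1 / (2 * (√δ / Λ))) * (δ * γ * (3 / 16 - Λ)) ≤
      √ℓ * (η * γ) + (√δ / Λ) / 2 * (η * γ)) : γ = 0 := by
  have hsδ : 0 < √δ := Real.sqrt_pos.2 hδ
  have hsδ1 : √δ ≤ 1 := Real.sqrt_le_one.2 hδ1
  have hsℓ : 1 ≤ √ℓ := by rw [Real.one_le_sqrt]; exact hℓ
  have hη' : √ℓ * η = 1 / 400 * √δ := by
    rw [hη, Real.sqrt_div hδ.le]; field_simp
  have hη0 : 0 < η := by rw [hη]; have : 0 < ℓ := by linarith
                         positivity
  have hΛ0 : 0 < Λ := by rw [hΛ]; exact Real.sqrt_pos.2 hη0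
  have hΛ2 : Λ ^ 2 = η := by rw [hΛ, Real.sq_sqrt hη0.le]
  have hη1 : η ≤ 1 / 400 := by
    have : η ≤ √ℓ * η := le_mul_of_one_le_left hη0.le hsℓ
    rw [hη'] at this
    nlinarith
  have hΛ1 : Λ ≤ 1 / 20 := by
    have : Λ ^ 2 ≤ (1 / 20) ^ 2 := by rw [hΛ2]; linarith
    exact (pow_le_pow_iff_left₀ hΛ0.le (by norm_num) (by norm_num)).1 this
  have hδsq : √δ * √δ = δ := Real.mul_self_sqrt hδ.le
  have e1 : (1 / √δ - 1 / (2 * (√δ / Λ))) * (δ * γ * (3 / 16 - Λ)) =
      √δ * (γ * ((1 - Λ / 2) * (3 / 16 - Λ))) := by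
    have e0 : (1 / √δ - 1 / (2 * (√δ / Λ))) * (√δ * √δ * γ * (3 / 16 - Λ)) =
      √δ * (γ * ((1 - Λ / 2) * (3 / 16 - Λ))) := by field_simp
    rwa [hδsq] at e0
  have e2 : √ℓ * (η * γ) + (√δ / Λ) / 2 * (η * γ) = √δ * (γ * (1 / 400 + Λ / 2)) := by
    have h1 : √ℓ * (η * γ) = 1 / 400 * √δ * γ := by rw [← mul_assoc, hη']
    rw [h1, ← hΛ2]; field_simp
  rw [e1, e2] at h
  have h3 := le_of_mul_le_mul_left h hsδ
  have h4 : (1 - Λ / 2) * (3 / 16 - Λ) - (1 / 400 + Λ / 2) ≥ 1 / 20 := by nlinarith
  nlinarith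

section
variable {F : Filtration ℝ m} {μ : Measure Ω} {T : ℝ} {B : ℝ → Ω → E d}
  {ξ : Ω → ℝ} {Y : ℝ → Ω → ℝ} {Z : ℝ → Ω → E d} {I : ℝ → Ω → ℝ}

/-- expected duration of a block on an event `G ∈ F_s` -/
lemma block_duration [IsProbabilityMeasure μ] (hB : FBM F B μ) (hT : 0 ≤ T) {e : E d}
    (he : ‖e‖ = 1) {s δ : ℝ} (hs : 0 ≤ s) (hδ : 0 < δ) (hsT : s + δ ≤ T) {τ R : Ω → ℝ}
    (hb : Block F μ B e T s δ τ R) {G : Set Ω} (hG : MeasurableSet[F s] G) :
    3 / 16 * δ * μ.real G ≤ ∫ ω, G.indicator (fun ω => τ ω - s) ω ∂μ := by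
  have hGm : MeasurableSet G := F.le _ _ hG
  have hsI : s ∈ Icc 0 T := ⟨hs, by linarith⟩
  have hτm : Measurable τ := hb.stop.measurable
  have hst : IsStop F T (fun ω => min (τ ω) (s + δ / 4)) :=
    hb.stop.min (isStop_const ⟨by linarith, by linarith⟩)
  have h1 := (stop_W hB hT he hsI (ψ := G.indicator fun _ => 1)
    (measurable_const.indicator hG) ⟨1, fun ω => by
      by_cases h : ω ∈ G
      · rw [indicator_of_mem h]; simp
      · rw [indicator_of_notMem h]; simp⟩ hst (fun ω => le_min (hb.ge ω) (by linarith))).2.2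
  set L : Set Ω := G ∩ {ω | τ ω ≤ s + δ / 4} with hL
  have hLm : MeasurableSet L := hGm.inter (measurableSet_le hτm measurable_const)
  have h2 : ENNReal.ofReal δ * μ L ≤ ENNReal.ofReal (δ / 4) * μ G := by
    calc ENNReal.ofReal δ * μ L = ∫⁻ ω, L.indicator (fun _ => ENNReal.ofReal δ) ω ∂μ := by
          rw [lintegral_indicator_const hLm]
      _ ≤ ∫⁻ ω, ‖G.indicator (fun _ => (1 : ℝ)) ω *
            inner ℝ e (B (min (τ ω) (s + δ / 4)) ω - B s ω)‖ₑ ^ 2 ∂μ := by
          refine lintegral_mono_ae ?_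
          filter_upwards [hb.exit] with ω hω
          by_cases h : ω ∈ L
          · rw [indicator_of_mem h, indicator_of_mem h.1, one_mul, min_eq_left h.2]
            have h3 : τ ω < s + δ := lt_of_le_of_lt h.2 (by linarith)
            have h4 := hω h3
            have h5 : δ ≤ |inner ℝ e (B (τ ω) ω - B s ω)| ^ 2 := by
              calc δ = √δ ^ 2 := (Real.sq_sqrt hδ.le).symm
                _ ≤ _ := pow_le_pow_left₀ (Real.sqrt_nonneg _) h4 2
            rw [Real.enorm_eq_ofReal_abs, ← ENNReal.ofReal_pow (abs_nonneg _)]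
            exact ENNReal.ofReal_le_ofReal h5
          · rw [indicator_of_notMem h]; exact bot_le
      _ = ∫⁻ ω, ‖G.indicator (fun _ => (1 : ℝ)) ω‖ₑ ^ 2 *
            ENNReal.ofReal (min (τ ω) (s + δ / 4) - s) ∂μ := h1
      _ ≤ ∫⁻ ω, G.indicator (fun _ => ENNReal.ofReal (δ / 4)) ω ∂μ := by
          refine lintegral_mono fun ω => ?_
          by_cases h : ω ∈ G
          · rw [indicator_of_mem h, indicator_of_mem h]
            simp only [enorm_one, one_pow, one_mul]
            refine ENNReal.ofReal_le_ofReal ?_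
            have := min_le_right (τ ω) (s + δ / 4)
            linarith
          · rw [indicator_of_notMem h]; simp
      _ = _ := lintegral_indicator_const hGm _
  have h3 : μ.real L ≤ μ.real G / 4 := by
    have h4 := ENNReal.toReal_mono (ENNReal.mul_ne_top ENNReal.ofReal_ne_top
      (measure_ne_top μ G)) h2
    rw [ENNReal.toReal_mul, ENNReal.toReal_mul, ENNReal.toReal_ofReal hδ.le,
      ENNReal.toReal_ofReal (by linarith)] at h4
    change δ * μ.real L ≤ δ / 4 * μ.real G at h4
    nlinarith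
  have hint : Integrable (fun ω => G.indicator (fun ω => τ ω - s) ω) μ := by
    refine Integrable.of_bound ((hτm.sub_const s).indicator hGm).aestronglyMeasurable δ ?_
    filter_upwards with ω
    by_cases h : ω ∈ G
    · rw [indicator_of_mem h, Real.norm_of_nonneg (by linarith [hb.ge ω])]
      linarith [hb.le ω]
    · rw [indicator_of_notMem h]; simp; linarith
  calc 3 / 16 * δ * μ.real G ≤ δ / 4 * (μ.real G - μ.real L) := by nlinarith
    _ = ∫ ω, (G.indicator (fun _ => δ / 4) ω - L.indicator (fun _ => δ / 4) ω) ∂μ := by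
        rw [integral_sub ((integrable_const _).indicator hGm) ((integrable_const _).indicator hLm),
          integral_indicator_const _ hGm, integral_indicator_const _ hLm]
        simp only [smul_eq_mul]; ring
    _ ≤ _ := by
        refine integral_mono (((integrable_const _).indicator hGm).sub
          ((integrable_const _).indicator hLm)) hint fun ω => ?_
        by_cases h : ω ∈ G
        · by_cases h' : ω ∈ L
          · simp only [indicator_of_mem h, indicator_of_mem h']
            linarith [hb.ge ω]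
          · simp only [indicator_of_mem h, indicator_of_notMem h']
            have : ¬ τ ω ≤ s + δ / 4 := fun h'' => h' ⟨h, h''⟩
            linarith [not_le.1 this]
        · have h' : ω ∉ L := fun h'' => h h''.1
          simp only [indicator_of_notMem h, indicator_of_notMem h']
          simp

end

end BSDE
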