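import Pool.Agent.H32.BSDE.Key

open MeasureTheory ProbabilityTheory Filter Set
open scoped ENNReal NNReal Topology

namespace BSDE

variable {Ω : Type*} {m : MeasurableSpace Ω} {d : ℕ}

section
variable {F : Filtration ℝ m} {μ : Measure Ω} {T : ℝ} {B : ℝ → Ω → E d}
  {ξ : Ω → ℝ} {Y : ℝ → Ω → ℝ} {Z : ℝ → Ω → E d} {I : ℝ → Ω → ℝ}

/-- the pathwise integrated form of `pointwise_gen` -/
lemma path_gen (hT : 0 ≤ T) (hZ : Progressive F T Z) {e : E d} (he : ‖e‖ = 1) {K q β lam : ℝ}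
    (hK : 0 < K) (hq : 0 < q) (hqβ : q ≤ β) (hlam : 0 < lam) {s σ : ℝ} (hs : 0 ≤ s) (hσ : σ ≤ T)
    (ω : Ω) :
    ENNReal.ofReal (K - 1 / (2 * lam)) * ENNReal.ofReal (σ - s) ≤
      ENNReal.ofReal (√(Real.log (Real.exp 1 + β * K))) *
        (ENNReal.ofReal (1 / q) * ∫⁻ r in Ioc s σ, ENNReal.ofReal (gen (Z r ω))) +
      ENNReal.ofReal (lam / 2) * ∫⁻ r in Ioc s σ, ‖(1 / q) • Z r ω - K • e‖ₑ ^ 2 := by
  have hsub : Ioc s σ ⊆ Icc 0 T := fun r hr => ⟨hs.trans hr.1.le, hr.2.trans hσ⟩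
  have hZm : AEMeasurable (fun r => Z r ω) (volume.restrict (Ioc s σ)) :=
    AEMeasurable.mono_measure (hZ.section_aesm hT ω) (Measure.restrict_mono hsub le_rfl)
  have hgm : AEMeasurable (fun r => ENNReal.ofReal (gen (Z r ω))) (volume.restrict (Ioc s σ)) :=
    (measurable_gen.comp_aemeasurable hZm).ennreal_ofReal
  have hnm : AEMeasurable (fun r => ‖(1 / q) • Z r ω - K • e‖ₑ ^ 2)
      (volume.restrict (Ioc s σ)) :=
    (((hZm.const_smul (1 / q)).sub aemeasurable_const).enorm).pow_const 2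
  rw [← mul_assoc, ← lintegral_const_mul'' _ hgm, ← lintegral_const_mul'' _ hnm,
    ← lintegral_add_left' (hgm.const_mul _), ← Real.volume_Ioc (a := s) (b := σ), ← setLIntegral_const]
  refine lintegral_mono fun r => ?_
  have h := pointwise_gen (z := Z r ω) he hK hq hqβ hlam
  calc ENNReal.ofReal (K - 1 / (2 * lam))
      ≤ ENNReal.ofReal (√(Real.log (Real.exp 1 + β * K)) * (1 / q * gen (Z r ω)) +
        lam / 2 * ‖(1 / q) • Z r ω - K • e‖ ^ 2) := ENNReal.ofReal_le_ofReal h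
    _ ≤ _ := by
        rw [ENNReal.ofReal_add (mul_nonneg (Real.sqrt_nonneg _)
          (mul_nonneg (by positivity) (gen_nonneg _))) (by positivity),
          ENNReal.ofReal_mul (Real.sqrt_nonneg _), ENNReal.ofReal_mul (by positivity),
          ENNReal.ofReal_mul (by positivity), ENNReal.ofReal_pow (norm_nonneg _), ofReal_norm,
          mul_assoc]

theorem key_aux [IsProbabilityMeasure μ] (hS : Setup F μ B T ξ Y Z I) {e : E d}
    (he : ‖e‖ = 1) {s δ : ℝ} (hs : 0 ≤ s) (hδ : 0 < δ) (hδ1 : δ ≤ 1) (hsT : s + δ ≤ T)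
    {τ R : Ω → ℝ} (hb : Block F μ B e T s δ τ R) {P : Ω → ℝ} (hP : Measurable[F s] P)
    (hP0 : ∀ ω, 0 ≤ P ω) {pb : ℝ} (hPb : ∀ ω, P ω ≤ pb) {b β : ℝ} (hb0 : 0 < b)
    (hβ : b * pb ≤ β) (hY : ∀ᵐ ω ∂μ, b * P ω * R ω ≤ Y (s + δ) ω) {p0 : ℝ} (hp0 : 0 < p0) :
    μ {ω | Y s ω < b * P ω *
      (1 + 1 / 400 * √(δ / Real.log (Real.exp 1 + β * (1 / √δ)))) ∧ p0 ≤ P ω} = 0 := by
  classical
  have hB := hS.fbm
  have hT := hS.T0
  have hsI : s ∈ Icc 0 T := ⟨hs, by linarith⟩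
  obtain ⟨K, hKdef⟩ : ∃ K, K = 1 / √δ := ⟨_, rfl⟩
  rw [← hKdef]
  obtain ⟨ℓ, hℓdef⟩ : ∃ ℓ, ℓ = Real.log (Real.exp 1 + β * K) := ⟨_, rfl⟩
  rw [← hℓdef]
  obtain ⟨η, hη⟩ : ∃ η, η = 1 / 400 * √(δ / ℓ) := ⟨_, rfl⟩
  rw [← hη]
  obtain ⟨Λ, hΛ⟩ : ∃ Λ, Λ = √η := ⟨_, rfl⟩
  obtain ⟨G, hGdef⟩ : ∃ G : Set Ω, G = {ω | Y s ω < b * P ω * (1 + η) ∧ p0 ≤ P ω} := ⟨_, rfl⟩
  rw [← hGdef]
  by_cases hGne : G = ∅
  · rw [hGne]; simp
  obtain ⟨ω₀, hω₀⟩ := Set.nonempty_iff_ne_empty.2 hGne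
  rw [hGdef] at hω₀
  have hpb0 : 0 < pb := hp0.trans_le (hω₀.2.trans (hPb ω₀))
  have hβ0 : 0 < β := lt_of_lt_of_le (by positivity) hβ
  -- elementary facts on constants
  have hsδ : 0 < √δ := Real.sqrt_pos.2 hδ
  have hsδ1 : √δ ≤ 1 := Real.sqrt_le_one.2 hδ1
  have hK : 0 < K := by rw [hKdef]; positivity
  have hℓ1 : 1 ≤ ℓ := by rw [hℓdef]; exact one_le_log (by positivity)
  have hsℓ : 1 ≤ √ℓ := by rw [Real.one_le_sqrt]; exact hℓ1
  have hη0 : 0 < η := by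
    rw [hη]
    have : 0 < ℓ := by linarith
    positivity
  have hΛ0 : 0 < Λ := by rw [hΛ]; exact Real.sqrt_pos.2 hη0
  have hΛ2 : Λ * Λ = η := by rw [hΛ, Real.mul_self_sqrt hη0.le]
  have hη1 : η ≤ 1 / 400 := by
    have h1 : √(δ / ℓ) ≤ 1 := by
      rw [Real.sqrt_le_one, div_le_one (by linarith)]
      linarith
    rw [hη]; linarith
  have hΛ1 : Λ ≤ 1 := by
    rw [hΛ, Real.sqrt_le_one]; linarith
  have hηΛ : η ≤ Λ := by nlinarith
  -- measurability
  have hYs : Measurable[F s] (Y s) := hS.progY.adapted hsI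
  have hGs : MeasurableSet[F s] G := by
    rw [hGdef]
    exact (measurableSet_lt hYs ((hP.const_mul b).mul_const _)).inter
      (measurableSet_le measurable_const hP)
  have hGm : MeasurableSet G := F.le _ _ hGs
  obtain ⟨ϑ, hϑdef⟩ : ∃ ϑ : Ω → ℝ, ϑ = G.indicator (fun ω => 1 / (b * P ω)) := ⟨_, rfl⟩
  obtain ⟨θ, hθdef⟩ : ∃ θ : Ω → E d, θ = G.indicator (fun _ => K • e) := ⟨_, rfl⟩
  obtain ⟨u, hudef⟩ : ∃ u : Ω → ℝ, u = G.indicator (fun _ => 1) := ⟨_, rfl⟩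
  have hϑG : ∀ ω ∈ G, ϑ ω = 1 / (b * P ω) := fun ω h => by rw [hϑdef, indicator_of_mem h]
  have hϑN : ∀ ω, ω ∉ G → ϑ ω = 0 := fun ω h => by rw [hϑdef, indicator_of_notMem h]
  have hθG : ∀ ω ∈ G, θ ω = K • e := fun ω h => by rw [hθdef, indicator_of_mem h]
  have hθN : ∀ ω, ω ∉ G → θ ω = 0 := fun ω h => by rw [hθdef, indicator_of_notMem h]
  have huG : ∀ ω ∈ G, u ω = 1 := fun ω h => by rw [hudef, indicator_of_mem h]
  have huN : ∀ ω, ω ∉ G → u ω = 0 := fun ω h => by rw [hudef, indicator_of_notMem h]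
  have hPG : ∀ ω ∈ G, p0 ≤ P ω := fun ω h => by rw [hGdef] at h; exact h.2
  have hYG : ∀ ω ∈ G, Y s ω < b * P ω * (1 + η) := fun ω h => by rw [hGdef] at h; exact h.1
  have hϑm : Measurable[F s] ϑ := by
    rw [hϑdef]
    exact ((hP.const_mul b).const_div 1).indicator hGs
  have hθm : Measurable[F s] θ := by rw [hθdef]; exact measurable_const.indicator hGs
  have hum : Measurable[F s] u := by rw [hudef]; exact measurable_const.indicator hGs
  have hϑ0 : ∀ ω, 0 ≤ ϑ ω := fun ω => by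
    by_cases h : ω ∈ G
    · rw [hϑG ω h]
      have := hp0.trans_le (hPG ω h)
      positivity
    · rw [hϑN ω h]
  have hϑb : ∀ ω, |ϑ ω| ≤ 1 / (b * p0) := fun ω => by
    by_cases h : ω ∈ G
    · rw [abs_of_nonneg (hϑ0 ω), hϑG ω h]
      exact one_div_le_one_div_of_le (by positivity)
        (mul_le_mul_of_nonneg_left (hPG ω h) hb0.le)
    · rw [hϑN ω h, abs_zero]; positivity
  have hθb : ∀ ω, ‖θ ω‖ ≤ K := fun ω => by
    by_cases h : ω ∈ G
    · rw [hθG ω h, norm_smul, he, mul_one, Real.norm_of_nonneg hK.le]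
    · rw [hθN ω h, norm_zero]; exact hK.le
  have hu0 : ∀ ω, 0 ≤ u ω := fun ω => by
    by_cases h : ω ∈ G
    · rw [huG ω h]; norm_num
    · rw [huN ω h]
  have hu1 : ∀ ω, u ω ≤ 1 := fun ω => by
    by_cases h : ω ∈ G
    · rw [huG ω h]
    · rw [huN ω h]; norm_num
  have hub : ∀ ω, |u ω| ≤ 1 := fun ω => by rw [abs_of_nonneg (hu0 ω)]; exact hu1 ω
  -- the process `X`
  obtain ⟨X, hXdef⟩ : ∃ X : ℝ → Ω → ℝ, X = fun r ω => ϑ ω * (I r ω - I s ω) -
    inner ℝ (θ ω) (B r ω - B s ω) := ⟨_, rfl⟩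
  have hXv : ∀ r ω, X r ω = ϑ ω * (I r ω - I s ω) - inner ℝ (θ ω) (B r ω - B s ω) :=
    fun r ω => by rw [hXdef]
  have hXN : ∀ r ω, ω ∉ G → X r ω = 0 := fun r ω h => by
    rw [hXv, hϑN ω h, hθN ω h]; simp
  have hXs : ∀ ω, X s ω = 0 := fun ω => by rw [hXv]; simp
  have hlow := lower_path hS he hs hδ hsT hb hP hP0 hPb hb0 hY
  have hpath := sol_path (μ := μ) hT hS.progZ hS.sq hS.eqn
  have hXlow : ∀ᵐ ω ∂μ, ∀ r ∈ Icc s (τ ω), -(η * u ω) ≤ X r ω := by
    filter_upwards [hlow, hpath] with ω h1 h2 r hr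
    by_cases h : ω ∈ G
    · have hrT : r ≤ T := hr.2.trans ((hb.le ω).trans hsT)
      have h3 := h1 r ⟨hr.1, hr.2.trans (hb.le ω)⟩
      rw [min_eq_right hr.2] at h3
      have h4 := (h2 s r hs hr.1 hrT).2
      have h5 : Y r ω - Y s ω ≤ I r ω - I s ω := by
        have : (0 : ℝ) ≤ (∫⁻ r in Ioc s r, ENNReal.ofReal (gen (Z r ω))).toReal :=
          ENNReal.toReal_nonneg
        linarith
      have hbP : 0 < b * P ω := mul_pos hb0 (hp0.trans_le (hPG ω h))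
      have h6 : 1 + inner ℝ e (B r ω - B s ω) / √δ ≤ ϑ ω * Y r ω := by
        rw [hϑG ω h, one_div, inv_mul_eq_div, le_div_iff₀ hbP]; linarith
      have h7 : ϑ ω * Y s ω ≤ 1 + η := by
        rw [hϑG ω h, one_div, inv_mul_eq_div, div_le_iff₀ hbP]
        linarith [hYG ω h]
      have h8 : ϑ ω * (Y r ω - Y s ω) ≤ ϑ ω * (I r ω - I s ω) :=
        mul_le_mul_of_nonneg_left h5 (hϑ0 ω)
      have h9 : inner ℝ (θ ω) (B r ω - B s ω) = inner ℝ e (B r ω - B s ω) / √δ := by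
        rw [hθG ω h, real_inner_smul_left, hKdef]; ring
      rw [hXv, h9, huG ω h]
      linarith
    · rw [hXN r ω h, huN ω h]; simp
  -- hitting time of level `Λ`
  obtain ⟨ρ, hρS, hρs, hρae⟩ := exists_hit (μ := μ) hB.null (X := X) hs hsI.2 Λ (by
      intro r hr
      have h1 : Measurable[F r] (I r) := hS.ito.adapted r ⟨hs.trans hr.1, hr.2⟩
      have h2 : Measurable[F r] (I s) := (hS.ito.adapted s hsI).mono (F.mono hr.1) le_rfl
      have h3 : Measurable[F r] ϑ := hϑm.mono (F.mono hr.1) le_rfl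
      have h4 : Measurable[F r] θ := hθm.mono (F.mono hr.1) le_rfl
      have h5 : Measurable[F r] (B r) := hB.adapted r (hs.trans hr.1)
      have h6 : Measurable[F r] (B s) := (hB.adapted s hs).mono (F.mono hr.1) le_rfl
      rw [hXdef]
      exact (h3.mul (h1.sub h2)).sub (Measurable.inner h4 (h5.sub h6))) (by
      filter_upwards [hS.ito.continuous, hB.cont] with ω h1 h2
      rw [hXdef]
      exact (continuousOn_const.mul ((h1.mono fun x hx => ⟨hs.trans hx.1, hx.2⟩).sub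
        continuousOn_const)).sub (continuousOn_const.inner
        ((h2.mono fun x hx => hs.trans hx.1).sub continuousOn_const)))
  obtain ⟨σ, hσdef⟩ : ∃ σ : Ω → ℝ, σ = fun ω => min (τ ω) (ρ ω) := ⟨_, rfl⟩
  have hσS : IsStop F T σ := by rw [hσdef]; exact hb.stop.min hρS
  have hσs : ∀ ω, s ≤ σ ω := fun ω => by rw [hσdef]; exact le_min (hb.ge ω) (hρs ω)
  have hστ : ∀ ω, σ ω ≤ τ ω := fun ω => by rw [hσdef]; exact min_le_left _ _
  have hσρ : ∀ ω, σ ω ≤ ρ ω := fun ω => by rw [hσdef]; exact min_le_right _ _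
  have hXbd : ∀ᵐ ω ∂μ, ∀ r ∈ Icc s (σ ω), |X r ω| ≤ Λ := by
    filter_upwards [hXlow, hρae] with ω h1 h2 r hr
    have h3 := h1 r ⟨hr.1, hr.2.trans (hστ ω)⟩
    have h4 := h2.2.2 (by rw [hXs]; exact hΛ0.le) r ⟨hr.1, hr.2.trans (hσρ ω)⟩
    rw [abs_le]
    refine ⟨?_, h4⟩
    have : η * u ω ≤ η := mul_le_of_le_one_right hη0.le (hu1 ω)
    linarith
  obtain ⟨m1, m2, m3⟩ := IsIto.stop hB hT hS.ito hS.progZ hsI hϑm ⟨_, hϑb⟩ hθm ⟨_, hθb⟩ hσS hσs
    hΛ0.le (by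
      filter_upwards [hXbd] with ω hω r hr
      have := hω r hr
      rwa [hXv] at this)
  have hXσ : ∀ ω, ϑ ω * (I (σ ω) ω - I s ω) - inner ℝ (θ ω) (B (σ ω) ω - B s ω) = X (σ ω) ω :=
    fun ω => (hXv _ _).symm
  simp_rw [hXσ] at m1 m2 m3
  have hXi : Integrable (fun ω => X (σ ω) ω) μ := by
    refine Integrable.of_bound m1 Λ ?_
    filter_upwards [hXbd] with ω hω
    exact hω _ ⟨hσs ω, le_rfl⟩
  -- second moment
  have m4 : ∫⁻ ω, ‖X (σ ω) ω‖ₑ ^ 2 ∂μ ≤ ENNReal.ofReal η * μ G := by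
    calc ∫⁻ ω, ‖X (σ ω) ω‖ₑ ^ 2 ∂μ ≤ ∫⁻ ω, G.indicator (fun _ => ENNReal.ofReal η) ω ∂μ := by
          refine lintegral_mono_ae ?_
          filter_upwards [hXbd] with ω hω
          by_cases h : ω ∈ G
          · rw [indicator_of_mem h, Real.enorm_eq_ofReal_abs,
              ← ENNReal.ofReal_pow (abs_nonneg _)]
            refine ENNReal.ofReal_le_ofReal ?_
            calc |X (σ ω) ω| ^ 2 ≤ Λ ^ 2 :=
                  pow_le_pow_left₀ (abs_nonneg _) (hω _ ⟨hσs ω, le_rfl⟩) 2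
              _ = η := by rw [sq, hΛ2]
          · rw [hXN _ ω h]; simp
      _ = _ := lintegral_indicator_const hGm _
  obtain ⟨γ, hγ⟩ : ∃ γ, γ = μ.real G := ⟨_, rfl⟩
  have hγ0 : 0 ≤ γ := by rw [hγ]; exact measureReal_nonneg
  have hμG : μ G = ENNReal.ofReal γ := by rw [hγ]; simp [Measure.real]
  have hui : ∫ ω, u ω ∂μ = γ := by
    rw [hudef, integral_indicator_const _ hGm, hγ]; simp
  have huint : Integrable u μ := by rw [hudef]; exact (integrable_const _).indicator hGm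
  -- the event that the level is hit before `τ`
  obtain ⟨H, hHdef⟩ : ∃ H : Set Ω, H = G ∩ {ω | ρ ω < τ ω} := ⟨_, rfl⟩
  have hHm : MeasurableSet H := by
    rw [hHdef]; exact hGm.inter (measurableSet_lt hρS.measurable hb.stop.measurable)
  have hHbound : μ.real H ≤ Λ * γ := by
    have h1 : ∀ᵐ ω ∂μ, H.indicator (fun _ => Λ) ω ≤ X (σ ω) ω + η * u ω := by
      filter_upwards [hXlow, hρae] with ω h2 h3
      by_cases h : ω ∈ H
      · rw [indicator_of_mem h]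
        rw [hHdef] at h
        have h4 : σ ω = ρ ω := by rw [hσdef]; exact min_eq_right (le_of_lt h.2)
        have h5 := h3.2.1 (lt_of_lt_of_le h.2 (hb.stop.1 ω).2)
        rw [h4]
        have : 0 ≤ η * u ω := mul_nonneg hη0.le (hu0 ω)
        linarith
      · rw [indicator_of_notMem h]
        have := h2 (σ ω) ⟨hσs ω, hστ ω⟩
        linarith
    have h2 : ∫ ω, H.indicator (fun _ => Λ) ω ∂μ ≤ ∫ ω, (X (σ ω) ω + η * u ω) ∂μ :=
      integral_mono_ae ((integrable_const _).indicator hHm) (hXi.add (huint.const_mul η)) h1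
    rw [integral_indicator_const _ hHm, integral_add hXi (huint.const_mul η), m2,
      integral_const_mul, hui, zero_add, smul_eq_mul] at h2
    have h3 : μ.real H * Λ ≤ (Λ * γ) * Λ := by
      calc μ.real H * Λ ≤ η * γ := h2
        _ = (Λ * γ) * Λ := by rw [← hΛ2]; ring
    exact le_of_mul_le_mul_right h3 hΛ0
  -- durations
  have hτm : Measurable τ := hb.stop.measurable
  have hσm : Measurable σ := hσS.measurable
  have hdur := block_duration hB hT he hs hδ hsT hb hGs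
  rw [← hγ] at hdur
  have hσint : Integrable (fun ω => G.indicator (fun ω => σ ω - s) ω) μ := by
    refine Integrable.of_bound ((hσm.sub_const s).indicator hGm).aestronglyMeasurable δ ?_
    filter_upwards with ω
    by_cases h : ω ∈ G
    · rw [indicator_of_mem h, Real.norm_of_nonneg (by linarith [hσs ω])]
      linarith [hb.le ω, hστ ω]
    · rw [indicator_of_notMem h]; simp; linarith
  have hτint : Integrable (fun ω => G.indicator (fun ω => τ ω - s) ω) μ := by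
    refine Integrable.of_bound ((hτm.sub_const s).indicator hGm).aestronglyMeasurable δ ?_
    filter_upwards with ω
    by_cases h : ω ∈ G
    · rw [indicator_of_mem h, Real.norm_of_nonneg (by linarith [hb.ge ω])]
      linarith [hb.le ω]
    · rw [indicator_of_notMem h]; simp; linarith
  have hdur2 : δ * γ * (3 / 16 - Λ) ≤ ∫ ω, G.indicator (fun ω => σ ω - s) ω ∂μ := by
    have h1 : ∫ ω, G.indicator (fun ω => τ ω - s) ω ∂μ ≤
        ∫ ω, (G.indicator (fun ω => σ ω - s) ω + H.indicator (fun _ => δ) ω) ∂μ := by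
      refine integral_mono hτint (hσint.add ((integrable_const _).indicator hHm)) fun ω => ?_
      by_cases h : ω ∈ G
      · by_cases h' : ω ∈ H
        · simp only [indicator_of_mem h, indicator_of_mem h']
          linarith [hb.le ω, hσs ω]
        · simp only [indicator_of_mem h, indicator_of_notMem h']
          have h2 : τ ω ≤ ρ ω := by
            by_contra hcon
            exact h' (by rw [hHdef]; exact ⟨h, not_le.1 hcon⟩)
          have h3 : σ ω = τ ω := by rw [hσdef]; exact min_eq_left h2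
          rw [h3]; linarith
      · have h' : ω ∉ H := fun h'' => h (by rw [hHdef] at h''; exact h''.1)
        simp only [indicator_of_notMem h, indicator_of_notMem h']
        simp
    rw [integral_add hσint ((integrable_const _).indicator hHm),
      integral_indicator_const _ hHm, smul_eq_mul] at h1
    nlinarith
  -- the generator term
  obtain ⟨i1, i2, _, _, i5, i6, i7⟩ := star hB hT hS.progZ hS.sq hS.cont hS.ito hS.eqn hS.classD
    hsI hϑm hϑ0 ⟨_, hϑb⟩ hσS hσs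
  have hdiff : ∫ ω, ϑ ω * Y s ω ∂μ - ∫ ω, ϑ ω * Y (σ ω) ω ∂μ ≤ η * γ := by
    have h1 : ∫ ω, ϑ ω * Y s ω ∂μ ≤ ∫ ω, (1 + η) * u ω ∂μ := by
      refine integral_mono i1 (huint.const_mul _) fun ω => ?_
      by_cases h : ω ∈ G
      · have hbP : 0 < b * P ω := mul_pos hb0 (hp0.trans_le (hPG ω h))
        simp only
        rw [hϑG ω h, one_div, inv_mul_eq_div, div_le_iff₀ hbP, huG ω h]
        linarith [hYG ω h]
      · simp only [hϑN ω h, huN ω h]; simp
    rw [integral_const_mul, hui] at h1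
    obtain ⟨w1, w2, _⟩ := stop_W hB hT he hsI (ψ := fun ω => u ω * K) (hum.mul_const K)
      ⟨K, fun ω => by
        rw [abs_mul, abs_of_pos hK]
        exact mul_le_of_le_one_left hK.le (hub ω)⟩ hσS hσs
    have h2 : ∫ ω, (u ω + u ω * K * inner ℝ e (B (σ ω) ω - B s ω)) ∂μ ≤
        ∫ ω, ϑ ω * Y (σ ω) ω ∂μ := by
      refine integral_mono_ae (huint.add w1) i2 ?_
      filter_upwards [hlow] with ω h3
      by_cases h : ω ∈ G
      · have hbP : 0 < b * P ω := mul_pos hb0 (hp0.trans_le (hPG ω h))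
        have h4 := h3 (σ ω) ⟨hσs ω, (hστ ω).trans (hb.le ω)⟩
        rw [min_eq_right (hστ ω)] at h4
        rw [hϑG ω h, one_div, inv_mul_eq_div, le_div_iff₀ hbP, huG ω h, hKdef]
        calc _ = b * P ω * (1 + inner ℝ e (B (σ ω) ω - B s ω) / √δ) := by ring
          _ ≤ _ := h4
      · simp only [hϑN ω h, huN ω h]; simp
    rw [integral_add huint w1, hui, w2, add_zero] at h2
    linarith
  have hgen : ∫⁻ ω, ENNReal.ofReal (ϑ ω) *
      (∫⁻ r in Ioc s (σ ω), ENNReal.ofReal (gen (Z r ω))) ∂μ ≤ ENNReal.ofReal (η * γ) := by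
    rw [i7]; exact ENNReal.ofReal_le_ofReal hdiff
  have hsq2 : ∫⁻ ω, (∫⁻ r in Ioc s (σ ω), ‖ϑ ω • Z r ω - θ ω‖ₑ ^ 2) ∂μ ≤
      ENNReal.ofReal (η * γ) := by
    refine m3.trans (m4.trans ?_)
    rw [hμG, ENNReal.ofReal_mul hη0.le]
  -- combine
  obtain ⟨lam, hlam⟩ : ∃ lam, lam = √δ / Λ := ⟨_, rfl⟩
  have hlam0 : 0 < lam := by rw [hlam]; positivity
  have hκ : 0 ≤ K - 1 / (2 * lam) := by
    rw [hlam, hKdef]
    have : 1 / √δ - 1 / (2 * (√δ / Λ)) = (1 - Λ / 2) / √δ := by field_simp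
    rw [this]
    apply div_nonneg _ hsδ.le
    linarith
  have hcomb : ENNReal.ofReal (K - 1 / (2 * lam)) *
      ∫⁻ ω, ENNReal.ofReal (G.indicator (fun ω => σ ω - s) ω) ∂μ ≤
      ENNReal.ofReal (√ℓ) * ENNReal.ofReal (η * γ) +
        ENNReal.ofReal (lam / 2) * ENNReal.ofReal (η * γ) := by
    calc ENNReal.ofReal (K - 1 / (2 * lam)) *
        ∫⁻ ω, ENNReal.ofReal (G.indicator (fun ω => σ ω - s) ω) ∂μ
        = ∫⁻ ω, ENNReal.ofReal (K - 1 / (2 * lam)) *
          ENNReal.ofReal (G.indicator (fun ω => σ ω - s) ω) ∂μ :=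
          (lintegral_const_mul' _ _ ENNReal.ofReal_ne_top).symm
      _ ≤ ∫⁻ ω, (ENNReal.ofReal (√ℓ) * (ENNReal.ofReal (ϑ ω) *
            (∫⁻ r in Ioc s (σ ω), ENNReal.ofReal (gen (Z r ω)))) +
          ENNReal.ofReal (lam / 2) *
            (∫⁻ r in Ioc s (σ ω), ‖ϑ ω • Z r ω - θ ω‖ₑ ^ 2)) ∂μ := by
          refine lintegral_mono fun ω => ?_
          by_cases h : ω ∈ G
          · have hbP : 0 < b * P ω := mul_pos hb0 (hp0.trans_le (hPG ω h))
            have hqβ : b * P ω ≤ β :=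
              (mul_le_mul_of_nonneg_left (hPb ω) hb0.le).trans hβ
            have := path_gen hT hS.progZ he hK hbP hqβ hlam0 hs (hσS.1 ω).2 ω (s := s)
            rw [← hℓdef] at this
            rw [indicator_of_mem h, hϑG ω h, hθG ω h]
            exact this
          · rw [indicator_of_notMem h]; simp
      _ = ENNReal.ofReal (√ℓ) * ∫⁻ ω, (ENNReal.ofReal (ϑ ω) *
            (∫⁻ r in Ioc s (σ ω), ENNReal.ofReal (gen (Z r ω)))) ∂μ +
          ENNReal.ofReal (lam / 2) *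
            ∫⁻ ω, (∫⁻ r in Ioc s (σ ω), ‖ϑ ω • Z r ω - θ ω‖ₑ ^ 2) ∂μ := by
          rw [lintegral_add_left' (i6.const_mul _), lintegral_const_mul' _ _ ENNReal.ofReal_ne_top,
            lintegral_const_mul' _ _ ENNReal.ofReal_ne_top]
      _ ≤ _ := add_le_add (mul_le_mul_right hgen _) (mul_le_mul_right hsq2 _)
  have hLσ : ∫⁻ ω, ENNReal.ofReal (G.indicator (fun ω => σ ω - s) ω) ∂μ =
      ENNReal.ofReal (∫ ω, G.indicator (fun ω => σ ω - s) ω ∂μ) := by
    rw [ofReal_integral_eq_lintegral_ofReal hσint]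
    filter_upwards with ω
    by_cases h : ω ∈ G
    · rw [indicator_of_mem h]; simp; linarith [hσs ω]
    · rw [indicator_of_notMem h]; simp
  rw [hLσ, ← ENNReal.ofReal_mul hκ, ← ENNReal.ofReal_mul (Real.sqrt_nonneg _),
    ← ENNReal.ofReal_mul (by positivity), ← ENNReal.ofReal_add (by positivity) (by positivity),
    ENNReal.ofReal_le_ofReal_iff (by positivity)] at hcomb
  have hnum : (K - 1 / (2 * lam)) * (δ * γ * (3 / 16 - Λ)) ≤
      √ℓ * (η * γ) + lam / 2 * (η * γ) :=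
    (mul_le_mul_of_nonneg_left hdur2 hκ).trans hcomb
  rw [hKdef, hlam] at hnum
  have hγz := numeric hγ0 hδ hδ1 hℓ1 hη hΛ hnum
  rw [hμG, hγz]; simp

/-- **Key lemma** (gain over one block). -/
theorem key [IsProbabilityMeasure μ] (hS : Setup F μ B T ξ Y Z I) {e : E d}
    (he : ‖e‖ = 1) {s δ : ℝ} (hs : 0 ≤ s) (hδ : 0 < δ) (hδ1 : δ ≤ 1) (hsT : s + δ ≤ T)
    {τ R : Ω → ℝ} (hb : Block F μ B e T s δ τ R) {P : Ω → ℝ} (hP : Measurable[F s] P)
    (hP0 : ∀ ω, 0 ≤ P ω) {pb : ℝ} (hPb : ∀ ω, P ω ≤ pb) {b β : ℝ} (hb0 : 0 < b)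
    (hβ : b * pb ≤ β) (hY : ∀ᵐ ω ∂μ, b * P ω * R ω ≤ Y (s + δ) ω) :
    ∀ᵐ ω ∂μ, b * P ω *
      (1 + 1 / 400 * √(δ / Real.log (Real.exp 1 + β * (1 / √δ)))) ≤ Y s ω := by
  have h1 : ∀ᵐ ω ∂μ, ∀ n : ℕ, ¬ (Y s ω < b * P ω *
      (1 + 1 / 400 * √(δ / Real.log (Real.exp 1 + β * (1 / √δ)))) ∧ 1 / (n + 1 : ℝ) ≤ P ω) := by
    rw [ae_all_iff]
    intro n
    have := key_aux hS he hs hδ hδ1 hsT hb hP hP0 hPb hb0 hβ hY
      (p0 := 1 / (n + 1 : ℝ)) (by positivity)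
    rw [ae_iff]
    simpa using this
  have h2 := lower_path hS he hs hδ hsT hb hP hP0 hPb hb0 hY
  filter_upwards [h1, h2] with ω h3 h4
  by_contra hcon
  rw [not_le] at hcon
  have hPpos : 0 < P ω := by
    rcases (hP0 ω).lt_or_eq with h | h
    · exact h
    · exfalso
      have h5 := h4 s ⟨le_rfl, by linarith⟩
      rw [← h] at h5 hcon
      simp at h5 hcon
      linarith
  obtain ⟨n, hn⟩ := exists_nat_one_div_lt hPpos
  exact h3 n ⟨hcon, hn.le⟩

end

end BSDE
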