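import Pool.Agent.H32.BSDE.Span

open MeasureTheory ProbabilityTheory Filter Set
open scoped ENNReal NNReal Topology

namespace BSDE

variable {Ω : Type*} {m : MeasurableSpace Ω} {μ : Measure Ω}

lemma eLpNorm_two_sq {V : Type*} [NormedAddCommGroup V] {f : Ω → V} : eLpNorm f 2 μ ^ 2 = ∫⁻ ω, ‖f ω‖ₑ ^ 2 ∂μ := by
  have := eLpNorm_nnreal_pow_eq_lintegral (μ := μ) (f := f) (p := 2) (by norm_num)
  simpa using this

lemma tendsto_eLpNorm_zero_of_sq {f : ℕ → Ω → ℝ} {ε : ℕ → ℝ≥0∞} (hε : Tendsto ε atTop (𝓝 0))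
    (h : ∀ n, ∫⁻ ω, ‖f n ω‖ₑ ^ 2 ∂μ ≤ ε n) :
    Tendsto (fun n => eLpNorm (f n) 2 μ) atTop (𝓝 0) := by
  have h1 : Tendsto (fun n => eLpNorm (f n) 2 μ ^ 2) atTop (𝓝 0) := by
    refine tendsto_of_tendsto_of_tendsto_of_le_of_le tendsto_const_nhds hε (fun _ => bot_le) ?_
    intro n
    simp only
    rw [eLpNorm_two_sq]; exact h n
  have h2 : Tendsto (fun n => (eLpNorm (f n) 2 μ ^ 2) ^ (1 / 2 : ℝ)) atTop (𝓝 (0 ^ (1 / 2 : ℝ))) :=
    (ENNReal.continuous_rpow_const.tendsto _).comp h1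
  rw [ENNReal.zero_rpow_of_pos (by norm_num)] at h2
  refine h2.congr fun n => ?_
  rw [← ENNReal.rpow_natCast, ← ENNReal.rpow_mul]
  norm_num

lemma L2_limit [IsProbabilityMeasure μ] {f : ℕ → Ω → ℝ} {g : Ω → ℝ} (hf : ∀ n, MemLp (f n) 2 μ)
    (hg : AEStronglyMeasurable g μ) {ε : ℕ → ℝ≥0∞} (hε : Tendsto ε atTop (𝓝 0))
    (hfin : ∀ n, ε n ≠ ⊤) (h : ∀ n, ∫⁻ ω, ‖f n ω - g ω‖ₑ ^ 2 ∂μ ≤ ε n) :
    MemLp g 2 μ ∧ Tendsto (fun n => ∫ ω, f n ω ∂μ) atTop (𝓝 (∫ ω, g ω ∂μ)) ∧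
      Tendsto (fun n => ∫⁻ ω, ‖f n ω‖ₑ ^ 2 ∂μ) atTop (𝓝 (∫⁻ ω, ‖g ω‖ₑ ^ 2 ∂μ)) := by
  have hd : ∀ n, AEStronglyMeasurable (f n - g) μ := fun n => (hf n).1.sub hg
  have hgL : MemLp g 2 μ := by
    have h0 : MemLp (f 0 - g) 2 μ := by
      refine ⟨hd 0, ?_⟩
      have : eLpNorm (f 0 - g) 2 μ ^ 2 < ⊤ := by
        rw [eLpNorm_two_sq]
        exact (h 0).trans_lt (hfin 0).lt_top
      by_contra hcon
      rw [not_lt, top_le_iff] at hcon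
      rw [hcon] at this
      simp at this
    have : g = f 0 - (f 0 - g) := by simp
    rw [this]
    exact (hf 0).sub h0
  have ht : Tendsto (fun n => eLpNorm (f n - g) 2 μ) atTop (𝓝 0) :=
    tendsto_eLpNorm_zero_of_sq hε h
  refine ⟨hgL, ?_, ?_⟩
  · refine tendsto_integral_of_L1' g hg (Eventually.of_forall fun n =>
      (hf n).integrable (by norm_num)) ?_
    refine tendsto_of_tendsto_of_tendsto_of_le_of_le tendsto_const_nhds ht (fun _ => bot_le) ?_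
    intro n
    exact eLpNorm_le_eLpNorm_of_exponent_le (by norm_num) (hd n)
  · have h1 := (Lp.tendsto_Lp_iff_tendsto_eLpNorm'' f hf g hgL).2 ht
    have h2 : Tendsto (fun n => eLpNorm (f n) 2 μ) atTop (𝓝 (eLpNorm g 2 μ)) := by
      have h3 := (continuous_enorm.tendsto _).comp h1
      simpa [Function.comp_def, Lp.enorm_toLp] using h3
    have h4 := (ENNReal.continuous_pow 2).tendsto _ |>.comp h2
    simpa [Function.comp_def, eLpNorm_two_sq] using h4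

end BSDE
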