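import Pool.Agent.H32.BSDE.Block

open MeasureTheory ProbabilityTheory Filter Set
open scoped ENNReal NNReal Topology

namespace BSDE

variable {Ω : Type*} {m : MeasurableSpace Ω} {d : ℕ}

/-- a solution of class (D), with the stochastic integral process made explicit -/
structure Setup (F : Filtration ℝ m) (μ : Measure Ω) (B : ℝ → Ω → E d) (T : ℝ) (ξ : Ω → ℝ)
    (Y : ℝ → Ω → ℝ) (Z : ℝ → Ω → E d) (I : ℝ → Ω → ℝ) : Prop where
  fbm : FBM F B μ
  T0 : 0 ≤ T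
  progY : Progressive F T Y
  progZ : Progressive F T Z
  sq : ∀ᵐ ω ∂μ, ∫⁻ r in Icc 0 T, ‖Z r ω‖ₑ ^ 2 < ⊤
  cont : ∀ᵐ ω ∂μ, ContinuousOn (fun t => Y t ω) (Icc 0 T)
  ito : IsIto F μ B T Z I
  eqn : ∀ᵐ ω ∂μ, ∀ t ∈ Icc 0 T, Y t ω = ξ ω + (∫ r in t..T, gen (Z r ω)) - (I T ω - I t ω)
  classD : ClassD F μ T Y

section
variable {F : Filtration ℝ m} {μ : Measure Ω} {T : ℝ} {B : ℝ → Ω → E d}
  {ξ : Ω → ℝ} {Y : ℝ → Ω → ℝ} {Z : ℝ → Ω → E d} {I : ℝ → Ω → ℝ}

lemma meas_min_W (hB : FBM F B μ) {e : E d} {s δ : ℝ} {τ R : Ω → ℝ} (hs : 0 ≤ s)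
    (hb : Block F μ B e T s δ τ R) {r : ℝ} (hr : s ≤ r) :
    ∃ f : Ω → ℝ, Measurable[F r] f ∧
      ∀ᵐ ω ∂μ, f ω = inner ℝ e (B (min (τ ω) r) ω - B s ω) := by
  have hst : IsStop F r (fun ω => min (τ ω) r) := by
    refine ⟨fun ω => ⟨le_min (hb.stop.1 ω).1 (hs.trans hr), min_le_right _ _⟩, fun t => ?_⟩
    by_cases h : r ≤ t
    · have : {ω | min (τ ω) r ≤ t} = univ := by
        ext ω; simp [h]
      rw [this]; exact @MeasurableSet.univ _ (F t)
    · have : {ω | min (τ ω) r ≤ t} = {ω | τ ω ≤ t} := by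
        ext ω; simp [h]
      rw [this]; exact hb.stop.2 t
  obtain ⟨f, hfm, hfae⟩ := stopped_measurable (μ := μ) hB.null
    (X := fun r ω => inner ℝ e (B (max s r) ω - B s ω)) (hs.trans hr) (by
      intro r hr
      rcases le_total s r with h | h
      · simp only [max_eq_right h]; exact hB.meas_W e hs h
      · simp only [max_eq_left h, sub_self, inner_zero_right]
        exact measurable_const) (by
      filter_upwards [hB.cont_W e s] with ω hω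
      exact hω.comp (by fun_prop) (fun r _ => hs.trans (le_max_left _ _))) hst
  refine ⟨f, hfm, ?_⟩
  filter_upwards [hfae] with ω hω
  rw [hω, max_eq_right (le_min (hb.ge ω) hr)]

theorem lower_fixed [IsProbabilityMeasure μ] (hS : Setup F μ B T ξ Y Z I) {e : E d}
    (he : ‖e‖ = 1) {s δ : ℝ} (hs : 0 ≤ s) (hδ : 0 < δ) (hsT : s + δ ≤ T) {τ R : Ω → ℝ}
    (hb : Block F μ B e T s δ τ R) {P : Ω → ℝ} (hP : Measurable[F s] P) (hP0 : ∀ ω, 0 ≤ P ω)
    {pb : ℝ} (hPb : ∀ ω, P ω ≤ pb) {b : ℝ} (hb0 : 0 < b)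
    (hY : ∀ᵐ ω ∂μ, b * P ω * R ω ≤ Y (s + δ) ω) {r : ℝ} (hr : r ∈ Icc s (s + δ)) :
    ∀ᵐ ω ∂μ, b * P ω * (1 + inner ℝ e (B (min (τ ω) r) ω - B s ω) / √δ) ≤ Y r ω := by
  classical
  have hB := hS.fbm
  have hrT : r ∈ Icc 0 T := ⟨hs.trans hr.1, hr.2.trans hsT⟩
  have htT : s + δ ∈ Icc 0 T := ⟨by linarith, hsT⟩
  obtain ⟨f, hfm, hfae⟩ := meas_min_W hB hs hb hr.1
  have hPr : Measurable[F r] P := hP.mono (F.mono hr.1) le_rfl
  have hYr : Measurable[F r] (Y r) := hS.progY.adapted hrT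
  set Q : Ω → ℝ := fun ω => b * P ω * (1 + f ω / √δ) with hQ
  have hQm : Measurable[F r] Q := (hPr.const_mul b).mul (measurable_const.add (hfm.div_const _))
  set A : Set Ω := {ω | Y r ω < Q ω} with hA
  have hAm : MeasurableSet[F r] A := measurableSet_lt hYr hQm
  set ϑ : Ω → ℝ := A.indicator (fun _ => 1) with hϑ
  have hϑm : Measurable[F r] ϑ := measurable_const.indicator hAm
  have hϑ0 : ∀ ω, 0 ≤ ϑ ω := fun ω => indicator_nonneg (fun _ _ => zero_le_one) ω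
  have hϑ1 : ∀ ω, |ϑ ω| ≤ 1 := fun ω => by
    by_cases h : ω ∈ A
    · simp only [hϑ, indicator_of_mem h]; simp
    · simp only [hϑ, indicator_of_notMem h]; simp
  obtain ⟨i1, i2, _, _, i5, _⟩ := star hB hS.T0 hS.progZ hS.sq hS.cont hS.ito hS.eqn hS.classD hrT
    hϑm hϑ0 ⟨1, hϑ1⟩ (isStop_const htT) (fun _ => hr.2)
  -- the Brownian part
  set ψ : Ω → ℝ := fun ω => ϑ ω * ({ω | τ ω ≤ r}ᶜ.indicator (fun _ => 1) ω) * (b * P ω) / √δ with hψ
  have hψm : Measurable[F r] ψ :=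
    ((hϑm.mul (measurable_const.indicator (hb.stop.2 r).compl)).mul
      (hPr.const_mul b)).div_const _
  have hpb : ∀ ω, |P ω| ≤ |pb| := fun ω => by
    rw [abs_of_nonneg (hP0 ω)]; exact (hPb ω).trans (le_abs_self _)
  have hψb : ∀ ω, |ψ ω| ≤ b * |pb| / √δ := by
    intro ω
    simp only [hψ]
    rw [abs_div, abs_mul, abs_mul, abs_mul, abs_of_pos hb0, abs_of_nonneg (Real.sqrt_nonneg δ)]
    refine div_le_div_of_nonneg_right ?_ (Real.sqrt_nonneg _)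
    have h1 : |({ω | τ ω ≤ r}ᶜ.indicator (fun _ => (1 : ℝ)) ω)| ≤ 1 := by
      by_cases h : ω ∈ {ω | τ ω ≤ r}ᶜ
      · rw [indicator_of_mem h]; simp
      · rw [indicator_of_notMem h]; simp
    calc |ϑ ω| * |({ω | τ ω ≤ r}ᶜ.indicator (fun _ => (1 : ℝ)) ω)| * (b * |P ω|)
        ≤ 1 * 1 * (b * |pb|) := by
          refine mul_le_mul (mul_le_mul (hϑ1 ω) h1 (abs_nonneg _) zero_le_one)
            (mul_le_mul_of_nonneg_left (hpb ω) hb0.le) (by positivity) (by norm_num)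
      _ = b * |pb| := by ring
  have hmax : IsStop F T (fun ω => max (τ ω) r) := hb.stop.max_const hrT
  obtain ⟨w1, w2, _⟩ := stop_W hB hS.T0 he hrT hψm ⟨_, hψb⟩ hmax (fun ω => le_max_right _ _)
  -- pointwise identity
  have hpt : ∀ᵐ ω ∂μ, ϑ ω * (b * P ω * R ω) = ϑ ω * Q ω +
      ψ ω * inner ℝ e (B (max (τ ω) r) ω - B r ω) := by
    filter_upwards [hb.val, hfae] with ω h1 h2
    simp only [hQ, hψ]
    rw [h1, h2]
    by_cases h : τ ω ≤ r
    · rw [indicator_of_notMem (by simpa using h), min_eq_left h, max_eq_right h]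
      simp
    · have h' : r ≤ τ ω := (not_le.1 h).le
      rw [indicator_of_mem (by simpa using h), min_eq_right h', max_eq_left h']
      have : inner ℝ e (B (τ ω) ω - B s ω) = inner ℝ e (B r ω - B s ω) +
          inner ℝ e (B (τ ω) ω - B r ω) := by
        rw [← inner_add_right]; congr 1; abel
      rw [this]; ring
  have hRm : Measurable R := hb.measR.mono (F.le _) le_rfl
  have hϑm' : Measurable ϑ := hϑm.mono (F.le _) le_rfl
  have hPm' : Measurable P := hP.mono (F.le _) le_rfl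
  have iR : Integrable (fun ω => ϑ ω * (b * P ω * R ω)) μ := by
    refine Integrable.of_bound
      (hϑm'.mul ((hPm'.const_mul b).mul hRm)).aestronglyMeasurable (b * |pb| * 2) ?_
    filter_upwards with ω
    rw [Real.norm_eq_abs, abs_mul, abs_mul, abs_mul, abs_of_pos hb0, abs_of_nonneg (hb.R0 ω)]
    calc |ϑ ω| * (b * |P ω| * R ω) ≤ 1 * (b * |pb| * 2) := by
          refine mul_le_mul (hϑ1 ω) (mul_le_mul (mul_le_mul_of_nonneg_left (hpb ω) hb0.le)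
            (hb.R2 ω) (hb.R0 ω) (by positivity)) (mul_nonneg (by positivity) (hb.R0 ω)) zero_le_one
      _ = _ := one_mul _
  have iQ : Integrable (fun ω => ϑ ω * Q ω) μ := by
    refine (iR.sub w1).congr ?_
    filter_upwards [hpt] with ω hω
    simp only [Pi.sub_apply]
    rw [hω]; ring
  have eQ : ∫ ω, ϑ ω * (b * P ω * R ω) ∂μ = ∫ ω, ϑ ω * Q ω ∂μ := by
    rw [integral_congr_ae hpt, integral_add iQ w1, w2, add_zero]
  have h3 : ∫ ω, ϑ ω * (b * P ω * R ω) ∂μ ≤ ∫ ω, ϑ ω * Y (s + δ) ω ∂μ := by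
    refine integral_mono_ae iR i2 ?_
    filter_upwards [hY] with ω hω
    exact mul_le_mul_of_nonneg_left hω (hϑ0 ω)
  have hnn : ∀ ω, 0 ≤ ϑ ω * Q ω - ϑ ω * Y r ω := by
    intro ω
    by_cases h : ω ∈ A
    · simp only [hϑ, indicator_of_mem h, one_mul]
      exact (sub_pos.2 h).le
    · simp only [hϑ, indicator_of_notMem h]; simp
  have h4 : ∫ ω, (ϑ ω * Q ω - ϑ ω * Y r ω) ∂μ = 0 := by
    refine le_antisymm ?_ (integral_nonneg hnn)
    rw [integral_sub iQ i1, ← eQ]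
    linarith
  have h5 := (integral_eq_zero_iff_of_nonneg hnn (iQ.sub i1)).1 h4
  filter_upwards [h5, hfae] with ω h6 h7
  by_contra hcon
  rw [not_le] at hcon
  have hωA : ω ∈ A := by
    simp only [hA, mem_ofPred_eq, hQ]
    rw [h7]; exact hcon
  simp only [Pi.zero_apply, hϑ, indicator_of_mem hωA, one_mul] at h6
  have : Y r ω < Q ω := hωA
  linarith

theorem lower_path [IsProbabilityMeasure μ] (hS : Setup F μ B T ξ Y Z I) {e : E d}
    (he : ‖e‖ = 1) {s δ : ℝ} (hs : 0 ≤ s) (hδ : 0 < δ) (hsT : s + δ ≤ T) {τ R : Ω → ℝ}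
    (hb : Block F μ B e T s δ τ R) {P : Ω → ℝ} (hP : Measurable[F s] P) (hP0 : ∀ ω, 0 ≤ P ω)
    {pb : ℝ} (hPb : ∀ ω, P ω ≤ pb) {b : ℝ} (hb0 : 0 < b)
    (hY : ∀ᵐ ω ∂μ, b * P ω * R ω ≤ Y (s + δ) ω) :
    ∀ᵐ ω ∂μ, ∀ r ∈ Icc s (s + δ),
      b * P ω * (1 + inner ℝ e (B (min (τ ω) r) ω - B s ω) / √δ) ≤ Y r ω := by
  obtain ⟨D, hD, htest⟩ := exists_dense_test (show s ≤ s + δ by linarith)
  have h1 : ∀ᵐ ω ∂μ, ∀ k, b * P ω * (1 + inner ℝ e (B (min (τ ω) (D k)) ω - B s ω) / √δ) ≤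
      Y (D k) ω :=
    ae_all_iff.2 fun k => lower_fixed hS he hs hδ hsT hb hP hP0 hPb hb0 hY (hD k)
  filter_upwards [h1, hS.cont, hS.fbm.cont_W e s] with ω hω hYc hWc r hr
  by_contra hcon
  rw [not_le] at hcon
  set g : ℝ → ℝ := fun r => b * P ω * (1 + inner ℝ e (B (min (τ ω) r) ω - B s ω) / √δ) - Y r ω
    with hg
  have hgc : ContinuousOn g (Icc s (s + δ)) := by
    refine ContinuousOn.sub ?_ (hYc.mono fun x hx => ⟨hs.trans hx.1, hx.2.trans hsT⟩)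
    refine continuousOn_const.mul (continuousOn_const.add (ContinuousOn.div_const ?_ _))
    exact hWc.comp (by fun_prop) (fun x hx => le_min ((hb.stop.1 ω).1) (hs.trans hx.1))
  have hpos : 0 < g r := sub_pos.2 hcon
  obtain ⟨n, hn⟩ := exists_nat_one_div_lt hpos
  obtain ⟨k, hk⟩ := (htest g (g r) hgc).1 ⟨r, hr, le_rfl⟩ n
  have := hω k
  have h2 : g (D k) ≤ 0 := sub_nonpos.2 this
  linarith

end

end BSDE
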