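import Pool.Agent.H32.BSDE.Elem

open MeasureTheory ProbabilityTheory Filter Set
open scoped ENNReal NNReal Topology

namespace BSDE

variable {Ω : Type*} {m : MeasurableSpace Ω} {d : ℕ}

/-- elementary terms `(h 1_{(a,b]}, ∫ h 1_{(a,b]} dB)` -/
def Term (F : Filtration ℝ m) (B : ℝ → Ω → E d) (R : ℝ) :
    Set ((ℝ → Ω → E d) × (ℝ → Ω → ℝ)) :=
  {p | ∃ (a b : ℝ) (h : Ω → E d), 0 ≤ a ∧ a ≤ b ∧ b ≤ R ∧ Measurable[F a] h ∧
    (∃ C : ℝ, ∀ ω, ‖h ω‖ ≤ C) ∧
    p = (fun r ω => (Ioc a b).indicator (fun _ => h ω) r,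
      fun r ω => inner ℝ (h ω) (B (min b r) ω - B (min a r) ω))}

/-- pairs (elementary integrand, its integral process) -/
def Span (F : Filtration ℝ m) (B : ℝ → Ω → E d) (R : ℝ) :
    Submodule ℝ ((ℝ → Ω → E d) × (ℝ → Ω → ℝ)) := Submodule.span ℝ (Term F B R)

section
variable {F : Filtration ℝ m} {B : ℝ → Ω → E d} {μ : Measure Ω} {R : ℝ}

lemma Elementary.mem_span {T : ℝ} (H : Elementary F T d) (hTR : T ≤ R) :
    (H.val, H.integral B) ∈ Span F B R := by
  obtain ⟨C, hC⟩ := H.bdd
  have : (H.val, H.integral B) = ∑ i ∈ Finset.range H.n,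
      ((fun r ω => (Ioc (H.a i) (H.b i)).indicator (fun _ => H.h i ω) r,
      fun r ω => inner ℝ (H.h i ω) (B (min (H.b i) r) ω - B (min (H.a i) r) ω)) :
        (ℝ → Ω → E d) × (ℝ → Ω → ℝ)) := by
    rw [Prod.ext_iff]
    constructor
    · rw [Prod.fst_sum]
      funext r ω
      simp [Elementary.val, Finset.sum_apply]
    · rw [Prod.snd_sum]
      funext r ω
      simp [Elementary.integral, Finset.sum_apply]
  rw [this]
  refine Submodule.sum_mem _ fun i _ => Submodule.subset_span ?_
  exact ⟨H.a i, H.b i, H.h i, H.nonneg i, H.le i, (H.le_T i).trans hTR, H.meas i,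
    ⟨C, fun ω => hC i ω⟩, rfl⟩

/-- the restriction operation -/
noncomputable def restr (s : ℝ) (ϑ : Ω → ℝ) :
    ((ℝ → Ω → E d) × (ℝ → Ω → ℝ)) →ₗ[ℝ] ((ℝ → Ω → E d) × (ℝ → Ω → ℝ)) where
  toFun p := (fun r ω => (Ioi s).indicator (fun r => ϑ ω • p.1 r ω) r,
    fun r ω => ϑ ω * (p.2 r ω - p.2 (min s r) ω))
  map_add' p q := by
    rw [Prod.ext_iff]
    constructor
    · funext r ω
      by_cases h : s < r <;> simp [h]
    · funext r ω
      simp; ring
  map_smul' c p := by
    rw [Prod.ext_iff]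
    constructor
    · funext r ω
      by_cases h : s < r
      · simp only [RingHom.id_apply, Prod.smul_fst, Pi.smul_apply, mem_Ioi, h, indicator_of_mem]
        rw [smul_comm]
      · simp [h]
    · funext r ω
      simp; ring

lemma restr_mem {s : ℝ} (hs : 0 ≤ s) (hsR : s ≤ R) {ϑ : Ω → ℝ} (hϑ : Measurable[F s] ϑ)
    (hϑb : ∃ C : ℝ, ∀ ω, |ϑ ω| ≤ C) {p : (ℝ → Ω → E d) × (ℝ → Ω → ℝ)} (hp : p ∈ Span F B R) :
    restr s ϑ p ∈ Span F B R := by
  have : Span F B R ≤ (Span F B R).comap (restr s ϑ) := by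
    refine Submodule.span_le.2 ?_
    rintro _ ⟨a, b, h, ha, hab, hbR, hh, ⟨C, hC⟩, rfl⟩
    refine Submodule.subset_span ?_
    obtain ⟨D, hD⟩ := hϑb
    refine ⟨max a s, max b s, fun ω => ϑ ω • h ω, le_max_of_le_left ha, max_le_max_right _ hab,
      max_le hbR hsR, ?_, ⟨D * C, fun ω => ?_⟩, ?_⟩
    · exact (hϑ.mono (F.mono (le_max_right _ _)) le_rfl).smul
        (hh.mono (F.mono (le_max_left _ _)) le_rfl)
    · rw [norm_smul]
      exact mul_le_mul (hD ω) (hC ω) (norm_nonneg _) ((abs_nonneg _).trans (hD ω))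
    · rw [Prod.ext_iff]
      constructor
      · funext r ω
        simp only [restr, LinearMap.coe_mk, AddHom.coe_mk]
        by_cases h1 : s < r
        · by_cases h2 : a < r <;> by_cases h3 : r ≤ b <;>
            simp [indicator, h1, h2, h3, h1.not_ge]
        · have : ¬ s < r := h1
          simp [indicator, h1]
      · funext r ω
        simp only [restr, LinearMap.coe_mk, AddHom.coe_mk]
        have key : ∀ x : ℝ, B (min (max x s) r) ω =
            B (min x r) ω - B (min x (min s r)) ω + B (min s r) ω := by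
          intro x
          rcases le_total x s with hx | hx
          · rw [max_eq_right hx]
            have : min x (min s r) = min x r := by
              rw [← min_assoc, min_eq_left hx]
            rw [this]; abel
          · rw [max_eq_left hx]
            have : min x (min s r) = min s r := by
              rw [← min_assoc, min_eq_right hx]
            rw [this]; abel
        rw [key, key, real_inner_smul_left, ← inner_sub_right]
        congr 2
        abel
  exact this hp

/-- structural properties of the integrands and integral processes -/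
structure Nice (F : Filtration ℝ m) (μ : Measure Ω) (R : ℝ)
    (p : (ℝ → Ω → E d) × (ℝ → Ω → ℝ)) : Prop where
  meas : Measurable (Function.uncurry p.1)
  bdd : ∃ C : ℝ, 0 ≤ C ∧ ∀ r ω, ‖p.1 r ω‖ ≤ C
  supp : ∀ r ω, r ∉ Ioc 0 R → p.1 r ω = 0
  adapted : ∀ r, 0 ≤ r → Measurable[F r] (p.2 r)
  cont : ∀ᵐ ω ∂μ, ContinuousOn (fun r => p.2 r ω) (Ici 0)
  zero : ∀ ω, p.2 0 ω = 0
  const : ∀ r, R ≤ r → p.2 r = p.2 R
  memLp : MemLp (p.2 R) 2 μ
  mean : ∫ ω, p.2 R ω ∂μ = 0

lemma span_nice [IsProbabilityMeasure μ] (hB : FBM F B μ) (hR : 0 ≤ R)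
    {p : (ℝ → Ω → E d) × (ℝ → Ω → ℝ)} (hp : p ∈ Span F B R) : Nice F μ R p := by
  induction hp using Submodule.span_induction with
  | mem p hp =>
    obtain ⟨a, b, h, ha, hab, hbR, hh, hhb, rfl⟩ := hp
    obtain ⟨C, hC⟩ := hhb
    have hb : 0 ≤ b := ha.trans hab
    have e1 : min b R = b := min_eq_left hbR
    have e2 : min a R = a := min_eq_left (hab.trans hbR)
    refine ⟨?_, ⟨max C 0, le_max_right _ _, fun r ω => ?_⟩, ?_, ?_, ?_, ?_, ?_, ?_, ?_⟩
    · have h1 : Measurable fun q : ℝ × Ω => h q.2 := (hh.mono (F.le a) le_rfl).comp measurable_snd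
      have h2 : MeasurableSet {q : ℝ × Ω | q.1 ∈ Ioc a b} := measurable_fst measurableSet_Ioc
      convert h1.indicator h2 using 1
      ext q
      by_cases hq : q.1 ∈ Ioc a b
      · rw [indicator_of_mem (show q ∈ {q : ℝ × Ω | q.1 ∈ Ioc a b} from hq)]
        simp [Function.uncurry, indicator_of_mem hq]
      · rw [indicator_of_notMem (show q ∉ {q : ℝ × Ω | q.1 ∈ Ioc a b} from hq)]
        simp [Function.uncurry, indicator_of_notMem hq]
    · by_cases hq : r ∈ Ioc a b
      · simp only [indicator_of_mem hq]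
        exact (hC ω).trans (le_max_left _ _)
      · simp only [indicator_of_notMem hq, norm_zero]
        exact le_max_right _ _
    · intro r ω hr
      have : r ∉ Ioc a b := fun hq => hr ⟨ha.trans_lt hq.1, hq.2.trans hbR⟩
      simp only [indicator_of_notMem this]
    · intro r hr
      rcases le_or_gt a r with har | har
      · have h1 : Measurable[F r] h := hh.mono (F.mono har) le_rfl
        have h2 : Measurable[F r] (B (min b r)) :=
          (hB.adapted _ (le_min hb hr)).mono (F.mono (min_le_right _ _)) le_rfl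
        have h3 : Measurable[F r] (B (min a r)) :=
          (hB.adapted _ (le_min ha hr)).mono (F.mono (min_le_right _ _)) le_rfl
        exact Measurable.inner h1 (h2.sub h3)
      · have : (fun ω => inner ℝ (h ω) (B (min b r) ω - B (min a r) ω)) = fun _ => 0 := by
          funext ω
          rw [min_eq_right har.le, min_eq_right (har.le.trans hab)]
          simp
        simp only [this]
        exact measurable_const
    · filter_upwards [hB.cont] with ω hω
      have : ∀ x, 0 ≤ x → ContinuousOn (fun r => B (min x r) ω) (Ici 0) := fun x hx =>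
        hω.comp (by fun_prop) (fun r hr => le_min hx hr)
      exact continuousOn_const.inner ((this b hb).sub (this a ha))
    · intro ω
      simp [min_eq_right hb, min_eq_right ha]
    · intro r hr
      funext ω
      have e3 : min b r = b := min_eq_left (hbR.trans hr)
      have e4 : min a r = a := min_eq_left (hab.trans (hbR.trans hr))
      simp only [e1, e2, e3, e4]
    · simp only [e1, e2]
      exact hB.inner_memLp ha hab hh ⟨C, hC⟩
    · simp only [e1, e2]
      exact (hB.integral_inner ha hab hh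
        ((bdd_memLp (F.le a) hh ⟨C, hC⟩).integrable (by norm_num))).2
  | zero =>
    refine ⟨?_, ⟨0, le_rfl, by simp⟩, by simp, ?_, ?_, by simp, by simp, ?_, by simp⟩
    · have : (Function.uncurry (0 : ℝ → Ω → E d)) = fun _ => 0 := by ext; simp [Function.uncurry]
      simp only [Prod.fst_zero, this]; exact measurable_const
    · intro r hr
      simp only [Prod.snd_zero, Pi.zero_apply]; exact measurable_const
    · filter_upwards with ω
      simpa using continuousOn_const
    · simp
  | add p q _ _ hp hq =>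
    obtain ⟨C, hC0, hC⟩ := hp.bdd
    obtain ⟨D, hD0, hD⟩ := hq.bdd
    refine ⟨?_, ⟨C + D, by positivity, fun r ω => ?_⟩, ?_, ?_, ?_, ?_, ?_, ?_, ?_⟩
    · exact hp.meas.add hq.meas
    · exact (norm_add_le _ _).trans (add_le_add (hC r ω) (hD r ω))
    · intro r ω hr
      simp [hp.supp r ω hr, hq.supp r ω hr]
    · intro r hr
      exact (hp.adapted r hr).add (hq.adapted r hr)
    · filter_upwards [hp.cont, hq.cont] with ω h1 h2 using h1.add h2
    · intro ω; simp [hp.zero ω, hq.zero ω]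
    · intro r hr
      simp [hp.const r hr, hq.const r hr]
    · exact hp.memLp.add hq.memLp
    · have : ∫ ω, (p + q).2 R ω ∂μ = ∫ ω, p.2 R ω ∂μ + ∫ ω, q.2 R ω ∂μ :=
        integral_add (hp.memLp.integrable (by norm_num)) (hq.memLp.integrable (by norm_num))
      rw [this, hp.mean, hq.mean, add_zero]
  | smul c p _ hp =>
    obtain ⟨C, hC0, hC⟩ := hp.bdd
    refine ⟨?_, ⟨|c| * C, by positivity, fun r ω => ?_⟩, ?_, ?_, ?_, ?_, ?_, ?_, ?_⟩
    · exact hp.meas.const_smul c
    · simp only [Prod.smul_fst, Pi.smul_apply, norm_smul]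
      exact mul_le_mul_of_nonneg_left (hC r ω) (abs_nonneg _)
    · intro r ω hr
      simp [hp.supp r ω hr]
    · intro r hr
      exact (hp.adapted r hr).const_smul c
    · filter_upwards [hp.cont] with ω h1 using h1.const_smul c
    · intro ω; simp [hp.zero ω]
    · intro r hr
      simp [hp.const r hr]
    · exact hp.memLp.const_smul c
    · have : ∫ ω, (c • p).2 R ω ∂μ = c * ∫ ω, p.2 R ω ∂μ := integral_const_mul _ _
      rw [this, hp.mean, mul_zero]

/-- the bilinear isometry statement -/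
def Iso (μ : Measure Ω) (R : ℝ) (p q : (ℝ → Ω → E d) × (ℝ → Ω → ℝ)) : Prop :=
  ∫ ω, p.2 R ω * q.2 R ω ∂μ = ∫ ω, (∫ r in Ioc 0 R, inner ℝ (p.1 r ω) (q.1 r ω)) ∂μ

lemma Nice.integrable_inner [IsProbabilityMeasure μ] {p q : (ℝ → Ω → E d) × (ℝ → Ω → ℝ)}
    (hp : Nice F μ R p) (hq : Nice F μ R q) :
    Integrable (fun x : Ω × ℝ => inner ℝ (p.1 x.2 x.1) (q.1 x.2 x.1))
      (μ.prod (volume.restrict (Ioc 0 R))) := by
  obtain ⟨C, hC0, hC⟩ := hp.bdd
  obtain ⟨D, hD0, hD⟩ := hq.bdd
  have hm : Measurable fun x : Ω × ℝ => inner ℝ (p.1 x.2 x.1) (q.1 x.2 x.1) :=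
    Measurable.inner (hp.meas.comp measurable_swap) (hq.meas.comp measurable_swap)
  refine Integrable.of_bound hm.aestronglyMeasurable (C * D) ?_
  filter_upwards with x
  exact (norm_inner_le_norm _ _).trans
    (mul_le_mul (hC _ _) (hD _ _) (norm_nonneg _) hC0)

lemma Nice.integrable_inner' [IsProbabilityMeasure μ] {p q : (ℝ → Ω → E d) × (ℝ → Ω → ℝ)}
    (hp : Nice F μ R p) (hq : Nice F μ R q) (ω : Ω) :
    Integrable (fun r => inner ℝ (p.1 r ω) (q.1 r ω)) (volume.restrict (Ioc 0 R)) := by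
  obtain ⟨C, hC0, hC⟩ := hp.bdd
  obtain ⟨D, hD0, hD⟩ := hq.bdd
  have hm : Measurable fun r : ℝ => inner ℝ (p.1 r ω) (q.1 r ω) :=
    Measurable.inner (hp.meas.comp measurable_prodMk_right)
      (hq.meas.comp measurable_prodMk_right)
  refine Integrable.of_bound hm.aestronglyMeasurable (C * D) ?_
  filter_upwards with x
  exact (norm_inner_le_norm _ _).trans
    (mul_le_mul (hC _ _) (hD _ _) (norm_nonneg _) hC0)

lemma Iso.add_left [IsProbabilityMeasure μ] {p p' q : (ℝ → Ω → E d) × (ℝ → Ω → ℝ)}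
    (hp : Nice F μ R p) (hp' : Nice F μ R p') (hq : Nice F μ R q)
    (h : Iso μ R p q) (h' : Iso μ R p' q) : Iso μ R (p + p') q := by
  have e1 : ∫ ω, (p + p').2 R ω * q.2 R ω ∂μ =
      ∫ ω, p.2 R ω * q.2 R ω ∂μ + ∫ ω, p'.2 R ω * q.2 R ω ∂μ := by
    have i1 : Integrable (fun ω => p.2 R ω * q.2 R ω) μ := hp.memLp.integrable_mul hq.memLp
    have i2 : Integrable (fun ω => p'.2 R ω * q.2 R ω) μ := hp'.memLp.integrable_mul hq.memLp
    rw [← integral_add i1 i2]
    refine integral_congr_ae ?_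
    filter_upwards with ω
    simp [add_mul]
  have e2 : ∫ ω, (∫ r in Ioc 0 R, inner ℝ ((p + p').1 r ω) (q.1 r ω)) ∂μ =
      ∫ ω, (∫ r in Ioc 0 R, inner ℝ (p.1 r ω) (q.1 r ω)) ∂μ +
      ∫ ω, (∫ r in Ioc 0 R, inner ℝ (p'.1 r ω) (q.1 r ω)) ∂μ := by
    rw [← integral_add (hp.integrable_inner hq).integral_prod_left
      (hp'.integrable_inner hq).integral_prod_left]
    refine integral_congr_ae ?_
    filter_upwards with ω
    rw [← integral_add (hp.integrable_inner' hq ω) (hp'.integrable_inner' hq ω)]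
    refine integral_congr_ae ?_
    filter_upwards with r
    simp [inner_add_left]
  unfold Iso at *
  rw [e1, e2, h, h']

lemma Iso.smul_left {p q : (ℝ → Ω → E d) × (ℝ → Ω → ℝ)} (c : ℝ)
    (h : Iso μ R p q) : Iso μ R (c • p) q := by
  unfold Iso at *
  simp only [Prod.smul_snd, Pi.smul_apply, smul_eq_mul, Prod.smul_fst, real_inner_smul_left,
    mul_assoc, integral_const_mul, h]

lemma Iso.zero_left {q : (ℝ → Ω → E d) × (ℝ → Ω → ℝ)} : Iso μ R 0 q := by
  unfold Iso
  simp

lemma Iso.symm {p q : (ℝ → Ω → E d) × (ℝ → Ω → ℝ)} (h : Iso μ R p q) : Iso μ R q p := by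
  unfold Iso at *
  simp_rw [mul_comm (q.2 _ _) (p.2 _ _), real_inner_comm (p.1 _ _) (q.1 _ _), h]

lemma integral_indicator_term {a b a' b' : ℝ} (ha : 0 ≤ a) (hbR : b ≤ R) (x y : E d) :
    ∫ r in Ioc 0 R, inner ℝ ((Ioc a b).indicator (fun _ => x) r)
      ((Ioc a' b').indicator (fun _ => y) r) = max 0 (min b b' - max a a') * inner ℝ x y := by
  have : (fun r : ℝ => inner ℝ ((Ioc a b).indicator (fun _ => x) r)
      ((Ioc a' b').indicator (fun _ => y) r)) =
      (Ioc (max a a') (min b b')).indicator (fun _ => inner ℝ x y) := by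
    funext r
    by_cases h1 : a < r <;> by_cases h2 : r ≤ b <;> by_cases h3 : a' < r <;> by_cases h4 : r ≤ b' <;>
      simp [indicator, h1, h2, h3, h4]
  rw [this, integral_indicator measurableSet_Ioc, Measure.restrict_restrict measurableSet_Ioc]
  have h2 : Ioc (max a a') (min b b') ∩ Ioc 0 R = Ioc (max a a') (min b b') := by
    apply inter_eq_left.2
    intro r hr
    exact ⟨ha.trans_lt ((le_max_left _ _).trans_lt hr.1), hr.2.trans ((min_le_left _ _).trans hbR)⟩
  rw [h2, setIntegral_const]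
  simp [Measure.real, Real.volume_Ioc, ENNReal.toReal_ofReal', max_comm]

lemma term_iso [IsProbabilityMeasure μ] (hB : FBM F B μ)
    {p q : (ℝ → Ω → E d) × (ℝ → Ω → ℝ)} (hp : p ∈ Term F B R) (hq : q ∈ Term F B R) :
    Iso μ R p q := by
  obtain ⟨a, b, h, ha, hab, hbR, hh, hhb, rfl⟩ := hp
  obtain ⟨a', b', h', ha', hab', hbR', hh', hhb', rfl⟩ := hq
  unfold Iso
  simp only [min_eq_left hbR, min_eq_left hbR', min_eq_left (hab.trans hbR),
    min_eq_left (hab'.trans hbR')]
  rw [(hB.pair ha ha' hab hab' hh hh' hhb hhb').2, ← integral_const_mul]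
  simp_rw [integral_indicator_term ha hbR]

lemma span_iso [IsProbabilityMeasure μ] (hB : FBM F B μ) (hR : 0 ≤ R)
    {p q : (ℝ → Ω → E d) × (ℝ → Ω → ℝ)} (hp : p ∈ Span F B R) (hq : q ∈ Span F B R) :
    Iso μ R p q := by
  have h1 : ∀ p ∈ Term F B R, ∀ q ∈ Span F B R, Iso μ R q p := by
    intro p hp q hq
    have hpN := span_nice hB hR (Submodule.subset_span hp)
    induction hq using Submodule.span_induction with
    | mem q hq => exact term_iso hB hq hp
    | zero => exact Iso.zero_left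
    | add q q' h h' hq hq' =>
      exact Iso.add_left (span_nice hB hR h) (span_nice hB hR h') hpN hq hq'
    | smul c q h hq => exact Iso.smul_left c hq
  have hqN := span_nice hB hR hq
  induction hp using Submodule.span_induction with
  | mem p hp => exact (h1 p hp q hq).symm
  | zero => exact Iso.zero_left
  | add p p' h h' hp hp' =>
    exact Iso.add_left (span_nice hB hR h) (span_nice hB hR h') hqN hp hp'
  | smul c p h hp => exact Iso.smul_left c hp

/-- the isometry in `ℝ≥0∞` form -/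
lemma span_isometry [IsProbabilityMeasure μ] (hB : FBM F B μ) (hR : 0 ≤ R)
    {p : (ℝ → Ω → E d) × (ℝ → Ω → ℝ)} (hp : p ∈ Span F B R) :
    ∫⁻ ω, ‖p.2 R ω‖ₑ ^ 2 ∂μ = ∫⁻ ω, (∫⁻ r in Ioc 0 R, ‖p.1 r ω‖ₑ ^ 2) ∂μ := by
  have hN := span_nice hB hR hp
  have h := span_iso hB hR hp hp
  unfold Iso at h
  have e1 : ∫⁻ ω, ‖p.2 R ω‖ₑ ^ 2 ∂μ = ENNReal.ofReal (∫ ω, p.2 R ω * p.2 R ω ∂μ) := by
    have i1 : Integrable (fun ω => p.2 R ω * p.2 R ω) μ := hN.memLp.integrable_mul hN.memLp
    rw [ofReal_integral_eq_lintegral_ofReal i1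
      (by filter_upwards with ω using mul_self_nonneg _)]
    refine lintegral_congr fun ω => ?_
    rw [← enorm_pow, Real.enorm_of_nonneg (by positivity)]
    congr 1
    simp [sq]
  have e2 : ∫⁻ ω, (∫⁻ r in Ioc 0 R, ‖p.1 r ω‖ₑ ^ 2) ∂μ =
      ENNReal.ofReal (∫ ω, (∫ r in Ioc 0 R, inner ℝ (p.1 r ω) (p.1 r ω)) ∂μ) := by
    rw [ofReal_integral_eq_lintegral_ofReal (hN.integrable_inner hN).integral_prod_left
      (by filter_upwards with ω using integral_nonneg fun r => real_inner_self_nonneg)]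
    refine lintegral_congr fun ω => ?_
    rw [ofReal_integral_eq_lintegral_ofReal (hN.integrable_inner' hN ω)
      (by filter_upwards with ω using real_inner_self_nonneg)]
    refine lintegral_congr fun r => ?_
    rw [real_inner_self_eq_norm_sq, ENNReal.ofReal_pow (norm_nonneg _), ofReal_norm]
  rw [e1, e2, h]

end

end BSDE
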