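import Pool.Agent.H32.BSDE.Ito

open MeasureTheory ProbabilityTheory Filter Set
open scoped ENNReal NNReal Topology

namespace BSDE

variable {Ω : Type*} {m : MeasurableSpace Ω} {d : ℕ}

lemma one_le_log {x : ℝ} (hx : 0 ≤ x) : 1 ≤ Real.log (Real.exp 1 + x) := by
  rw [Real.le_log_iff_exp_le (by positivity)]
  linarith

lemma gen_nonneg (z : E d) : 0 ≤ gen z := by unfold gen; positivity

lemma gen_le_norm (z : E d) : gen z ≤ ‖z‖ := by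
  unfold gen
  refine div_le_self (norm_nonneg _) ?_
  rw [Real.one_le_sqrt]
  exact one_le_log (norm_nonneg _)

lemma measurable_gen : Measurable (gen : E d → ℝ) := by
  unfold gen
  fun_prop

section
variable {F : Filtration ℝ m} {μ : Measure Ω} {T : ℝ} {B : ℝ → Ω → E d}
  {ξ : Ω → ℝ} {Y : ℝ → Ω → ℝ} {Z : ℝ → Ω → E d}

/-- integrability of the generator along almost every path -/
lemma gen_integrable (hT : 0 ≤ T) (hZ : Progressive F T Z)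
    (hsq : ∀ᵐ ω ∂μ, ∫⁻ r in Icc 0 T, ‖Z r ω‖ₑ ^ 2 < ⊤) :
    ∀ᵐ ω ∂μ, IntegrableOn (fun r => gen (Z r ω)) (Icc 0 T) := by
  filter_upwards [hsq] with ω hω
  have hm := hZ.section_aesm hT ω
  have hmL : MemLp (fun r => Z r ω) 2 (volume.restrict (Icc 0 T)) := by
    refine ⟨hm.aestronglyMeasurable, ?_⟩
    have : eLpNorm (fun r => Z r ω) 2 (volume.restrict (Icc 0 T)) ^ 2 < ⊤ := by
      rw [eLpNorm_two_sq]; exact hω
    by_contra hcon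
    rw [not_lt, top_le_iff] at hcon
    rw [hcon] at this
    simp at this
  have hi : Integrable (fun r => Z r ω) (volume.restrict (Icc 0 T)) :=
    hmL.integrable (by norm_num)
  refine hi.norm.mono (measurable_gen.comp_aemeasurable hm).aestronglyMeasurable ?_
  filter_upwards with r
  rw [Real.norm_of_nonneg (gen_nonneg _), norm_norm]
  exact gen_le_norm _

/-- the equation along almost every path -/
lemma sol_path (hT : 0 ≤ T) (hZ : Progressive F T Z)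
    (hsq : ∀ᵐ ω ∂μ, ∫⁻ r in Icc 0 T, ‖Z r ω‖ₑ ^ 2 < ⊤) {I : ℝ → Ω → ℝ}
    (heq : ∀ᵐ ω ∂μ, ∀ t ∈ Icc 0 T, Y t ω = ξ ω + (∫ r in t..T, gen (Z r ω)) - (I T ω - I t ω)) :
    ∀ᵐ ω ∂μ, ∀ s t, 0 ≤ s → s ≤ t → t ≤ T →
      ∫⁻ r in Ioc s t, ENNReal.ofReal (gen (Z r ω)) ≠ ⊤ ∧
      Y s ω = Y t ω + (∫⁻ r in Ioc s t, ENNReal.ofReal (gen (Z r ω))).toReal -
        (I t ω - I s ω) := by
  filter_upwards [heq, gen_integrable hT hZ hsq] with ω h1 h2 s t hs hst htT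
  have hii : ∀ a b, a ∈ Icc 0 T → b ∈ Icc 0 T →
      IntervalIntegrable (fun r => gen (Z r ω)) volume a b := by
    intro a b ha hb
    rw [intervalIntegrable_iff]
    refine h2.mono_set ?_
    intro x hx
    rw [uIoc, mem_Ioc] at hx
    exact ⟨(le_min ha.1 hb.1).trans hx.1.le, hx.2.trans (max_le ha.2 hb.2)⟩
  have hsI : s ∈ Icc 0 T := ⟨hs, hst.trans htT⟩
  have htI : t ∈ Icc 0 T := ⟨hs.trans hst, htT⟩
  have hTI : T ∈ Icc 0 T := ⟨hT, le_rfl⟩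
  have h3 := intervalIntegral.integral_add_adjacent_intervals (hii s t hsI htI) (hii t T htI hTI)
  have h4 : ∫ r in s..t, gen (Z r ω) = (∫⁻ r in Ioc s t, ENNReal.ofReal (gen (Z r ω))).toReal := by
    rw [intervalIntegral.integral_of_le hst, integral_eq_lintegral_of_nonneg_ae]
    · filter_upwards with r using gen_nonneg _
    · exact ((intervalIntegrable_iff_integrableOn_Ioc_of_le hst).1 (hii s t hsI htI)).1
  constructor
  · have h5 := ((intervalIntegrable_iff_integrableOn_Ioc_of_le hst).1 (hii s t hsI htI)).2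
    rw [hasFiniteIntegral_iff_ofReal] at h5
    · exact h5.ne
    · filter_upwards with r using gen_nonneg _
  · rw [← h4, h1 s hsI, h1 t htI]
    linarith

lemma ClassD.unifIntegrable (hD : ClassD F μ T Y) {τ : ℕ → Ω → ℝ} (hτ : ∀ n, IsStop F T (τ n)) :
    UnifIntegrable (fun n ω => Y (τ n ω) ω) 1 μ := by
  intro ε hε
  obtain ⟨δ, hδ, h⟩ := hD.2.1 hε
  exact ⟨δ, hδ, fun n s hs hμs => h ⟨τ n, hτ n⟩ s hs hμs⟩

lemma ClassD.memLp (hD : ClassD F μ T Y) {τ : Ω → ℝ} (hτ : IsStop F T τ) :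
    MemLp (fun ω => Y (τ ω) ω) 1 μ :=
  UniformIntegrable.memLp (f := fun (σ : {σ : Ω → ℝ // IsStop F T σ}) (ω : Ω) => Y (σ.1 ω) ω)
    hD ⟨τ, hτ⟩

/-- The basic martingale identities for a solution of class (D). -/
theorem star [IsProbabilityMeasure μ] (hB : FBM F B μ) (hT : 0 ≤ T)
    (hZ : Progressive F T Z) (hsq : ∀ᵐ ω ∂μ, ∫⁻ r in Icc 0 T, ‖Z r ω‖ₑ ^ 2 < ⊤)
    (hYc : ∀ᵐ ω ∂μ, ContinuousOn (fun t => Y t ω) (Icc 0 T))
    {I : ℝ → Ω → ℝ} (hI : IsIto F μ B T Z I)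
    (heq : ∀ᵐ ω ∂μ, ∀ t ∈ Icc 0 T, Y t ω = ξ ω + (∫ r in t..T, gen (Z r ω)) - (I T ω - I t ω))
    (hD : ClassD F μ T Y) {s : ℝ} (hs : s ∈ Icc 0 T) {ϑ : Ω → ℝ} (hϑ : Measurable[F s] ϑ)
    (hϑ0 : ∀ ω, 0 ≤ ϑ ω) (hϑb : ∃ C : ℝ, ∀ ω, |ϑ ω| ≤ C)
    {ρ : Ω → ℝ} (hρ : IsStop F T ρ) (hsρ : ∀ ω, s ≤ ρ ω) :
    Integrable (fun ω => ϑ ω * Y s ω) μ ∧ Integrable (fun ω => ϑ ω * Y (ρ ω) ω) μ ∧
    Integrable (fun ω => ϑ ω * (I (ρ ω) ω - I s ω)) μ ∧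
    ∫ ω, ϑ ω * (I (ρ ω) ω - I s ω) ∂μ = 0 ∧
    0 ≤ ∫ ω, ϑ ω * Y s ω ∂μ - ∫ ω, ϑ ω * Y (ρ ω) ω ∂μ ∧
    AEMeasurable (fun ω => ENNReal.ofReal (ϑ ω) *
      (∫⁻ r in Ioc s (ρ ω), ENNReal.ofReal (gen (Z r ω)))) μ ∧
    ∫⁻ ω, ENNReal.ofReal (ϑ ω) * (∫⁻ r in Ioc s (ρ ω), ENNReal.ofReal (gen (Z r ω))) ∂μ =
      ENNReal.ofReal (∫ ω, ϑ ω * Y s ω ∂μ - ∫ ω, ϑ ω * Y (ρ ω) ω ∂μ) := by
  obtain ⟨C, hC⟩ := hϑb
  have hϑm : Measurable ϑ := hϑ.mono (F.le s) le_rfl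
  -- localisation
  have hhit : ∀ n : ℕ, ∃ τ : Ω → ℝ, IsStop F T τ ∧ (∀ ω, s ≤ τ ω) ∧
      ∀ᵐ ω ∂μ, (∀ r ∈ Ico s (τ ω), |I r ω - I s ω| < (n : ℝ)) ∧
        (τ ω < T → (n : ℝ) ≤ |I (τ ω) ω - I s ω|) ∧
        (|I s ω - I s ω| ≤ n → ∀ r ∈ Icc s (τ ω), |I r ω - I s ω| ≤ n) := by
    intro n
    refine exists_hit (μ := μ) hB.null (X := fun r ω => |I r ω - I s ω|) hs.1 hs.2 n ?_ ?_
    · intro r hr
      have h1 : Measurable[F r] (I r) := hI.adapted r ⟨hs.1.trans hr.1, hr.2⟩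
      have h2 : Measurable[F r] (I s) := (hI.adapted s hs).mono (F.mono hr.1) le_rfl
      exact @Measurable.comp _ _ _ (F r) _ _ _ _ measurable_abs (h1.sub h2)
    · filter_upwards [hI.continuous] with ω hω
      exact ((hω.mono fun x hx => ⟨hs.1.trans hx.1, hx.2⟩).sub continuousOn_const).abs
  choose τ hτS hτs hτae using hhit
  obtain ⟨σ, hσdef⟩ : ∃ σ : ℕ → Ω → ℝ, σ = fun n ω => min (ρ ω) (τ n ω) := ⟨_, rfl⟩
  have hσS : ∀ n, IsStop F T (σ n) := fun n => by rw [hσdef]; exact hρ.min (hτS n)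
  have hσs : ∀ n ω, s ≤ σ n ω := fun n ω => by rw [hσdef]; exact le_min (hsρ ω) (hτs n ω)
  have hσρ : ∀ n ω, σ n ω ≤ ρ ω := fun n ω => by rw [hσdef]; exact min_le_left _ _
  have hστ : ∀ n ω, σ n ω ≤ τ n ω := fun n ω => by rw [hσdef]; exact min_le_right _ _
  have hev : ∀ᵐ ω ∂μ, ∀ᶠ n in atTop, σ n ω = ρ ω := by
    filter_upwards [hI.continuous, ae_all_iff.2 hτae] with ω hω hωτ
    have hcont : ContinuousOn (fun r => |I r ω - I s ω|) (Icc s T) :=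
      ((hω.mono fun x hx => ⟨hs.1.trans hx.1, hx.2⟩).sub continuousOn_const).abs
    obtain ⟨M, hM⟩ := (isCompact_Icc.image_of_continuousOn hcont).bddAbove
    filter_upwards [eventually_gt_atTop ⌈M⌉₊] with n hn
    rw [hσdef]
    refine min_eq_left ?_
    by_contra hcon
    rw [not_le] at hcon
    have h1 := (hωτ n).2.1 (hcon.trans_le (hρ.1 ω).2)
    have h2 := hM ⟨τ n ω, ⟨hτs n ω, ((hτS n).1 ω).2⟩, rfl⟩
    have h3 : M < n := (Nat.le_ceil M).trans_lt (by exact_mod_cast hn)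
    simp only at h2
    linarith
  -- the stochastic integral up to `σ n`
  have hCabs : 0 ≤ |C| := abs_nonneg _
  have hstop : ∀ n, AEStronglyMeasurable (fun ω => ϑ ω * (I (σ n ω) ω - I s ω)) μ ∧
      Integrable (fun ω => ϑ ω * (I (σ n ω) ω - I s ω)) μ ∧
      ∫ ω, ϑ ω * (I (σ n ω) ω - I s ω) ∂μ = 0 := by
    intro n
    have hbd : ∀ᵐ ω ∂μ, ∀ r ∈ Icc s (σ n ω), |ϑ ω * (I r ω - I s ω)| ≤ |C| * n := by
      filter_upwards [hτae n] with ω hω r hr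
      rw [abs_mul]
      refine mul_le_mul ((hC ω).trans (le_abs_self _)) ?_ (abs_nonneg _) hCabs
      exact hω.2.2 (by simp) r ⟨hr.1, hr.2.trans (hστ n ω)⟩
    have h := IsIto.stop hB hT hI hZ hs hϑ ⟨C, hC⟩ (θ := fun _ => 0) measurable_const
      ⟨0, by simp⟩ (hσS n) (hσs n) (C := |C| * n) (by positivity) (by
        filter_upwards [hbd] with ω hω r hr
        simpa using hω r hr)
    simp only [inner_zero_left, sub_zero] at h
    refine ⟨h.1, ?_, h.2.1⟩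
    refine Integrable.of_bound h.1 (|C| * n) ?_
    filter_upwards [hbd] with ω hω
    exact hω _ ⟨hσs n ω, le_rfl⟩
  -- integrability of Y
  have hYs : MemLp (fun ω => Y s ω) 1 μ := hD.memLp (isStop_const hs)
  have hYρ : MemLp (fun ω => Y (ρ ω) ω) 1 μ := hD.memLp hρ
  have hYσ : ∀ n, MemLp (fun ω => Y (σ n ω) ω) 1 μ := fun n => hD.memLp (hσS n)
  have hmul : ∀ {f : Ω → ℝ}, MemLp f 1 μ → Integrable (fun ω => ϑ ω * f ω) μ := by
    intro f hf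
    refine Integrable.bdd_mul (c := C) (memLp_one_iff_integrable.1 hf)
      hϑm.aestronglyMeasurable ?_
    filter_upwards with ω using hC ω
  -- convergence of E ϑ Y_{σ n}
  have hYlim : Tendsto (fun n => ∫ ω, ϑ ω * Y (σ n ω) ω ∂μ) atTop
      (𝓝 (∫ ω, ϑ ω * Y (ρ ω) ω ∂μ)) := by
    have h1 : Tendsto (fun n => eLpNorm ((fun ω => Y (σ n ω) ω) - fun ω => Y (ρ ω) ω) 1 μ) atTop
        (𝓝 0) := by
      refine tendsto_Lp_finite_of_tendsto_ae le_rfl (by simp) (fun n => (hYσ n).1) hYρ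
        (hD.unifIntegrable hσS) ?_
      filter_upwards [hev] with ω hω
      exact tendsto_nhds_of_eventually_eq (hω.mono fun n hn => by rw [hn])
    refine tendsto_integral_of_L1' _ (hmul hYρ).1
      (Eventually.of_forall fun n => hmul (hYσ n)) ?_
    have h2 : Tendsto (fun n => ENNReal.ofReal |C| *
        eLpNorm ((fun ω => Y (σ n ω) ω) - fun ω => Y (ρ ω) ω) 1 μ) atTop (𝓝 0) := by
      have := ENNReal.Tendsto.const_mul (a := ENNReal.ofReal |C|) h1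
        (Or.inr ENNReal.ofReal_ne_top)
      simpa using this
    refine tendsto_of_tendsto_of_tendsto_of_le_of_le tendsto_const_nhds h2 (fun _ => bot_le) ?_
    intro n
    refine eLpNorm_le_mul_eLpNorm_of_ae_le_mul ?_ _
    filter_upwards with ω
    simp only [Pi.sub_apply]
    rw [← mul_sub, norm_mul]
    exact mul_le_mul_of_nonneg_right ((hC ω).trans (le_abs_self _)) (norm_nonneg _)
  -- the generator part
  obtain ⟨g, hg⟩ : ∃ g : (Ω → ℝ) → Ω → ℝ≥0∞, g = fun τ ω =>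
    ∫⁻ r in Ioc s (τ ω), ENNReal.ofReal (gen (Z r ω)) := ⟨_, rfl⟩
  have hpath := sol_path (μ := μ) hT hZ hsq heq
  have hgσ : ∀ n, ∀ᵐ ω ∂μ, g (σ n) ω ≠ ⊤ ∧
      ϑ ω * (g (σ n) ω).toReal = ϑ ω * Y s ω - ϑ ω * Y (σ n ω) ω +
        ϑ ω * (I (σ n ω) ω - I s ω) := by
    intro n
    filter_upwards [hpath] with ω hω
    have := hω s (σ n ω) hs.1 (hσs n ω) ((hσS n).1 ω).2
    rw [hg]
    refine ⟨this.1, ?_⟩
    rw [this.2]; ring
  have hint3 : ∀ n, Integrable (fun ω => ϑ ω * Y s ω - ϑ ω * Y (σ n ω) ω +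
      ϑ ω * (I (σ n ω) ω - I s ω)) μ := fun n =>
    ((hmul hYs).sub (hmul (hYσ n))).add (hstop n).2.1
  have hgint : ∀ n, Integrable (fun ω => ϑ ω * (g (σ n) ω).toReal) μ := fun n =>
    (hint3 n).congr ((hgσ n).mono fun ω hω => hω.2.symm)
  have hgval : ∀ n, ∫ ω, ϑ ω * (g (σ n) ω).toReal ∂μ =
      ∫ ω, ϑ ω * Y s ω ∂μ - ∫ ω, ϑ ω * Y (σ n ω) ω ∂μ := by
    intro n
    rw [integral_congr_ae ((hgσ n).mono fun ω hω => hω.2)]
    have e1 : ∫ ω, (ϑ ω * Y s ω - ϑ ω * Y (σ n ω) ω + ϑ ω * (I (σ n ω) ω - I s ω)) ∂μ =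
        ∫ ω, (ϑ ω * Y s ω - ϑ ω * Y (σ n ω) ω) ∂μ + ∫ ω, ϑ ω * (I (σ n ω) ω - I s ω) ∂μ :=
      integral_add ((hmul hYs).sub (hmul (hYσ n))) (hstop n).2.1
    rw [e1, (hstop n).2.2, add_zero, integral_sub (hmul hYs) (hmul (hYσ n))]
  have hgL : ∀ n, ∫⁻ ω, ENNReal.ofReal (ϑ ω) * g (σ n) ω ∂μ =
      ENNReal.ofReal (∫ ω, ϑ ω * Y s ω ∂μ - ∫ ω, ϑ ω * Y (σ n ω) ω ∂μ) := by
    intro n
    rw [← hgval n, ofReal_integral_eq_lintegral_ofReal (hgint n)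
      (by filter_upwards with ω using mul_nonneg (hϑ0 ω) ENNReal.toReal_nonneg)]
    refine lintegral_congr_ae ?_
    filter_upwards [hgσ n] with ω hω
    rw [ENNReal.ofReal_mul (hϑ0 ω), ENNReal.ofReal_toReal hω.1]
  have hgm : ∀ n, AEMeasurable (fun ω => ENNReal.ofReal (ϑ ω) * g (σ n) ω) μ := by
    intro n
    refine (hgint n).1.aemeasurable.ennreal_ofReal.congr ?_
    filter_upwards [hgσ n] with ω hω
    rw [ENNReal.ofReal_mul (hϑ0 ω), ENNReal.ofReal_toReal hω.1]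
  have hmono : ∀ n ω, g (σ n) ω ≤ g ρ ω := fun n ω => by
    rw [hg]
    exact lintegral_mono_set (Ioc_subset_Ioc_right (hσρ n ω))
  have hgev : ∀ᵐ ω ∂μ, ∀ᶠ n in atTop, g (σ n) ω = g ρ ω := by
    filter_upwards [hev] with ω hω
    filter_upwards [hω] with n hn
    rw [hg]; simp only [hn]
  have hLlim : Tendsto (fun n => ∫⁻ ω, ENNReal.ofReal (ϑ ω) * g (σ n) ω ∂μ) atTop
      (𝓝 (∫⁻ ω, ENNReal.ofReal (ϑ ω) * g ρ ω ∂μ)) := by
    refine tendsto_of_le_liminf_of_limsup_le ?_ ?_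
    · refine le_trans (lintegral_mono_ae ?_) (lintegral_liminf_le' hgm)
      filter_upwards [hgev] with ω hω
      have : Tendsto (fun n => ENNReal.ofReal (ϑ ω) * g (σ n) ω) atTop
          (𝓝 (ENNReal.ofReal (ϑ ω) * g ρ ω)) :=
        tendsto_nhds_of_eventually_eq (hω.mono fun n hn => by rw [hn])
      rw [this.liminf_eq]
    · refine (limsup_le_limsup (v := fun _ => ∫⁻ ω, ENNReal.ofReal (ϑ ω) * g ρ ω ∂μ)
        (Eventually.of_forall fun n => ?_)).trans (by simp)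
      exact lintegral_mono fun ω => mul_le_mul_right (hmono n ω) _
  have hdlim : Tendsto (fun n => ∫ ω, ϑ ω * Y s ω ∂μ - ∫ ω, ϑ ω * Y (σ n ω) ω ∂μ) atTop
      (𝓝 (∫ ω, ϑ ω * Y s ω ∂μ - ∫ ω, ϑ ω * Y (ρ ω) ω ∂μ)) := tendsto_const_nhds.sub hYlim
  have hfinal : ∫⁻ ω, ENNReal.ofReal (ϑ ω) * g ρ ω ∂μ =
      ENNReal.ofReal (∫ ω, ϑ ω * Y s ω ∂μ - ∫ ω, ϑ ω * Y (ρ ω) ω ∂μ) := by
    refine tendsto_nhds_unique hLlim ?_
    simp_rw [hgL]
    exact ENNReal.tendsto_ofReal hdlim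
  have hnonneg : 0 ≤ ∫ ω, ϑ ω * Y s ω ∂μ - ∫ ω, ϑ ω * Y (ρ ω) ω ∂μ := by
    refine ge_of_tendsto' hdlim fun n => ?_
    rw [← hgval n]
    exact integral_nonneg fun ω => mul_nonneg (hϑ0 ω) ENNReal.toReal_nonneg
  -- the stochastic integral up to `ρ`
  have hpρ : ∀ᵐ ω ∂μ, g ρ ω ≠ ⊤ ∧ ϑ ω * (I (ρ ω) ω - I s ω) =
      ϑ ω * (g ρ ω).toReal - (ϑ ω * Y s ω - ϑ ω * Y (ρ ω) ω) := by
    filter_upwards [hpath] with ω hω
    have := hω s (ρ ω) hs.1 (hsρ ω) (hρ.1 ω).2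
    rw [hg]
    refine ⟨this.1, ?_⟩
    rw [this.2]; ring
  have hgρm : AEStronglyMeasurable (fun ω => ϑ ω * (g ρ ω).toReal) μ := by
    refine aestronglyMeasurable_of_tendsto_ae atTop (fun n => (hgint n).1) ?_
    filter_upwards [hgev] with ω hω
    exact tendsto_nhds_of_eventually_eq (hω.mono fun n hn => by rw [hn])
  have hgρL : ∫⁻ ω, ENNReal.ofReal (ϑ ω * (g ρ ω).toReal) ∂μ =
      ENNReal.ofReal (∫ ω, ϑ ω * Y s ω ∂μ - ∫ ω, ϑ ω * Y (ρ ω) ω ∂μ) := by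
    rw [← hfinal]
    refine lintegral_congr_ae ?_
    filter_upwards [hpρ] with ω hω
    rw [ENNReal.ofReal_mul (hϑ0 ω), ENNReal.ofReal_toReal hω.1]
  have hgρint : Integrable (fun ω => ϑ ω * (g ρ ω).toReal) μ := by
    refine ⟨hgρm, ?_⟩
    rw [hasFiniteIntegral_iff_ofReal
      (by filter_upwards with ω using mul_nonneg (hϑ0 ω) ENNReal.toReal_nonneg), hgρL]
    exact ENNReal.ofReal_lt_top
  have hgρval : ∫ ω, ϑ ω * (g ρ ω).toReal ∂μ =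
      ∫ ω, ϑ ω * Y s ω ∂μ - ∫ ω, ϑ ω * Y (ρ ω) ω ∂μ := by
    rw [integral_eq_lintegral_of_nonneg_ae
      (by filter_upwards with ω using mul_nonneg (hϑ0 ω) ENNReal.toReal_nonneg) hgρm, hgρL,
      ENNReal.toReal_ofReal hnonneg]
  have hIint : Integrable (fun ω => ϑ ω * (g ρ ω).toReal -
      (ϑ ω * Y s ω - ϑ ω * Y (ρ ω) ω)) μ := hgρint.sub ((hmul hYs).sub (hmul hYρ))
  refine ⟨hmul hYs, hmul hYρ, hIint.congr (hpρ.mono fun ω hω => hω.2.symm), ?_, hnonneg, ?_, ?_⟩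
  · rw [integral_congr_ae (hpρ.mono fun ω hω => hω.2)]
    have e1 : ∫ ω, (ϑ ω * (g ρ ω).toReal - (ϑ ω * Y s ω - ϑ ω * Y (ρ ω) ω)) ∂μ =
        ∫ ω, ϑ ω * (g ρ ω).toReal ∂μ - ∫ ω, (ϑ ω * Y s ω - ϑ ω * Y (ρ ω) ω) ∂μ :=
      integral_sub hgρint ((hmul hYs).sub (hmul hYρ))
    rw [e1, integral_sub (hmul hYs) (hmul hYρ), hgρval, sub_self]
  · refine hgρm.aemeasurable.ennreal_ofReal.congr ?_
    filter_upwards [hpρ] with ω hω
    rw [ENNReal.ofReal_mul (hϑ0 ω), ENNReal.ofReal_toReal hω.1, hg]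
  · rw [← hfinal, hg]

end

end BSDE
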