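import Pool.Agent.H32.BSDE.L2

open MeasureTheory ProbabilityTheory Filter Set
open scoped ENNReal NNReal Topology

namespace BSDE

variable {Ω : Type*} {m : MeasurableSpace Ω} {d : ℕ}

section
variable {F : Filtration ℝ m} {B : ℝ → Ω → E d} {μ : Measure Ω} {T : ℝ}

/-- grid approximation from above -/
noncomputable def gr (K : ℕ) (σ : Ω → ℝ) (ω : Ω) : ℝ := (⌊(K : ℝ) * σ ω⌋₊ + 1 : ℕ) / (K : ℝ)

lemma gr_gt {K : ℕ} (hK : 0 < K) (σ : Ω → ℝ) (ω : Ω) : σ ω < gr K σ ω := by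
  have hK' : (0 : ℝ) < K := by exact_mod_cast hK
  rw [gr, lt_div_iff₀ hK']
  push_cast
  have := Nat.lt_floor_add_one ((K : ℝ) * σ ω)
  linarith

lemma gr_le {K : ℕ} (hK : 0 < K) {σ : Ω → ℝ} {ω : Ω} (h : 0 ≤ σ ω) :
    gr K σ ω ≤ σ ω + 1 / K := by
  have hK' : (0 : ℝ) < K := by exact_mod_cast hK
  rw [gr, div_le_iff₀ hK']
  push_cast
  have := Nat.floor_le (a := (K : ℝ) * σ ω) (by positivity)
  field_simp
  linarith

lemma IsStop.measurableSet_ge {σ : Ω → ℝ} (hσ : IsStop F T σ) (t : ℝ) :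
    MeasurableSet[F t] {ω | t ≤ σ ω} := by
  have : {ω | t ≤ σ ω} = (⋃ n : ℕ, {ω | σ ω ≤ t - 1 / (n + 1 : ℝ)})ᶜ := by
    ext ω
    simp only [mem_ofPred_eq, mem_compl_iff, mem_iUnion, not_exists, not_le]
    constructor
    · intro h n
      have : (0 : ℝ) < 1 / (n + 1 : ℝ) := by positivity
      linarith
    · intro h
      by_contra hlt
      rw [not_le] at hlt
      obtain ⟨n, hn⟩ := exists_nat_one_div_lt (sub_pos.2 hlt)
      have := h n
      linarith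
  rw [this]
  refine (MeasurableSet.iUnion fun n => ?_).compl
  have hle : t - 1 / (n + 1 : ℝ) ≤ t := by
    have : (0 : ℝ) < 1 / (n + 1 : ℝ) := by positivity
    linarith
  exact F.mono hle _ (hσ.2 _)

lemma IsStop.measurable {σ : Ω → ℝ} (hσ : IsStop F T σ) : Measurable σ :=
  measurable_of_Iic fun t => F.le t _ (hσ.2 t)

lemma stop_grid (hT : 0 ≤ T) {σ : Ω → ℝ} (hσ : IsStop F T σ)
    {p : (ℝ → Ω → E d) × (ℝ → Ω → ℝ)} (hp : p ∈ Span F B (T + 1)) {K : ℕ} (hK : 0 < K) :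
    ∃ q ∈ Span F B (T + 1),
      (∀ r ω, q.1 r ω = (Ioc 0 (gr K σ ω)).indicator (fun r => p.1 r ω) r) ∧
      (∀ ω, q.2 (T + 1) ω = p.2 (gr K σ ω) ω - p.2 0 ω) := by
  classical
  have hK' : (0 : ℝ) < K := by exact_mod_cast hK
  set ϑ : ℕ → Ω → ℝ := fun k => {ω | (k : ℝ) / K ≤ σ ω}.indicator (fun _ => 1) with hϑ
  set M : ℕ := ⌊(K : ℝ) * (T + 1)⌋₊ with hM
  have hϑm : ∀ (k : ℕ) (s : ℝ), (k : ℝ) / K ≤ s → Measurable[F s] (ϑ k) := by
    intro k s hks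
    exact measurable_const.indicator (F.mono hks _ (hσ.measurableSet_ge _))
  have hϑb : ∀ k, ∃ C : ℝ, ∀ ω, |ϑ k ω| ≤ C := fun k => ⟨1, fun ω => by
    by_cases h : ω ∈ {ω | (k : ℝ) / K ≤ σ ω}
    · simp only [hϑ, indicator_of_mem h]; simp
    · simp only [hϑ, indicator_of_notMem h]; simp⟩
  have hϑv : ∀ k ω, ϑ k ω = if k ≤ ⌊(K : ℝ) * σ ω⌋₊ then 1 else 0 := by
    intro k ω
    have h0 : 0 ≤ (K : ℝ) * σ ω := mul_nonneg hK'.le (hσ.1 ω).1
    have : (k : ℝ) / K ≤ σ ω ↔ k ≤ ⌊(K : ℝ) * σ ω⌋₊ := by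
      rw [Nat.le_floor_iff h0, div_le_iff₀ hK', mul_comm]
    by_cases h : ω ∈ {ω | (k : ℝ) / K ≤ σ ω}
    · simp only [hϑ, indicator_of_mem h]
      rw [if_pos (this.1 h)]
    · simp only [hϑ, indicator_of_notMem h]
      rw [if_neg (fun h' => h (this.2 h'))]
  have hlM : ∀ ω, ⌊(K : ℝ) * σ ω⌋₊ + 1 ≤ M := by
    intro ω
    have h0 : 0 ≤ (K : ℝ) * σ ω := mul_nonneg hK'.le (hσ.1 ω).1
    rw [hM]
    apply Nat.le_floor
    push_cast
    have h1 := Nat.floor_le h0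
    have h2 : (K : ℝ) * σ ω ≤ K * T := mul_le_mul_of_nonneg_left (hσ.1 ω).2 hK'.le
    have h3 : (1 : ℝ) ≤ K := by exact_mod_cast hK
    linarith
  have hkM : ∀ k ≤ M, (k : ℝ) / K ≤ T + 1 := by
    intro k hk
    have h1 : (k : ℝ) ≤ (K : ℝ) * (T + 1) := (Nat.le_floor_iff (by positivity)).1 hk
    rw [div_le_iff₀ hK']; linarith
  -- telescoping
  have tele : ∀ {V : Type} [AddCommGroup V] [Module ℝ V] (g : ℕ → V) (ω : Ω),
      ∑ k ∈ Finset.range M, (ϑ k ω • g k - ϑ k ω • g (k + 1)) =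
        g 0 - g (⌊(K : ℝ) * σ ω⌋₊ + 1) := by
    intro V _ _ g ω
    have hsub : Finset.range (⌊(K : ℝ) * σ ω⌋₊ + 1) ⊆ Finset.range M :=
      Finset.range_subset_range.2 (hlM ω)
    rw [← Finset.sum_subset hsub, ← Finset.sum_range_sub']
    · refine Finset.sum_congr rfl fun k hk => ?_
      rw [hϑv, if_pos (Nat.lt_succ_iff.1 (Finset.mem_range.1 hk)), one_smul, one_smul]
    · intro k _ hk
      rw [hϑv, if_neg (by simpa [Nat.lt_succ_iff] using hk), zero_smul, zero_smul, sub_zero]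
  refine ⟨∑ k ∈ Finset.range M, (restr ((k : ℝ) / K) (ϑ k) p -
    restr (((k + 1 : ℕ) : ℝ) / K) (ϑ k) p), ?_, ?_, ?_⟩
  · refine Submodule.sum_mem _ fun k hk => ?_
    have hk1 : k + 1 ≤ M := Finset.mem_range.1 hk
    have h1 : (k : ℝ) / K ≤ ((k + 1 : ℕ) : ℝ) / K := by
      apply div_le_div_of_nonneg_right _ hK'.le
      push_cast; linarith
    exact Submodule.sub_mem _
      (restr_mem (by positivity) (hkM k (by omega)) (hϑm k _ le_rfl) (hϑb k) hp)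
      (restr_mem (by positivity) (hkM (k + 1) hk1) (hϑm k _ h1) (hϑb k) hp)
  · intro r ω
    have := tele (fun k => (Ioi ((k : ℝ) / K)).indicator (fun r => p.1 r ω) r) ω
    rw [Prod.fst_sum, Finset.sum_apply, Finset.sum_apply]
    have h2 : ∀ k : ℕ, ((restr ((k : ℝ) / K) (ϑ k) p -
        restr (((k + 1 : ℕ) : ℝ) / K) (ϑ k) p).1 r ω) =
        ϑ k ω • (Ioi ((k : ℝ) / K)).indicator (fun r => p.1 r ω) r -
        ϑ k ω • (Ioi (((k + 1 : ℕ) : ℝ) / K)).indicator (fun r => p.1 r ω) r := by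
      intro k
      simp only [restr, LinearMap.coe_mk, AddHom.coe_mk, Prod.fst_sub, Pi.sub_apply]
      congr 1
      · by_cases h : r ∈ Ioi ((k : ℝ) / K)
        · rw [indicator_of_mem h, indicator_of_mem h]
        · rw [indicator_of_notMem h, indicator_of_notMem h, smul_zero]
      · by_cases h : r ∈ Ioi (((k + 1 : ℕ) : ℝ) / K)
        · rw [indicator_of_mem h, indicator_of_mem h]
        · rw [indicator_of_notMem h, indicator_of_notMem h, smul_zero]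
    rw [Finset.sum_congr rfl fun k _ => h2 k, this]
    simp only [gr]
    by_cases h3 : 0 < r
    · by_cases h4 : (((⌊(K : ℝ) * σ ω⌋₊ + 1 : ℕ) : ℝ) / K) < r
      · simp only [CharP.cast_eq_zero, zero_div]
        rw [indicator_of_mem (show r ∈ Ioi (0 : ℝ) from h3), indicator_of_mem (mem_Ioi.2 h4),
          indicator_of_notMem (fun h => absurd h.2 (not_le.2 h4)), sub_self]
      · have e4 : r ∉ Ioi (((⌊(K : ℝ) * σ ω⌋₊ + 1 : ℕ) : ℝ) / K) := h4
        have e5 : r ∈ Ioc 0 (((⌊(K : ℝ) * σ ω⌋₊ + 1 : ℕ) : ℝ) / K) := ⟨h3, not_lt.1 h4⟩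
        simp only [CharP.cast_eq_zero, zero_div]
        rw [indicator_of_mem (show r ∈ Ioi (0 : ℝ) from h3),
          indicator_of_notMem e4, sub_zero, indicator_of_mem e5]
    · have h4 : ¬ (((⌊(K : ℝ) * σ ω⌋₊ + 1 : ℕ) : ℝ) / K) < r := by
        have : (0 : ℝ) ≤ ((⌊(K : ℝ) * σ ω⌋₊ + 1 : ℕ) : ℝ) / K := by positivity
        linarith
      have e4 : r ∉ Ioi (((⌊(K : ℝ) * σ ω⌋₊ + 1 : ℕ) : ℝ) / K) := h4
      have e3 : r ∉ Ioi (0 : ℝ) := h3
      have e5 : r ∉ Ioc 0 (((⌊(K : ℝ) * σ ω⌋₊ + 1 : ℕ) : ℝ) / K) := fun h => h3 h.1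
      simp only [CharP.cast_eq_zero, zero_div]
      rw [indicator_of_notMem e3, indicator_of_notMem e4, sub_zero, indicator_of_notMem e5]
  · intro ω
    have := tele (fun k => - p.2 ((k : ℝ) / K) ω) ω
    rw [Prod.snd_sum, Finset.sum_apply, Finset.sum_apply]
    have h2 : ∀ k ∈ Finset.range M, ((restr ((k : ℝ) / K) (ϑ k) p -
        restr (((k + 1 : ℕ) : ℝ) / K) (ϑ k) p).2 (T + 1) ω) =
        ϑ k ω • (- p.2 ((k : ℝ) / K) ω) - ϑ k ω • (- p.2 (((k + 1 : ℕ) : ℝ) / K) ω) := by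
      intro k hk
      have hk1 : k + 1 ≤ M := Finset.mem_range.1 hk
      simp only [restr, LinearMap.coe_mk, AddHom.coe_mk, Prod.snd_sub, Pi.sub_apply, smul_eq_mul]
      rw [min_eq_left (hkM k (by omega)), min_eq_left (hkM (k + 1) hk1)]
      ring
    rw [Finset.sum_congr rfl h2, this]
    simp only [gr, CharP.cast_eq_zero, zero_div]
    ring

/-- optional stopping for elementary integrals -/
theorem stop_elem [IsProbabilityMeasure μ] (hB : FBM F B μ) (hT : 0 ≤ T) {σ : Ω → ℝ}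
    (hσ : IsStop F T σ) {p : (ℝ → Ω → E d) × (ℝ → Ω → ℝ)} (hp : p ∈ Span F B (T + 1)) :
    MemLp (fun ω => p.2 (σ ω) ω) 2 μ ∧ ∫ ω, p.2 (σ ω) ω ∂μ = 0 ∧
    ∫⁻ ω, ‖p.2 (σ ω) ω‖ₑ ^ 2 ∂μ = ∫⁻ ω, (∫⁻ r in Ioc 0 (σ ω), ‖p.1 r ω‖ₑ ^ 2) ∂μ := by
  have hR : (0 : ℝ) ≤ T + 1 := by linarith
  have hN := span_nice hB hR hp
  obtain ⟨C, hC0, hC⟩ := hN.bdd
  have hK : ∀ n : ℕ, 0 < n + 1 := fun n => n.succ_pos
  choose q hqS hq1 hq2 using fun n : ℕ => stop_grid hT hσ hp (hK n)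
  have hq2' : ∀ n ω, (q n).2 (T + 1) ω = p.2 (gr (n + 1) σ ω) ω := by
    intro n ω
    rw [hq2, hN.zero, sub_zero]
  set f : ℕ → Ω → ℝ := fun n ω => p.2 (gr (n + 1) σ ω) ω with hf
  set g : Ω → ℝ := fun ω => p.2 (σ ω) ω with hg
  have hqf : ∀ n, (q n).2 (T + 1) = f n := fun n => funext fun ω => hq2' n ω
  have hfL : ∀ n, MemLp (f n) 2 μ := fun n => by
    rw [← hqf]; exact (span_nice hB hR (hqS n)).memLp
  have hgr0 : ∀ n ω, σ ω < gr (n + 1) σ ω := fun n ω => gr_gt (hK n) σ ω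
  have hgr1 : ∀ (n : ℕ) ω, gr (n + 1) σ ω ≤ σ ω + 1 / (n + 1 : ℝ) := fun n ω => by
    have := gr_le (hK n) (σ := σ) (ω := ω) (hσ.1 ω).1
    push_cast at this; exact this
  have hlim : ∀ᵐ ω ∂μ, Tendsto (fun n => f n ω) atTop (𝓝 (g ω)) := by
    filter_upwards [hN.cont] with ω hω
    have h1 : Tendsto (fun n : ℕ => gr (n + 1) σ ω) atTop (𝓝 (σ ω)) := by
      refine tendsto_of_tendsto_of_tendsto_of_le_of_le tendsto_const_nhds ?_
        (fun n => (hgr0 n ω).le) (fun n => hgr1 n ω)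
      have := tendsto_one_div_add_atTop_nhds_zero_nat (𝕜 := ℝ)
      simpa using tendsto_const_nhds.add this
    have h2 : Tendsto (fun n : ℕ => gr (n + 1) σ ω) atTop (𝓝[Ici 0] (σ ω)) :=
      tendsto_nhdsWithin_iff.2 ⟨h1, Eventually.of_forall fun n =>
        ((hσ.1 ω).1.trans (hgr0 n ω).le)⟩
    exact (hω (σ ω) (hσ.1 ω).1).tendsto.comp h2
  have hgm : AEStronglyMeasurable g μ := aestronglyMeasurable_of_tendsto_ae atTop
    (fun n => (hfL n).1) hlim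
  -- the Cauchy estimate
  have hcau : ∀ n k, n ≤ k → ∫⁻ ω, ‖f n ω - f k ω‖ₑ ^ 2 ∂μ ≤
      ENNReal.ofReal (C ^ 2 * (1 / (n + 1 : ℝ))) := by
    intro n k hnk
    have h1 := span_isometry hB hR (Submodule.sub_mem _ (hqS n) (hqS k))
    have h2 : ∀ ω, (q n - q k).2 (T + 1) ω = f n ω - f k ω := by
      intro ω
      simp only [Prod.snd_sub, Pi.sub_apply, hqf]
    simp_rw [h2] at h1
    rw [h1]
    have h3 : ∀ ω, ∫⁻ r in Ioc 0 (T + 1), ‖(q n - q k).1 r ω‖ₑ ^ 2 ≤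
        ENNReal.ofReal (C ^ 2 * (1 / (n + 1 : ℝ))) := by
      intro ω
      have hnk' : (1 : ℝ) / (k + 1) ≤ 1 / (n + 1) := by
        apply one_div_le_one_div_of_le (by positivity)
        have : (n : ℝ) ≤ k := by exact_mod_cast hnk
        linarith
      have h4 : ∀ r, ‖(q n - q k).1 r ω‖ₑ ^ 2 ≤
          (Ioc (σ ω) (σ ω + 1 / (n + 1 : ℝ))).indicator (fun _ => ENNReal.ofReal (C ^ 2)) r := by
        intro r
        simp only [Prod.fst_sub, Pi.sub_apply, hq1]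
        have hCr : ‖p.1 r ω‖ₑ ^ 2 ≤ ENNReal.ofReal (C ^ 2) := by
          rw [← ofReal_norm, ← ENNReal.ofReal_pow (norm_nonneg _)]
          exact ENNReal.ofReal_le_ofReal (pow_le_pow_left₀ (norm_nonneg _) (hC r ω) 2)
        by_cases hr0 : 0 < r
        · by_cases hr1 : r ≤ gr (n + 1) σ ω
          · have m1 : r ∈ Ioc 0 (gr (n + 1) σ ω) := ⟨hr0, hr1⟩
            by_cases hr2 : r ≤ gr (k + 1) σ ω
            · have m2 : r ∈ Ioc 0 (gr (k + 1) σ ω) := ⟨hr0, hr2⟩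
              rw [indicator_of_mem m1, indicator_of_mem m2]
              simp
            · have e2 : r ∉ Ioc 0 (gr (k + 1) σ ω) := fun h => hr2 h.2
              have m3 : r ∈ Ioc (σ ω) (σ ω + 1 / (n + 1 : ℝ)) :=
                ⟨(hgr0 k ω).trans (not_le.1 hr2), hr1.trans (hgr1 n ω)⟩
              rw [indicator_of_mem m1, indicator_of_notMem e2, sub_zero, indicator_of_mem m3]
              exact hCr
          · have e1 : r ∉ Ioc 0 (gr (n + 1) σ ω) := fun h => hr1 h.2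
            by_cases hr2 : r ≤ gr (k + 1) σ ω
            · have m2 : r ∈ Ioc 0 (gr (k + 1) σ ω) := ⟨hr0, hr2⟩
              have m3 : r ∈ Ioc (σ ω) (σ ω + 1 / (n + 1 : ℝ)) :=
                ⟨(hgr0 n ω).trans (not_le.1 hr1), (hr2.trans (hgr1 k ω)).trans (by linarith)⟩
              rw [indicator_of_notMem e1, indicator_of_mem m2, zero_sub,
                enorm_neg, indicator_of_mem m3]
              exact hCr
            · have e2 : r ∉ Ioc 0 (gr (k + 1) σ ω) := fun h => hr2 h.2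
              rw [indicator_of_notMem e1, indicator_of_notMem e2]
              simp
        · have e1 : r ∉ Ioc 0 (gr (n + 1) σ ω) := fun h => hr0 h.1
          have e2 : r ∉ Ioc 0 (gr (k + 1) σ ω) := fun h => hr0 h.1
          rw [indicator_of_notMem e1, indicator_of_notMem e2]
          simp
      calc ∫⁻ r in Ioc 0 (T + 1), ‖(q n - q k).1 r ω‖ₑ ^ 2
          ≤ ∫⁻ r, ‖(q n - q k).1 r ω‖ₑ ^ 2 := setLIntegral_le_lintegral _ _
        _ ≤ ∫⁻ r, (Ioc (σ ω) (σ ω + 1 / (n + 1 : ℝ))).indicator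
            (fun _ => ENNReal.ofReal (C ^ 2)) r := lintegral_mono h4
        _ = ENNReal.ofReal (C ^ 2) * ENNReal.ofReal (1 / (n + 1 : ℝ)) := by
            rw [lintegral_indicator_const measurableSet_Ioc, Real.volume_Ioc]
            congr 2; ring
        _ = ENNReal.ofReal (C ^ 2 * (1 / (n + 1 : ℝ))) := by
            rw [ENNReal.ofReal_mul (by positivity)]
    calc ∫⁻ ω, (∫⁻ r in Ioc 0 (T + 1), ‖(q n - q k).1 r ω‖ₑ ^ 2) ∂μ
        ≤ ∫⁻ _, ENNReal.ofReal (C ^ 2 * (1 / (n + 1 : ℝ))) ∂μ := lintegral_mono h3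
      _ = _ := by simp
  have hdiff : ∀ n, ∫⁻ ω, ‖f n ω - g ω‖ₑ ^ 2 ∂μ ≤ ENNReal.ofReal (C ^ 2 * (1 / (n + 1 : ℝ))) := by
    intro n
    have h1 : ∫⁻ ω, ‖f n ω - g ω‖ₑ ^ 2 ∂μ ≤
        ∫⁻ ω, liminf (fun k => ‖f n ω - f k ω‖ₑ ^ 2) atTop ∂μ := by
      refine lintegral_mono_ae ?_
      filter_upwards [hlim] with ω hω
      have : Tendsto (fun k => ‖f n ω - f k ω‖ₑ ^ 2) atTop (𝓝 (‖f n ω - g ω‖ₑ ^ 2)) :=
        ((ENNReal.continuous_pow 2).tendsto _).comp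
          ((continuous_enorm.tendsto _).comp (tendsto_const_nhds.sub hω))
      rw [this.liminf_eq]
    refine h1.trans ((lintegral_liminf_le' fun k => ?_).trans ?_)
    · exact (((hfL n).1.sub (hfL k).1).enorm).pow_const 2
    · refine (liminf_le_liminf (v := fun _ => ENNReal.ofReal (C ^ 2 * (1 / (n + 1 : ℝ))))
        ((eventually_ge_atTop n).mono fun k hk => hcau n k hk)).trans ?_
      simp
  have hε : Tendsto (fun n : ℕ => ENNReal.ofReal (C ^ 2 * (1 / (n + 1 : ℝ)))) atTop (𝓝 0) := by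
    have h1 : Tendsto (fun n : ℕ => C ^ 2 * (1 / (n + 1 : ℝ))) atTop (𝓝 (C ^ 2 * 0)) :=
      tendsto_const_nhds.mul (tendsto_one_div_add_atTop_nhds_zero_nat (𝕜 := ℝ))
    rw [mul_zero] at h1
    simpa using ENNReal.tendsto_ofReal h1
  obtain ⟨r1, r2, r3⟩ := L2_limit hfL hgm hε (fun n => ENNReal.ofReal_ne_top) hdiff
  refine ⟨r1, ?_, ?_⟩
  · refine tendsto_nhds_unique r2 ?_
    have : ∀ n, ∫ ω, f n ω ∂μ = 0 := fun n => by
      rw [← hqf]; exact (span_nice hB hR (hqS n)).mean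
    simp_rw [this]
    exact tendsto_const_nhds
  · refine tendsto_nhds_unique r3 ?_
    have h1 : ∀ n, ∫⁻ ω, ‖f n ω‖ₑ ^ 2 ∂μ =
        ∫⁻ ω, (∫⁻ r in Ioc 0 (gr (n + 1) σ ω), ‖p.1 r ω‖ₑ ^ 2) ∂μ := by
      intro n
      rw [← hqf, span_isometry hB hR (hqS n)]
      refine lintegral_congr fun ω => ?_
      simp_rw [hq1]
      have h2 : ∀ r, ‖(Ioc 0 (gr (n + 1) σ ω)).indicator (fun r => p.1 r ω) r‖ₑ ^ 2 =
          (Ioc 0 (gr (n + 1) σ ω)).indicator (fun r => ‖p.1 r ω‖ₑ ^ 2) r := by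
        intro r
        by_cases h : r ∈ Ioc 0 (gr (n + 1) σ ω)
        · rw [indicator_of_mem h, indicator_of_mem h]
        · rw [indicator_of_notMem h, indicator_of_notMem h]; simp
      simp_rw [h2]
      rw [lintegral_indicator measurableSet_Ioc, Measure.restrict_restrict measurableSet_Ioc]
      have h3 : Ioc 0 (gr (n + 1) σ ω) ∩ Ioc 0 (T + 1) = Ioc 0 (gr (n + 1) σ ω) := by
        apply inter_eq_left.2
        refine Ioc_subset_Ioc le_rfl ((hgr1 n ω).trans ?_)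
        have h4 : (1 : ℝ) / (n + 1) ≤ 1 := by
          rw [div_le_one (by positivity)]
          have : (0 : ℝ) ≤ n := by positivity
          linarith
        linarith [(hσ.1 ω).2]
      rw [h3]
    simp_rw [h1]
    have h5 : ∀ n, ∫⁻ ω, (∫⁻ r in Ioc 0 (σ ω), ‖p.1 r ω‖ₑ ^ 2) ∂μ ≤
        ∫⁻ ω, (∫⁻ r in Ioc 0 (gr (n + 1) σ ω), ‖p.1 r ω‖ₑ ^ 2) ∂μ := fun n =>
      lintegral_mono fun ω => lintegral_mono_set (Ioc_subset_Ioc le_rfl (hgr0 n ω).le)
    have h6 : ∀ n : ℕ, ∫⁻ ω, (∫⁻ r in Ioc 0 (gr (n + 1) σ ω), ‖p.1 r ω‖ₑ ^ 2) ∂μ ≤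
        (∫⁻ ω, (∫⁻ r in Ioc 0 (σ ω), ‖p.1 r ω‖ₑ ^ 2) ∂μ) +
          ENNReal.ofReal (C ^ 2 * (1 / (n + 1 : ℝ))) := by
      intro n
      have h7 : ∀ ω, ∫⁻ r in Ioc 0 (gr (n + 1) σ ω), ‖p.1 r ω‖ₑ ^ 2 ≤
          (∫⁻ r in Ioc 0 (σ ω), ‖p.1 r ω‖ₑ ^ 2) + ENNReal.ofReal (C ^ 2 * (1 / (n + 1 : ℝ))) := by
        intro ω
        have h8 : Ioc 0 (gr (n + 1) σ ω) = Ioc 0 (σ ω) ∪ Ioc (σ ω) (gr (n + 1) σ ω) :=
          (Ioc_union_Ioc_eq_Ioc (hσ.1 ω).1 (hgr0 n ω).le).symm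
        rw [h8]
        refine (lintegral_union_le _ _ _).trans (add_le_add le_rfl ?_)
        calc ∫⁻ r in Ioc (σ ω) (gr (n + 1) σ ω), ‖p.1 r ω‖ₑ ^ 2
            ≤ ∫⁻ _ in Ioc (σ ω) (gr (n + 1) σ ω), ENNReal.ofReal (C ^ 2) := by
              refine lintegral_mono fun r => ?_
              simp only
              rw [← ofReal_norm, ← ENNReal.ofReal_pow (norm_nonneg _)]
              exact ENNReal.ofReal_le_ofReal (pow_le_pow_left₀ (norm_nonneg _) (hC r ω) 2)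
          _ = ENNReal.ofReal (C ^ 2) * ENNReal.ofReal (gr (n + 1) σ ω - σ ω) := by
              rw [setLIntegral_const, Real.volume_Ioc]
          _ ≤ ENNReal.ofReal (C ^ 2) * ENNReal.ofReal (1 / (n + 1 : ℝ)) := by
              gcongr
              linarith [hgr1 n ω]
          _ = _ := by rw [ENNReal.ofReal_mul (by positivity)]
      refine (lintegral_mono h7).trans ?_
      rw [lintegral_add_right _ measurable_const]
      simp
    refine tendsto_of_tendsto_of_tendsto_of_le_of_le tendsto_const_nhds ?_ h5 h6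
    simpa using tendsto_const_nhds.add hε

end

end BSDE
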